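import Mathlib

section

section

set_option autoImplicit false

/-!
# Local functions on small vertex sets of a graph

For a graph `G` and a finite vertex set `W` the functions `fe`, `ft`, `fj`, `fs` below are used with
`W.card = 2, 3, 4, 5`. They only depend on the induced subgraph on `W`:
`fe` detects an edge, `ft` a triangle, `fj` is `1` on an induced 4-cycle, `-2` on a 4-clique,
`fs` is `3` on the wheel with 4 spokes, `2` on the wheel minus a spoke, `1` on `K_{2,3}`,
`-1` on the 5-cycle, and everything is `0` otherwise.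
-/

namespace Pool.Agent.Lib.MP_61e017_co

variable {V : Type*}

/-- adjacency as a Boolean -/
noncomputable def B (G : SimpleGraph V) (u v : V) : Bool :=
  @decide (G.Adj u v) (Classical.propDecidable _)

theorem B_eq_true (G : SimpleGraph V) (u v : V) : B G u v = true ↔ G.Adj u v := by
  unfold B
  simp

theorem B_eq_false (G : SimpleGraph V) (u v : V) : B G u v = false ↔ ¬ G.Adj u v := by
  rw [← B_eq_true]
  simp

theorem B_comm (G : SimpleGraph V) (u v : V) : B G u v = B G v u := by
  rw [Bool.eq_iff_iff, B_eq_true, B_eq_true]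
  exact G.adj_comm u v

theorem B_self (G : SimpleGraph V) (u : V) : B G u u = false := by
  rw [B_eq_false]
  exact G.loopless.irrefl u

/-- degree of `v` into `W` -/
noncomputable def dg (G : SimpleGraph V) (W : Finset V) (v : V) : ℕ := ∑ u ∈ W, (B G v u).toNat

/-- sum of the degrees inside `W` -/
noncomputable def p1 (G : SimpleGraph V) (W : Finset V) : ℕ := ∑ v ∈ W, dg G W v

/-- sum of the squares of the degrees inside `W` -/
noncomputable def p2 (G : SimpleGraph V) (W : Finset V) : ℕ := ∑ v ∈ W, (dg G W v) ^ 2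

/-- ordered triangles inside `W` -/
noncomputable def tr (G : SimpleGraph V) (W : Finset V) : ℕ :=
  ∑ u ∈ W, ∑ v ∈ W, ∑ w ∈ W, (B G u v && B G v w && B G u w).toNat

/-- edge indicator -/
noncomputable def fe (G : SimpleGraph V) (W : Finset V) : ℤ := if p1 G W = 2 then 1 else 0

/-- triangle indicator -/
noncomputable def ft (G : SimpleGraph V) (W : Finset V) : ℤ := if p1 G W = 6 then 1 else 0

/-- induced 4-cycles minus twice 4-cliques -/
noncomputable def fj (G : SimpleGraph V) (W : Finset V) : ℤ :=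
  if p1 G W = 8 ∧ p2 G W = 16 then 1 else if p1 G W = 12 then -2 else 0

/-- the local function on 5-sets -/
noncomputable def fs (G : SimpleGraph V) (W : Finset V) : ℤ :=
  if p1 G W = 16 ∧ p2 G W = 52 then 3 else
  if p1 G W = 14 ∧ p2 G W = 40 then 2 else
  if p1 G W = 12 ∧ p2 G W = 30 ∧ tr G W = 0 then 1 else
  if p1 G W = 10 ∧ p2 G W = 20 then -1 else 0

/-- Boolean version of `fj` -/
def j4 (ab ac ad bc bd cd : Bool) : ℤ :=
  if 2 * (ab.toNat + ac.toNat + ad.toNat + bc.toNat + bd.toNat + cd.toNat) = 8 ∧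
    (ab.toNat + ac.toNat + ad.toNat) ^ 2 + (ab.toNat + bc.toNat + bd.toNat) ^ 2 +
    (ac.toNat + bc.toNat + cd.toNat) ^ 2 + (ad.toNat + bd.toNat + cd.toNat) ^ 2 = 16 then 1
  else if 2 * (ab.toNat + ac.toNat + ad.toNat + bc.toNat + bd.toNat + cd.toNat) = 12 then -2 else 0

/-- Boolean version of `p1` on a 5-set -/
def q1 (ab ac ad ae bc bd be cd ce de : Bool) : ℕ :=
  2 * (ab.toNat + ac.toNat + ad.toNat + ae.toNat + bc.toNat + bd.toNat + be.toNat + cd.toNat +
    ce.toNat + de.toNat)

/-- Boolean version of `p2` on a 5-set -/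
def q2 (ab ac ad ae bc bd be cd ce de : Bool) : ℕ :=
  (ab.toNat + ac.toNat + ad.toNat + ae.toNat) ^ 2 + (ab.toNat + bc.toNat + bd.toNat + be.toNat) ^ 2 +
  (ac.toNat + bc.toNat + cd.toNat + ce.toNat) ^ 2 + (ad.toNat + bd.toNat + cd.toNat + de.toNat) ^ 2 +
  (ae.toNat + be.toNat + ce.toNat + de.toNat) ^ 2

/-- Boolean version of `tr` on a 5-set -/
def q3 (ab ac ad ae bc bd be cd ce de : Bool) : ℕ :=
  6 * ((ab && bc && ac).toNat + (ab && bd && ad).toNat + (ab && be && ae).toNat +
    (ac && cd && ad).toNat + (ac && ce && ae).toNat + (ad && de && ae).toNat +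
    (bc && cd && bd).toNat + (bc && ce && be).toNat + (bd && de && be).toNat +
    (cd && de && ce).toNat)

/-- Boolean version of `fs` -/
def s5 (ab ac ad ae bc bd be cd ce de : Bool) : ℤ :=
  if q1 ab ac ad ae bc bd be cd ce de = 16 ∧ q2 ab ac ad ae bc bd be cd ce de = 52 then 3 else
  if q1 ab ac ad ae bc bd be cd ce de = 14 ∧ q2 ab ac ad ae bc bd be cd ce de = 40 then 2 else
  if q1 ab ac ad ae bc bd be cd ce de = 12 ∧ q2 ab ac ad ae bc bd be cd ce de = 30 ∧
    q3 ab ac ad ae bc bd be cd ce de = 0 then 1 else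
  if q1 ab ac ad ae bc bd be cd ce de = 10 ∧ q2 ab ac ad ae bc bd be cd ce de = 20 then -1 else 0

section eval

variable [DecidableEq V] (G : SimpleGraph V)

theorem p1_two {a b : V} (ab : a ≠ b) : p1 G {a, b} = 2 * (B G a b).toNat := by
  unfold p1 dg
  simp only [Finset.sum_insert, Finset.sum_singleton, Finset.mem_singleton, ab,
    not_false_eq_true, B_self, Bool.toNat_false]
  rw [B_comm G b a]
  ring

theorem p1_three {a b c : V} (ab : a ≠ b) (ac : a ≠ c) (bc : b ≠ c) :
    p1 G {a, b, c} = 2 * ((B G a b).toNat + (B G a c).toNat + (B G b c).toNat) := by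
  unfold p1 dg
  simp only [Finset.sum_insert, Finset.sum_singleton, Finset.mem_singleton, Finset.mem_insert,
    ab, ac, bc, or_self, not_false_eq_true, B_self, Bool.toNat_false]
  rw [B_comm G b a, B_comm G c a, B_comm G c b]
  ring

theorem p1_four {a b c d : V} (ab : a ≠ b) (ac : a ≠ c) (ad : a ≠ d) (bc : b ≠ c) (bd : b ≠ d)
    (cd : c ≠ d) : p1 G {a, b, c, d} = 2 * ((B G a b).toNat + (B G a c).toNat + (B G a d).toNat +
      (B G b c).toNat + (B G b d).toNat + (B G c d).toNat) := by
  unfold p1 dg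
  simp only [Finset.sum_insert, Finset.sum_singleton, Finset.mem_singleton, Finset.mem_insert,
    ab, ac, ad, bc, bd, cd, or_self, not_false_eq_true, B_self, Bool.toNat_false]
  rw [B_comm G b a, B_comm G c a, B_comm G c b, B_comm G d a, B_comm G d b, B_comm G d c]
  ring

theorem p2_four {a b c d : V} (ab : a ≠ b) (ac : a ≠ c) (ad : a ≠ d) (bc : b ≠ c) (bd : b ≠ d)
    (cd : c ≠ d) : p2 G {a, b, c, d} =
      ((B G a b).toNat + (B G a c).toNat + (B G a d).toNat) ^ 2 +
      ((B G a b).toNat + (B G b c).toNat + (B G b d).toNat) ^ 2 +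
      ((B G a c).toNat + (B G b c).toNat + (B G c d).toNat) ^ 2 +
      ((B G a d).toNat + (B G b d).toNat + (B G c d).toNat) ^ 2 := by
  unfold p2 dg
  simp only [Finset.sum_insert, Finset.sum_singleton, Finset.mem_singleton, Finset.mem_insert,
    ab, ac, ad, bc, bd, cd, or_self, not_false_eq_true, B_self, Bool.toNat_false]
  rw [B_comm G b a, B_comm G c a, B_comm G c b, B_comm G d a, B_comm G d b, B_comm G d c]
  ring

theorem p1_five {a b c d e : V} (ab : a ≠ b) (ac : a ≠ c) (ad : a ≠ d) (ae : a ≠ e) (bc : b ≠ c)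
    (bd : b ≠ d) (be : b ≠ e) (cd : c ≠ d) (ce : c ≠ e) (de : d ≠ e) :
    p1 G {a, b, c, d, e} = q1 (B G a b) (B G a c) (B G a d) (B G a e) (B G b c) (B G b d)
      (B G b e) (B G c d) (B G c e) (B G d e) := by
  unfold p1 dg q1
  simp only [Finset.sum_insert, Finset.sum_singleton, Finset.mem_singleton, Finset.mem_insert,
    ab, ac, ad, ae, bc, bd, be, cd, ce, de, or_self, not_false_eq_true, B_self, Bool.toNat_false]
  rw [B_comm G b a, B_comm G c a, B_comm G c b, B_comm G d a, B_comm G d b, B_comm G d c,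
    B_comm G e a, B_comm G e b, B_comm G e c, B_comm G e d]
  ring

theorem p2_five {a b c d e : V} (ab : a ≠ b) (ac : a ≠ c) (ad : a ≠ d) (ae : a ≠ e) (bc : b ≠ c)
    (bd : b ≠ d) (be : b ≠ e) (cd : c ≠ d) (ce : c ≠ e) (de : d ≠ e) :
    p2 G {a, b, c, d, e} = q2 (B G a b) (B G a c) (B G a d) (B G a e) (B G b c) (B G b d)
      (B G b e) (B G c d) (B G c e) (B G d e) := by
  unfold p2 dg q2
  simp only [Finset.sum_insert, Finset.sum_singleton, Finset.mem_singleton, Finset.mem_insert,
    ab, ac, ad, ae, bc, bd, be, cd, ce, de, or_self, not_false_eq_true, B_self, Bool.toNat_false]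
  rw [B_comm G b a, B_comm G c a, B_comm G c b, B_comm G d a, B_comm G d b, B_comm G d c,
    B_comm G e a, B_comm G e b, B_comm G e c, B_comm G e d]
  ring

theorem tr_five {a b c d e : V} (ab : a ≠ b) (ac : a ≠ c) (ad : a ≠ d) (ae : a ≠ e) (bc : b ≠ c)
    (bd : b ≠ d) (be : b ≠ e) (cd : c ≠ d) (ce : c ≠ e) (de : d ≠ e) :
    tr G {a, b, c, d, e} = q3 (B G a b) (B G a c) (B G a d) (B G a e) (B G b c) (B G b d)
      (B G b e) (B G c d) (B G c e) (B G d e) := by
  unfold tr q3
  simp only [Finset.sum_insert, Finset.sum_singleton, Finset.mem_singleton, Finset.mem_insert,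
    ab, ac, ad, ae, bc, bd, be, cd, ce, de, or_self, not_false_eq_true, B_self, Bool.toNat_false,
    Bool.and_false, Bool.false_and]
  rw [B_comm G b a, B_comm G c a, B_comm G c b, B_comm G d a, B_comm G d b, B_comm G d c,
    B_comm G e a, B_comm G e b, B_comm G e c, B_comm G e d]
  generalize B G a b = x1
  generalize B G a c = x2
  generalize B G a d = x3
  generalize B G a e = x4
  generalize B G b c = x5
  generalize B G b d = x6
  generalize B G b e = x7
  generalize B G c d = x8
  generalize B G c e = x9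
  generalize B G d e = x10
  revert x1 x2 x3 x4 x5 x6 x7 x8 x9 x10
  decide +kernel

theorem fe_two {a b : V} (ab : a ≠ b) : fe G {a, b} = ((B G a b).toNat : ℤ) := by
  unfold fe
  rw [p1_two G ab]
  cases B G a b <;> simp

theorem ft_three {a b c : V} (ab : a ≠ b) (ac : a ≠ c) (bc : b ≠ c) :
    ft G {a, b, c} = ((B G a b && B G a c && B G b c).toNat : ℤ) := by
  unfold ft
  rw [p1_three G ab ac bc]
  cases B G a b <;> cases B G a c <;> cases B G b c <;> simp

theorem fj_four {a b c d : V} (ab : a ≠ b) (ac : a ≠ c) (ad : a ≠ d) (bc : b ≠ c) (bd : b ≠ d)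
    (cd : c ≠ d) : fj G {a, b, c, d} = j4 (B G a b) (B G a c) (B G a d) (B G b c) (B G b d)
      (B G c d) := by
  unfold fj j4
  rw [p1_four G ab ac ad bc bd cd, p2_four G ab ac ad bc bd cd]

theorem fs_five {a b c d e : V} (ab : a ≠ b) (ac : a ≠ c) (ad : a ≠ d) (ae : a ≠ e) (bc : b ≠ c)
    (bd : b ≠ d) (be : b ≠ e) (cd : c ≠ d) (ce : c ≠ e) (de : d ≠ e) :
    fs G {a, b, c, d, e} = s5 (B G a b) (B G a c) (B G a d) (B G a e) (B G b c) (B G b d)
      (B G b e) (B G c d) (B G c e) (B G d e) := by
  unfold fs s5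
  rw [p1_five G ab ac ad ae bc bd be cd ce de, p2_five G ab ac ad ae bc bd be cd ce de,
    tr_five G ab ac ad ae bc bd be cd ce de]

end eval

/-! The Boolean identities. -/

/-- the change of a triangle count when merging two vertices -/
def tb (xa xb ya yb ab : Bool) : ℤ :=
  (((xa || ya) && (xb || yb) && ab).toNat : ℤ) - ((xa && xb && ab).toNat : ℤ) -
    ((ya && yb && ab).toNat : ℤ)

theorem bool_c : ∀ xa xb ya yb ab : Bool,
    j4 true xa xb ya yb ab - j4 false xa xb ya yb ab =
      tb xa xb ya yb ab - (((xa && ya) && (xb && yb)).toNat : ℤ) := by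
  decide +kernel

theorem bool_pair : ∀ xa xb ya yb ab : Bool, (xa && xb && ya && yb && ab) = false →
    j4 false xa xb ya yb ab = (((xa && ya) && (xb && yb)).toNat : ℤ) := by
  decide +kernel

theorem bool_pair0 : ∀ xa xb ya yb ab : Bool, (xa && xb && ya && yb && ab) = false →
    ((xa && ya).toNat : ℤ) * tb xa xb ya yb ab = 0 := by
  decide +kernel

theorem bool_triple : ∀ xa xb xc ya yb yc ab ac bc : Bool,
    (xa && xb && ya && yb && ab) = false → (xa && xc && ya && yc && ac) = false →
    (xb && xc && yb && yc && bc) = false → (xa && xb && xc && ab && ac && bc) = false →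
    (ya && yb && yc && ab && ac && bc) = false →
    j4 (xa || ya) (xb || yb) (xc || yc) ab ac bc - j4 xa xb xc ab ac bc - j4 ya yb yc ab ac bc +
      s5 true xa xb xc ya yb yc ab ac bc - s5 false xa xb xc ya yb yc ab ac bc +
      (((xa && ya) && (xb && yb) && (xc && yc)).toNat : ℤ) -
      (((xa && ya).toNat : ℤ) * tb xb xc yb yc bc + ((xb && yb).toNat : ℤ) * tb xa xc ya yc ac +
      ((xc && yc).toNat : ℤ) * tb xa xb ya yb ab) = 0 := by
  decide +kernel

/-- the weight: `8` on the wheel, `4` on the wheel minus a spoke -/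
def kp (s : ℤ) : ℤ := if s = 3 then 8 else if s = 2 then 4 else 0

/-- the defect of a 5-set -/
def bad5 (ab ac ad ae bc bd be cd ce de : Bool) : ℤ :=
  (j4 bc bd be cd ce de + j4 ac ad ae cd ce de + j4 ab ad ae bd be de +
      j4 ab ac ae bc be ce + j4 ab ac ad bc bd cd) + kp (s5 ab ac ad ae bc bd be cd ce de) -
      3 * s5 ab ac ad ae bc bd be cd ce de

theorem bool_bad : ∀ ab ac ad ae bc bd be cd ce de : Bool,
    (ab && ac && ad && bc && bd && cd) = false → (ab && ac && ae && bc && be && ce) = false →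
    (ab && ad && ae && bd && be && de) = false → (ac && ad && ae && cd && ce && de) = false →
    (bc && bd && be && cd && ce && de) = false →
    0 ≤ bad5 ab ac ad ae bc bd be cd ce de := by
  decide +kernel

/-- if `a b c d` is an induced 4-cycle and the defect vanishes then `e` sees a diagonal -/
theorem bool_diag : ∀ ae be ce de : Bool,
    bad5 true false true ae true false be true ce de = 0 → (ae && ce || be && de) = true := by
  decide +kernel

end Pool.Agent.Lib.MP_61e017_co
end

section

set_option autoImplicit false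
set_option linter.unusedSectionVars false

/-!
# Sums over the subsets of a fixed size
-/

namespace Pool.Agent.Lib.MP_61e017_co

variable {V : Type*} [DecidableEq V] {M : Type*} [AddCommMonoid M]

theorem sum_pc_insert {x : V} {s : Finset V} (hx : x ∉ s) (k : ℕ) (F : Finset V → M) :
    ∑ W ∈ (insert x s).powersetCard (k + 1), F W =
      ∑ W ∈ s.powersetCard (k + 1), F W + ∑ W ∈ s.powersetCard k, F (insert x W) := by
  rw [Finset.powersetCard_succ_insert hx, Finset.sum_union, Finset.sum_image]
  · intro W hW W' hW' h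
    have h1 : x ∉ W := fun hh => hx ((Finset.mem_powersetCard.1 hW).1 hh)
    have h2 : x ∉ W' := fun hh => hx ((Finset.mem_powersetCard.1 hW').1 hh)
    rw [← Finset.erase_insert h1, ← Finset.erase_insert h2, h]
  · rw [Finset.disjoint_left]
    intro W hW hW'
    obtain ⟨W'', -, rfl⟩ := Finset.mem_image.1 hW'
    exact hx ((Finset.mem_powersetCard.1 hW).1 (Finset.mem_insert_self _ _))

theorem sum_pc_insert2 {x y : V} {s : Finset V} (hx : x ∉ s) (hy : y ∉ s) (hxy : x ≠ y) (k : ℕ)
    (F : Finset V → M) :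
    ∑ W ∈ (insert x (insert y s)).powersetCard (k + 2), F W =
      ∑ W ∈ s.powersetCard (k + 2), F W + ∑ W ∈ s.powersetCard (k + 1), F (insert y W) +
      (∑ W ∈ s.powersetCard (k + 1), F (insert x W) +
        ∑ W ∈ s.powersetCard k, F (insert x (insert y W))) := by
  have hx' : x ∉ insert y s := by simp [hxy, hx]
  rw [sum_pc_insert hx', sum_pc_insert hy, sum_pc_insert hy]

theorem sum_pc_erase (s : Finset V) (k : ℕ) (h : V → Finset V → M) :
    ∑ W ∈ s.powersetCard (k + 1), ∑ a ∈ W, h a (W.erase a) =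
      ∑ W ∈ s.powersetCard k, ∑ a ∈ s \ W, h a W := by
  rw [Finset.sum_sigma', Finset.sum_sigma']
  refine Finset.sum_bij' (fun p _ => ⟨p.1.erase p.2, p.2⟩) (fun p _ => ⟨insert p.2 p.1, p.2⟩)
    ?_ ?_ ?_ ?_ ?_
  · rintro ⟨W, a⟩ h
    simp only [Finset.mem_sigma, Finset.mem_powersetCard, Finset.mem_sdiff] at h ⊢
    obtain ⟨⟨h1, h2⟩, h3⟩ := h
    refine ⟨⟨(Finset.erase_subset _ _).trans h1, ?_⟩, h1 h3, by simp⟩
    rw [Finset.card_erase_of_mem h3, h2]
    rfl
  · rintro ⟨W, a⟩ h
    simp only [Finset.mem_sigma, Finset.mem_powersetCard, Finset.mem_sdiff] at h ⊢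
    obtain ⟨⟨h1, h2⟩, h3, h4⟩ := h
    refine ⟨⟨Finset.insert_subset h3 h1, ?_⟩, Finset.mem_insert_self _ _⟩
    rw [Finset.card_insert_of_notMem h4, h2]
  · rintro ⟨W, a⟩ h
    simp only [Finset.mem_sigma] at h
    simp [Finset.insert_erase h.2]
  · rintro ⟨W, a⟩ h
    simp only [Finset.mem_sigma, Finset.mem_sdiff] at h
    simp [Finset.erase_insert h.2.2]
  · rintro ⟨W, a⟩ h
    rfl

theorem sum_pc_erase_const (s : Finset V) (k : ℕ) (f : Finset V → ℤ) :
    ∑ W ∈ s.powersetCard (k + 1), ∑ a ∈ W, f (W.erase a) =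
      ((s.card : ℤ) - k) * ∑ W ∈ s.powersetCard k, f W := by
  rw [sum_pc_erase s k (fun _ W => f W), Finset.mul_sum]
  refine Finset.sum_congr rfl fun W hW => ?_
  rw [Finset.sum_const, nsmul_eq_mul, Finset.card_sdiff_of_subset (Finset.mem_powersetCard.1 hW).1,
    (Finset.mem_powersetCard.1 hW).2, Nat.cast_sub]
  rw [← (Finset.mem_powersetCard.1 hW).2]
  exact Finset.card_le_card (Finset.mem_powersetCard.1 hW).1

/-- product of a vertex sum and a sum over pairs -/
theorem mul_sum_pc (s : Finset V) (k : ℕ) (f : V → ℤ) (g : Finset V → ℤ) :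
    (∑ a ∈ s, f a) * (∑ W ∈ s.powersetCard k, g W) =
      ∑ W ∈ s.powersetCard (k + 1), ∑ a ∈ W, f a * g (W.erase a) +
      ∑ W ∈ s.powersetCard k, (∑ a ∈ W, f a) * g W := by
  rw [sum_pc_erase s k (fun a W => f a * g W), ← Finset.sum_add_distrib, Finset.mul_sum]
  refine Finset.sum_congr rfl fun W hW => ?_
  rw [← Finset.sum_mul, ← add_mul, Finset.sum_sdiff (Finset.mem_powersetCard.1 hW).1]

omit [DecidableEq V]

/-- indicator of `all elements satisfy N` -/
noncomputable def al (N : V → Bool) (W : Finset V) : ℤ :=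
  if ∀ a ∈ W, N a = true then (1 : ℤ) else 0

theorem al_pair [DecidableEq V] (N : V → Bool) (a b : V) :
    al N {a, b} = ((N a && N b).toNat : ℤ) := by
  unfold al
  cases ha : N a <;> cases hb : N b <;> simp [ha, hb]

theorem al_triple [DecidableEq V] (N : V → Bool) (a b c : V) :
    al N {a, b, c} = ((N a && N b && N c).toNat : ℤ) := by
  unfold al
  cases ha : N a <;> cases hb : N b <;> cases hc : N c <;> simp [ha, hb, hc]

/-- subsets all of whose elements satisfy a Boolean predicate -/
theorem sum_pc_all (s : Finset V) (k : ℕ) (N : V → Bool) :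
    ∑ W ∈ s.powersetCard k, al N W =
      (((s.filter (fun a => N a = true)).card.choose k : ℕ) : ℤ) := by
  unfold al
  rw [Finset.sum_boole, ← Finset.card_powersetCard]
  congr 2
  ext W
  simp only [Finset.mem_filter, Finset.mem_powersetCard, Finset.subset_iff]
  constructor
  · rintro ⟨⟨h1, h2⟩, h3⟩
    exact ⟨fun a ha => ⟨h1 ha, h3 a ha⟩, h2⟩
  · rintro ⟨h1, h2⟩
    exact ⟨⟨fun a ha => (h1 ha).1, h2⟩, fun a ha => (h1 ha).2⟩

theorem sum_toNat (s : Finset V) (N : V → Bool) :
    ∑ a ∈ s, ((N a).toNat : ℤ) = ((s.filter (fun a => N a = true)).card : ℤ) := by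
  rw [← Finset.sum_boole]
  refine Finset.sum_congr rfl fun a _ => ?_
  cases N a <;> simp

theorem choose_two_cast (n : ℕ) : ((n.choose 2 : ℕ) : ℚ) = (n : ℚ) * (n - 1) / 2 :=
  Nat.cast_choose_two ℚ n

theorem choose_three_cast (n : ℕ) :
    ((n.choose 3 : ℕ) : ℚ) = (n : ℚ) * (n - 1) * (n - 2) / 6 := by
  induction n with
  | zero => simp
  | succ n ih =>
    rw [Nat.choose_succ_succ' n 2, Nat.cast_add, ih, choose_two_cast]
    push_cast
    ring

end Pool.Agent.Lib.MP_61e017_co
end

section

set_option autoImplicit false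
set_option linter.unusedSectionVars false

/-!
# The counts `EE, TT, JJ, SS` and how they change when an edge is added
-/

namespace Pool.Agent.Lib.MP_61e017_co

variable {V : Type*} [Fintype V] [DecidableEq V]

/-- number of edges -/
noncomputable def EE (G : SimpleGraph V) : ℤ := ∑ W ∈ (Finset.univ : Finset V).powersetCard 2, fe G W

/-- number of triangles -/
noncomputable def TT (G : SimpleGraph V) : ℤ := ∑ W ∈ (Finset.univ : Finset V).powersetCard 3, ft G W

/-- number of induced 4-cycles minus twice the number of 4-cliques -/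
noncomputable def JJ (G : SimpleGraph V) : ℤ := ∑ W ∈ (Finset.univ : Finset V).powersetCard 4, fj G W

/-- the weighted number of special 5-sets -/
noncomputable def SS (G : SimpleGraph V) : ℤ := ∑ W ∈ (Finset.univ : Finset V).powersetCard 5, fs G W

section congr

omit [Fintype V]
variable {G H : SimpleGraph V} {W : Finset V}

omit [DecidableEq V] in
theorem p1_congr (h : ∀ u ∈ W, ∀ v ∈ W, B G u v = B H u v) : p1 G W = p1 H W := by
  unfold p1 dg
  exact Finset.sum_congr rfl fun u hu => Finset.sum_congr rfl fun v hv => by rw [h u hu v hv]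

omit [DecidableEq V] in
theorem p2_congr (h : ∀ u ∈ W, ∀ v ∈ W, B G u v = B H u v) : p2 G W = p2 H W := by
  unfold p2 dg
  refine Finset.sum_congr rfl fun u hu => ?_
  congr 1
  exact Finset.sum_congr rfl fun v hv => by rw [h u hu v hv]

omit [DecidableEq V] in
theorem tr_congr (h : ∀ u ∈ W, ∀ v ∈ W, B G u v = B H u v) : tr G W = tr H W := by
  unfold tr
  exact Finset.sum_congr rfl fun u hu => Finset.sum_congr rfl fun v hv =>
    Finset.sum_congr rfl fun w hw => by rw [h u hu v hv, h v hv w hw, h u hu w hw]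

omit [DecidableEq V] in
theorem fe_congr (h : ∀ u ∈ W, ∀ v ∈ W, B G u v = B H u v) : fe G W = fe H W := by
  unfold fe; rw [p1_congr h]

omit [DecidableEq V] in
theorem ft_congr (h : ∀ u ∈ W, ∀ v ∈ W, B G u v = B H u v) : ft G W = ft H W := by
  unfold ft; rw [p1_congr h]

omit [DecidableEq V] in
theorem fj_congr (h : ∀ u ∈ W, ∀ v ∈ W, B G u v = B H u v) : fj G W = fj H W := by
  unfold fj; rw [p1_congr h, p2_congr h]

omit [DecidableEq V] in
theorem fs_congr (h : ∀ u ∈ W, ∀ v ∈ W, B G u v = B H u v) : fs G W = fs H W := by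
  unfold fs; rw [p1_congr h, p2_congr h, tr_congr h]

end congr

/-- `H` is `G` with the edge `x y` added, `m` is `G` with `y` merged into `x`
(and `y` kept as an isolated vertex). -/
structure Tri (H G m : SimpleGraph V) (x y : V) : Prop where
  ne : x ≠ y
  Hxy : B H x y = true
  Gxy : B G x y = false
  HG : ∀ u v, ¬ (u = x ∧ v = y) → ¬ (u = y ∧ v = x) → B H u v = B G u v
  my : ∀ v, B m y v = false
  mx : ∀ v, v ≠ y → B m x v = (B G x v || B G y v)
  mG : ∀ u v, u ≠ x → u ≠ y → v ≠ x → v ≠ y → B m u v = B G u v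

section tri

variable {H G m : SimpleGraph V} {x y : V}

/-- the other vertices -/
def oth (x y : V) : Finset V := Finset.univ \ {x, y}

theorem x_oth (x y : V) : x ∉ oth x y := by simp [oth]
theorem y_oth (x y : V) : y ∉ oth x y := by simp [oth]
theorem mem_oth {x y a : V} : a ∈ oth x y ↔ a ≠ x ∧ a ≠ y := by simp [oth]

theorem univ_oth (x y : V) : (Finset.univ : Finset V) = insert x (insert y (oth x y)) := by
  ext a
  simp only [Finset.mem_univ, Finset.mem_insert, mem_oth, true_iff]
  tauto

theorem split (h : x ≠ y) (k : ℕ) (F : Finset V → ℤ) :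
    ∑ W ∈ (Finset.univ : Finset V).powersetCard (k + 2), F W =
      ∑ W ∈ (oth x y).powersetCard (k + 2), F W +
        ∑ W ∈ (oth x y).powersetCard (k + 1), F (insert y W) +
      (∑ W ∈ (oth x y).powersetCard (k + 1), F (insert x W) +
        ∑ W ∈ (oth x y).powersetCard k, F (insert x (insert y W))) := by
  conv_lhs => rw [univ_oth x y]
  exact sum_pc_insert2 (x_oth x y) (y_oth x y) h k F

/-- common neighbours -/
noncomputable def cm (G : SimpleGraph V) (x y a : V) : Bool := B G x a && B G y a

/-- number of common neighbours -/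
noncomputable def CC (G : SimpleGraph V) (x y : V) : ℕ :=
  ((oth x y).filter (fun a => cm G x y a = true)).card

/-- change of the triangle count at a pair when merging -/
noncomputable def tau (G m : SimpleGraph V) (x y : V) (W : Finset V) : ℤ :=
  ft m (insert x W) - ft G (insert x W) - ft G (insert y W)

/-- total change of the triangle count when merging -/
noncomputable def TA (G m : SimpleGraph V) (x y : V) : ℤ :=
  ∑ W ∈ (oth x y).powersetCard 2, tau G m x y W

theorem congr_s (t : Tri H G m x y) {W : Finset V} (hW : W ⊆ oth x y) :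
    (∀ u ∈ W, ∀ v ∈ W, B H u v = B G u v) ∧ (∀ u ∈ W, ∀ v ∈ W, B m u v = B G u v) := by
  constructor
  · intro u hu v hv
    have h1 := mem_oth.1 (hW hu)
    exact t.HG u v (fun h => h1.1 h.1) (fun h => h1.2 h.1)
  · intro u hu v hv
    have h1 := mem_oth.1 (hW hu)
    have h2 := mem_oth.1 (hW hv)
    exact t.mG u v h1.1 h1.2 h2.1 h2.2

theorem congr_x (t : Tri H G m x y) {W : Finset V} (hW : W ⊆ oth x y) :
    ∀ u ∈ insert x W, ∀ v ∈ insert x W, B H u v = B G u v := by
  intro u hu v hv
  apply t.HG
  · rintro ⟨-, rfl⟩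
    rw [Finset.mem_insert] at hv
    rcases hv with h | h
    · exact t.ne h.symm
    · exact y_oth x v (hW h)
  · rintro ⟨rfl, -⟩
    rw [Finset.mem_insert] at hu
    rcases hu with h | h
    · exact t.ne h.symm
    · exact y_oth x u (hW h)

theorem congr_y (t : Tri H G m x y) {W : Finset V} (hW : W ⊆ oth x y) :
    ∀ u ∈ insert y W, ∀ v ∈ insert y W, B H u v = B G u v := by
  intro u hu v hv
  apply t.HG
  · rintro ⟨rfl, -⟩
    rw [Finset.mem_insert] at hu
    rcases hu with h | h
    · exact t.ne h
    · exact x_oth u y (hW h)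
  · rintro ⟨-, rfl⟩
    rw [Finset.mem_insert] at hv
    rcases hv with h | h
    · exact t.ne h
    · exact x_oth v y (hW h)

theorem sum_pc_one (s : Finset V) (F : Finset V → ℤ) :
    ∑ W ∈ s.powersetCard 1, F W = ∑ a ∈ s, F {a} := by
  rw [Finset.powersetCard_one, Finset.sum_map]
  rfl

theorem pair_of {s W : Finset V} (h : W ∈ s.powersetCard 2) :
    ∃ a b, a ≠ b ∧ a ∈ s ∧ b ∈ s ∧ W = {a, b} := by
  obtain ⟨h1, h2⟩ := Finset.mem_powersetCard.1 h
  obtain ⟨a, b, hab, rfl⟩ := Finset.card_eq_two.1 h2
  exact ⟨a, b, hab, h1 (by simp), h1 (by simp), rfl⟩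

theorem triple_of {s W : Finset V} (h : W ∈ s.powersetCard 3) :
    ∃ a b c, a ≠ b ∧ a ≠ c ∧ b ≠ c ∧ a ∈ s ∧ b ∈ s ∧ c ∈ s ∧ W = {a, b, c} := by
  obtain ⟨h1, h2⟩ := Finset.mem_powersetCard.1 h
  obtain ⟨a, b, c, hab, hac, hbc, rfl⟩ := Finset.card_eq_three.1 h2
  exact ⟨a, b, c, hab, hac, hbc, h1 (by simp), h1 (by simp), h1 (by simp), rfl⟩

theorem EE_H (t : Tri H G m x y) : EE H = EE G + 1 := by
  unfold EE
  rw [split t.ne 0, split t.ne 0 (fe G)]
  have e1 : ∑ W ∈ (oth x y).powersetCard (0 + 2), fe H W =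
      ∑ W ∈ (oth x y).powersetCard (0 + 2), fe G W :=
    Finset.sum_congr rfl fun W hW => fe_congr (congr_s t (Finset.mem_powersetCard.1 hW).1).1
  have e2 : ∑ W ∈ (oth x y).powersetCard (0 + 1), fe H (insert y W) =
      ∑ W ∈ (oth x y).powersetCard (0 + 1), fe G (insert y W) :=
    Finset.sum_congr rfl fun W hW => fe_congr (congr_y t (Finset.mem_powersetCard.1 hW).1)
  have e3 : ∑ W ∈ (oth x y).powersetCard (0 + 1), fe H (insert x W) =
      ∑ W ∈ (oth x y).powersetCard (0 + 1), fe G (insert x W) :=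
    Finset.sum_congr rfl fun W hW => fe_congr (congr_x t (Finset.mem_powersetCard.1 hW).1)
  rw [e1, e2, e3, Finset.powersetCard_zero, Finset.sum_singleton, Finset.sum_singleton]
  have h1 : (insert x (insert y (∅ : Finset V))) = {x, y} := rfl
  rw [h1, fe_two H t.ne, fe_two G t.ne, t.Hxy, t.Gxy]
  simp
  ring

theorem EE_m (t : Tri H G m x y) : EE m = EE G - CC G x y := by
  unfold EE
  rw [split t.ne 0, split t.ne 0 (fe G)]
  have e1 : ∑ W ∈ (oth x y).powersetCard (0 + 2), fe m W =
      ∑ W ∈ (oth x y).powersetCard (0 + 2), fe G W :=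
    Finset.sum_congr rfl fun W hW => fe_congr (congr_s t (Finset.mem_powersetCard.1 hW).1).2
  rw [e1, Finset.powersetCard_zero, Finset.sum_singleton, Finset.sum_singleton]
  have h1 : (insert x (insert y (∅ : Finset V))) = {x, y} := rfl
  rw [h1, fe_two m t.ne, fe_two G t.ne, t.Gxy, B_comm m x y, t.my, zero_add, sum_pc_one,
    sum_pc_one, sum_pc_one, sum_pc_one]
  have h2 : ∑ a ∈ oth x y, fe m (insert y {a}) = 0 := by
    apply Finset.sum_eq_zero
    intro a ha
    have := mem_oth.1 ha
    rw [fe_two m this.2.symm, t.my]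
    rfl
  have h3 : ∑ a ∈ oth x y, fe m (insert x {a}) =
      ∑ a ∈ oth x y, fe G (insert x {a}) + ∑ a ∈ oth x y, fe G (insert y {a}) -
        ∑ a ∈ oth x y, ((cm G x y a).toNat : ℤ) := by
    rw [← Finset.sum_add_distrib, ← Finset.sum_sub_distrib]
    refine Finset.sum_congr rfl fun a ha => ?_
    have := mem_oth.1 ha
    rw [fe_two m this.1.symm, fe_two G this.1.symm, fe_two G this.2.symm, t.mx a this.2, cm]
    cases B G x a <;> cases B G y a <;> simp
  rw [h2, h3, sum_toNat]
  unfold CC
  simp
  ring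

theorem TT_H (t : Tri H G m x y) : TT H = TT G + CC G x y := by
  unfold TT
  rw [split t.ne 1, split t.ne 1 (ft G)]
  have e1 : ∑ W ∈ (oth x y).powersetCard (1 + 2), ft H W =
      ∑ W ∈ (oth x y).powersetCard (1 + 2), ft G W :=
    Finset.sum_congr rfl fun W hW => ft_congr (congr_s t (Finset.mem_powersetCard.1 hW).1).1
  have e2 : ∑ W ∈ (oth x y).powersetCard (1 + 1), ft H (insert y W) =
      ∑ W ∈ (oth x y).powersetCard (1 + 1), ft G (insert y W) :=
    Finset.sum_congr rfl fun W hW => ft_congr (congr_y t (Finset.mem_powersetCard.1 hW).1)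
  have e3 : ∑ W ∈ (oth x y).powersetCard (1 + 1), ft H (insert x W) =
      ∑ W ∈ (oth x y).powersetCard (1 + 1), ft G (insert x W) :=
    Finset.sum_congr rfl fun W hW => ft_congr (congr_x t (Finset.mem_powersetCard.1 hW).1)
  have e4 : ∑ W ∈ (oth x y).powersetCard 1, ft H (insert x (insert y W)) =
      ∑ W ∈ (oth x y).powersetCard 1, ft G (insert x (insert y W)) + CC G x y := by
    unfold CC
    rw [← sum_toNat, sum_pc_one, sum_pc_one, ← Finset.sum_add_distrib]
    refine Finset.sum_congr rfl fun a ha => ?_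
    have := mem_oth.1 ha
    rw [ft_three H t.ne this.1.symm this.2.symm, ft_three G t.ne this.1.symm this.2.symm, t.Hxy,
      t.Gxy, t.HG x a (fun h => this.2 h.2) (fun h => t.ne h.1),
      t.HG y a (fun h => t.ne h.1.symm) (fun h => this.1 h.2), cm]
    simp
  rw [e1, e2, e3, e4]
  ring

theorem TT_m (t : Tri H G m x y) : TT m = TT G + TA G m x y := by
  unfold TT
  rw [split t.ne 1, split t.ne 1 (ft G)]
  have e1 : ∑ W ∈ (oth x y).powersetCard (1 + 2), ft m W =
      ∑ W ∈ (oth x y).powersetCard (1 + 2), ft G W :=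
    Finset.sum_congr rfl fun W hW => ft_congr (congr_s t (Finset.mem_powersetCard.1 hW).1).2
  have e2 : ∑ W ∈ (oth x y).powersetCard (1 + 1), ft m (insert y W) = 0 := by
    apply Finset.sum_eq_zero
    intro W hW
    obtain ⟨a, b, hab, ha, hb, rfl⟩ := pair_of hW
    have h1 := mem_oth.1 ha
    have h2 := mem_oth.1 hb
    rw [ft_three m h1.2.symm h2.2.symm hab, t.my]
    simp
  have e4 : ∑ W ∈ (oth x y).powersetCard 1, ft m (insert x (insert y W)) = 0 := by
    rw [sum_pc_one]
    apply Finset.sum_eq_zero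
    intro a ha
    have := mem_oth.1 ha
    rw [ft_three m t.ne this.1.symm this.2.symm, B_comm m x y, t.my]
    simp
  have e5 : ∑ W ∈ (oth x y).powersetCard 1, ft G (insert x (insert y W)) = 0 := by
    rw [sum_pc_one]
    apply Finset.sum_eq_zero
    intro a ha
    have := mem_oth.1 ha
    rw [ft_three G t.ne this.1.symm this.2.symm, t.Gxy]
    simp
  have e6 : ∑ W ∈ (oth x y).powersetCard (1 + 1), ft m (insert x W) =
      ∑ W ∈ (oth x y).powersetCard (1 + 1), ft G (insert x W) +
      ∑ W ∈ (oth x y).powersetCard (1 + 1), ft G (insert y W) + TA G m x y := by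
    unfold TA tau
    rw [← Finset.sum_add_distrib, ← Finset.sum_add_distrib]
    refine Finset.sum_congr rfl fun W _ => ?_
    ring
  rw [e1, e2, e4, e5, e6]
  ring

theorem tau_pair (t : Tri H G m x y) {a b : V} (ha : a ∈ oth x y) (hb : b ∈ oth x y)
    (hab : a ≠ b) : tau G m x y {a, b} = tb (B G x a) (B G x b) (B G y a) (B G y b) (B G a b) := by
  have h1 := mem_oth.1 ha
  have h2 := mem_oth.1 hb
  unfold tau tb
  rw [ft_three m h1.1.symm h2.1.symm hab, ft_three G h1.1.symm h2.1.symm hab,
    ft_three G h1.2.symm h2.2.symm hab, t.mx a h1.2, t.mx b h2.2, t.mG a b h1.1 h1.2 h2.1 h2.2]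

theorem JJ_H (t : Tri H G m x y) :
    JJ H = JJ G + TA G m x y - (((CC G x y).choose 2 : ℕ) : ℤ) := by
  unfold JJ
  rw [split t.ne 2, split t.ne 2 (fj G)]
  have e1 : ∑ W ∈ (oth x y).powersetCard (2 + 2), fj H W =
      ∑ W ∈ (oth x y).powersetCard (2 + 2), fj G W :=
    Finset.sum_congr rfl fun W hW => fj_congr (congr_s t (Finset.mem_powersetCard.1 hW).1).1
  have e2 : ∑ W ∈ (oth x y).powersetCard (2 + 1), fj H (insert y W) =
      ∑ W ∈ (oth x y).powersetCard (2 + 1), fj G (insert y W) :=
    Finset.sum_congr rfl fun W hW => fj_congr (congr_y t (Finset.mem_powersetCard.1 hW).1)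
  have e3 : ∑ W ∈ (oth x y).powersetCard (2 + 1), fj H (insert x W) =
      ∑ W ∈ (oth x y).powersetCard (2 + 1), fj G (insert x W) :=
    Finset.sum_congr rfl fun W hW => fj_congr (congr_x t (Finset.mem_powersetCard.1 hW).1)
  have e4 : ∑ W ∈ (oth x y).powersetCard 2, fj H (insert x (insert y W)) =
      ∑ W ∈ (oth x y).powersetCard 2, fj G (insert x (insert y W)) + TA G m x y -
        (((CC G x y).choose 2 : ℕ) : ℤ) := by
    unfold CC TA
    rw [← sum_pc_all, ← Finset.sum_add_distrib, ← Finset.sum_sub_distrib]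
    refine Finset.sum_congr rfl fun W hW => ?_
    obtain ⟨a, b, hab, ha, hb, rfl⟩ := pair_of hW
    have h1 := mem_oth.1 ha
    have h2 := mem_oth.1 hb
    rw [tau_pair t ha hb hab, fj_four H t.ne h1.1.symm h2.1.symm h1.2.symm h2.2.symm hab,
      fj_four G t.ne h1.1.symm h2.1.symm h1.2.symm h2.2.symm hab, t.Hxy, t.Gxy,
      t.HG x a (fun h => h1.2 h.2) (fun h => t.ne h.1),
      t.HG y a (fun h => t.ne h.1.symm) (fun h => h1.1 h.2),
      t.HG x b (fun h => h2.2 h.2) (fun h => t.ne h.1),
      t.HG y b (fun h => t.ne h.1.symm) (fun h => h2.1 h.2),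
      t.HG a b (fun h => h1.1 h.1) (fun h => h1.2 h.1)]
    have := bool_c (B G x a) (B G x b) (B G y a) (B G y b) (B G a b)
    rw [al_pair]
    unfold cm
    linarith
  rw [e1, e2, e3, e4]
  ring

/-- no 4-clique, in terms of `B` -/
def KF (G : SimpleGraph V) : Prop := ∀ a b c d : V,
  (B G a b && B G a c && B G a d && B G b c && B G b d && B G c d) = false

theorem JJ_m_SS_H (t : Tri H G m x y) (hK : KF H) :
    SS H - SS G + JJ m - JJ G + (((CC G x y).choose 3 : ℕ) : ℤ) + (((CC G x y).choose 2 : ℕ) : ℤ) -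
      (CC G x y : ℤ) * TA G m x y = 0 := by
  have s1 : SS H - SS G = ∑ W ∈ (oth x y).powersetCard 3,
      (fs H (insert x (insert y W)) - fs G (insert x (insert y W))) := by
    unfold SS
    rw [split t.ne 3, split t.ne 3 (fs G)]
    have e1 : ∑ W ∈ (oth x y).powersetCard (3 + 2), fs H W =
        ∑ W ∈ (oth x y).powersetCard (3 + 2), fs G W :=
      Finset.sum_congr rfl fun W hW => fs_congr (congr_s t (Finset.mem_powersetCard.1 hW).1).1
    have e2 : ∑ W ∈ (oth x y).powersetCard (3 + 1), fs H (insert y W) =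
        ∑ W ∈ (oth x y).powersetCard (3 + 1), fs G (insert y W) :=
      Finset.sum_congr rfl fun W hW => fs_congr (congr_y t (Finset.mem_powersetCard.1 hW).1)
    have e3 : ∑ W ∈ (oth x y).powersetCard (3 + 1), fs H (insert x W) =
        ∑ W ∈ (oth x y).powersetCard (3 + 1), fs G (insert x W) :=
      Finset.sum_congr rfl fun W hW => fs_congr (congr_x t (Finset.mem_powersetCard.1 hW).1)
    rw [e1, e2, e3, Finset.sum_sub_distrib]
    ring
  have s2 : JJ m - JJ G = ∑ W ∈ (oth x y).powersetCard 3,
      (fj m (insert x W) - fj G (insert x W) - fj G (insert y W)) -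
      ∑ W ∈ (oth x y).powersetCard 2, fj G (insert x (insert y W)) := by
    unfold JJ
    rw [split t.ne 2, split t.ne 2 (fj G)]
    have e1 : ∑ W ∈ (oth x y).powersetCard (2 + 2), fj m W =
        ∑ W ∈ (oth x y).powersetCard (2 + 2), fj G W :=
      Finset.sum_congr rfl fun W hW => fj_congr (congr_s t (Finset.mem_powersetCard.1 hW).1).2
    have e2 : ∑ W ∈ (oth x y).powersetCard (2 + 1), fj m (insert y W) = 0 := by
      apply Finset.sum_eq_zero
      intro W hW
      obtain ⟨a, b, c, hab, hac, hbc, ha, hb, hc, rfl⟩ := triple_of hW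
      have h1 := mem_oth.1 ha
      have h2 := mem_oth.1 hb
      have h3 := mem_oth.1 hc
      rw [fj_four m h1.2.symm h2.2.symm h3.2.symm hab hac hbc, t.my, t.my, t.my]
      generalize B m a b = z1
      generalize B m a c = z2
      generalize B m b c = z3
      revert z1 z2 z3
      decide
    have e3 : ∑ W ∈ (oth x y).powersetCard 2, fj m (insert x (insert y W)) = 0 := by
      apply Finset.sum_eq_zero
      intro W hW
      obtain ⟨a, b, hab, ha, hb, rfl⟩ := pair_of hW
      have h1 := mem_oth.1 ha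
      have h2 := mem_oth.1 hb
      rw [fj_four m t.ne h1.1.symm h2.1.symm h1.2.symm h2.2.symm hab, B_comm m x y, t.my, t.my,
        t.my]
      generalize B m x a = z1
      generalize B m x b = z2
      generalize B m a b = z3
      revert z1 z2 z3
      decide
    rw [e1, e2, e3, Finset.sum_sub_distrib, Finset.sum_sub_distrib]
    ring
  have s3 : (((CC G x y).choose 3 : ℕ) : ℤ) = ∑ W ∈ (oth x y).powersetCard 3,
      al (cm G x y) W := by
    rw [sum_pc_all]; rfl
  have s4 : (((CC G x y).choose 2 : ℕ) : ℤ) = ∑ W ∈ (oth x y).powersetCard 2,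
      al (cm G x y) W := by
    rw [sum_pc_all]; rfl
  have s5' : (CC G x y : ℤ) * TA G m x y =
      ∑ W ∈ (oth x y).powersetCard 3, ∑ a ∈ W, ((cm G x y a).toNat : ℤ) * tau G m x y (W.erase a) +
      ∑ W ∈ (oth x y).powersetCard 2, (∑ a ∈ W, ((cm G x y a).toNat : ℤ)) * tau G m x y W := by
    unfold CC TA
    rw [← sum_toNat, mul_sum_pc]
  have key : SS H - SS G + (JJ m - JJ G) + (((CC G x y).choose 3 : ℕ) : ℤ) +
      (((CC G x y).choose 2 : ℕ) : ℤ) - (CC G x y : ℤ) * TA G m x y =
      ∑ W ∈ (oth x y).powersetCard 3,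
        (fj m (insert x W) - fj G (insert x W) - fj G (insert y W) +
          (fs H (insert x (insert y W)) - fs G (insert x (insert y W))) +
          al (cm G x y) W -
          ∑ a ∈ W, ((cm G x y a).toNat : ℤ) * tau G m x y (W.erase a)) +
      ∑ W ∈ (oth x y).powersetCard 2,
        (- fj G (insert x (insert y W)) +
          al (cm G x y) W -
          (∑ a ∈ W, ((cm G x y a).toNat : ℤ)) * tau G m x y W) := by
    rw [s1, s2, s3, s4, s5']
    simp only [Finset.sum_add_distrib, Finset.sum_sub_distrib, Finset.sum_neg_distrib]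
    ring
  have z1 : ∑ W ∈ (oth x y).powersetCard 2,
        (- fj G (insert x (insert y W)) +
          al (cm G x y) W -
          (∑ a ∈ W, ((cm G x y a).toNat : ℤ)) * tau G m x y W) = 0 := by
    apply Finset.sum_eq_zero
    intro W hW
    obtain ⟨a, b, hab, ha, hb, rfl⟩ := pair_of hW
    have h1 := mem_oth.1 ha
    have h2 := mem_oth.1 hb
    have k1 : (B G x a && B G x b && B G y a && B G y b && B G a b) = false := by
      have := hK x y a b
      rw [t.Hxy, t.HG x a (fun h => h1.2 h.2) (fun h => t.ne h.1),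
        t.HG y a (fun h => t.ne h.1.symm) (fun h => h1.1 h.2),
        t.HG x b (fun h => h2.2 h.2) (fun h => t.ne h.1),
        t.HG y b (fun h => t.ne h.1.symm) (fun h => h2.1 h.2),
        t.HG a b (fun h => h1.1 h.1) (fun h => h1.2 h.1)] at this
      simpa using this
    have k2 : (B G x b && B G x a && B G y b && B G y a && B G a b) = false := by
      rw [← k1]
      cases B G x a <;> cases B G x b <;> cases B G y a <;> cases B G y b <;> rfl
    rw [tau_pair t ha hb hab, fj_four G t.ne h1.1.symm h2.1.symm h1.2.symm h2.2.symm hab, t.Gxy,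
      Finset.sum_pair hab, add_mul]
    have b1 := bool_pair _ _ _ _ _ k1
    have b2 := bool_pair0 _ _ _ _ _ k1
    have b3 : ((cm G x y b).toNat : ℤ) *
        tb (B G x a) (B G x b) (B G y a) (B G y b) (B G a b) = 0 := by
      have := bool_pair0 _ _ _ _ _ k2
      have e : tb (B G x b) (B G x a) (B G y b) (B G y a) (B G a b) =
          tb (B G x a) (B G x b) (B G y a) (B G y b) (B G a b) := by
        unfold tb
        cases B G x a <;> cases B G x b <;> cases B G y a <;> cases B G y b <;> rfl
      rw [e] at this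
      exact this
    have b4 : ((cm G x y a).toNat : ℤ) *
        tb (B G x a) (B G x b) (B G y a) (B G y b) (B G a b) = 0 := b2
    rw [b1, b3, b4]
    rw [al_pair]
    unfold cm
    ring
  have z2 : ∑ W ∈ (oth x y).powersetCard 3,
        (fj m (insert x W) - fj G (insert x W) - fj G (insert y W) +
          (fs H (insert x (insert y W)) - fs G (insert x (insert y W))) +
          al (cm G x y) W -
          ∑ a ∈ W, ((cm G x y a).toNat : ℤ) * tau G m x y (W.erase a)) = 0 := by
    apply Finset.sum_eq_zero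
    intro W hW
    obtain ⟨a, b, c, hab, hac, hbc, ha, hb, hc, rfl⟩ := triple_of hW
    have h1 := mem_oth.1 ha
    have h2 := mem_oth.1 hb
    have h3 := mem_oth.1 hc
    have qxa := t.HG x a (fun h => h1.2 h.2) (fun h => t.ne h.1)
    have qya := t.HG y a (fun h => t.ne h.1.symm) (fun h => h1.1 h.2)
    have qxb := t.HG x b (fun h => h2.2 h.2) (fun h => t.ne h.1)
    have qyb := t.HG y b (fun h => t.ne h.1.symm) (fun h => h2.1 h.2)
    have qxc := t.HG x c (fun h => h3.2 h.2) (fun h => t.ne h.1)
    have qyc := t.HG y c (fun h => t.ne h.1.symm) (fun h => h3.1 h.2)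
    have qab := t.HG a b (fun h => h1.1 h.1) (fun h => h1.2 h.1)
    have qac := t.HG a c (fun h => h1.1 h.1) (fun h => h1.2 h.1)
    have qbc := t.HG b c (fun h => h2.1 h.1) (fun h => h2.2 h.1)
    have k1 : (B G x a && B G x b && B G y a && B G y b && B G a b) = false := by
      have := hK x y a b
      rw [t.Hxy, qxa, qxb, qya, qyb, qab] at this
      simpa using this
    have k2 : (B G x a && B G x c && B G y a && B G y c && B G a c) = false := by
      have := hK x y a c
      rw [t.Hxy, qxa, qxc, qya, qyc, qac] at this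
      simpa using this
    have k3 : (B G x b && B G x c && B G y b && B G y c && B G b c) = false := by
      have := hK x y b c
      rw [t.Hxy, qxb, qxc, qyb, qyc, qbc] at this
      simpa using this
    have k4 : (B G x a && B G x b && B G x c && B G a b && B G a c && B G b c) = false := by
      have := hK x a b c
      rw [qxa, qxb, qxc, qab, qac, qbc] at this
      exact this
    have k5 : (B G y a && B G y b && B G y c && B G a b && B G a c && B G b c) = false := by
      have := hK y a b c
      rw [qya, qyb, qyc, qab, qac, qbc] at this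
      exact this
    have er1 : ({a, b, c} : Finset V).erase a = {b, c} := by
      ext z; simp only [Finset.mem_erase, Finset.mem_insert, Finset.mem_singleton]
      constructor
      · rintro ⟨h, h' | h' | h'⟩
        · exact absurd h' h
        · exact Or.inl h'
        · exact Or.inr h'
      · rintro (rfl | rfl)
        · exact ⟨hab.symm, by simp⟩
        · exact ⟨hac.symm, by simp⟩
    have er2 : ({a, b, c} : Finset V).erase b = {a, c} := by
      ext z; simp only [Finset.mem_erase, Finset.mem_insert, Finset.mem_singleton]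
      constructor
      · rintro ⟨h, h' | h' | h'⟩
        · exact Or.inl h'
        · exact absurd h' h
        · exact Or.inr h'
      · rintro (rfl | rfl)
        · exact ⟨hab, by simp⟩
        · exact ⟨hbc.symm, by simp⟩
    have er3 : ({a, b, c} : Finset V).erase c = {a, b} := by
      ext z; simp only [Finset.mem_erase, Finset.mem_insert, Finset.mem_singleton]
      constructor
      · rintro ⟨h, h' | h' | h'⟩
        · exact Or.inl h'
        · exact Or.inr h'
        · exact absurd h' h
      · rintro (rfl | rfl)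
        · exact ⟨hac, by simp⟩
        · exact ⟨hbc, by simp⟩
    have sm : ∑ z ∈ ({a, b, c} : Finset V), ((cm G x y z).toNat : ℤ) *
        tau G m x y (({a, b, c} : Finset V).erase z) =
        ((cm G x y a).toNat : ℤ) * tau G m x y {b, c} +
        (((cm G x y b).toNat : ℤ) * tau G m x y {a, c} +
        ((cm G x y c).toNat : ℤ) * tau G m x y {a, b}) := by
      rw [Finset.sum_insert (by simp [hab, hac]), Finset.sum_insert (by simp [hbc]),
        Finset.sum_singleton, er1, er2, er3]
    rw [sm, tau_pair t hb hc hbc, tau_pair t ha hc hac, tau_pair t ha hb hab,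
      fj_four m h1.1.symm h2.1.symm h3.1.symm hab hac hbc,
      fj_four G h1.1.symm h2.1.symm h3.1.symm hab hac hbc,
      fj_four G h1.2.symm h2.2.symm h3.2.symm hab hac hbc,
      fs_five H t.ne h1.1.symm h2.1.symm h3.1.symm h1.2.symm h2.2.symm h3.2.symm hab hac hbc,
      fs_five G t.ne h1.1.symm h2.1.symm h3.1.symm h1.2.symm h2.2.symm h3.2.symm hab hac hbc,
      t.mx a h1.2, t.mx b h2.2, t.mx c h3.2, t.mG a b h1.1 h1.2 h2.1 h2.2,
      t.mG a c h1.1 h1.2 h3.1 h3.2, t.mG b c h2.1 h2.2 h3.1 h3.2, t.Hxy, t.Gxy,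
      qxa, qxb, qxc, qya, qyb, qyc, qab, qac, qbc]
    have b1 := bool_triple _ _ _ _ _ _ _ _ _ k1 k2 k3 k4 k5
    rw [al_triple]
    unfold cm
    linarith [b1]
  rw [z1, z2] at key
  linarith [key]

end tri

end Pool.Agent.Lib.MP_61e017_co
end
end

section

section

set_option autoImplicit false
set_option linter.unusedSectionVars false

/-!
# The main inequality for a 3-coloured graph all of whose two-coloured subgraphs are connected
-/

namespace Pool.Agent.Lib.MP_61e017_co

variable {V : Type*} [Fintype V] [DecidableEq V]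

theorem kf_of_three {G : SimpleGraph V} (f : V → Fin 3) (hf : ∀ u v, B G u v = true → f u ≠ f v) :
    KF G := by
  intro a b c d
  by_contra h
  simp only [Bool.not_eq_false, Bool.and_eq_true] at h
  obtain ⟨⟨⟨⟨⟨h1, h2⟩, h3⟩, h4⟩, h5⟩, h6⟩ := h
  have g1 := hf _ _ h1
  have g2 := hf _ _ h2
  have g3 := hf _ _ h3
  have g4 := hf _ _ h4
  have g5 := hf _ _ h5
  have g6 := hf _ _ h6
  omega

/-- ordered pairs of adjacent vertices with prescribed colours -/
noncomputable def MM (G : SimpleGraph V) (f : V → Fin 3) (i j : Fin 3) : ℕ :=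
  ((Finset.univ : Finset (V × V)).filter
    (fun p => B G p.1 p.2 = true ∧ f p.1 = i ∧ f p.2 = j)).card

/-- sizes of the colour classes -/
noncomputable def NN (f : V → Fin 3) (i : Fin 3) : ℕ :=
  ((Finset.univ : Finset V).filter (fun v => f v = i)).card

theorem sum_NN (f : V → Fin 3) : NN f 0 + NN f 1 + NN f 2 = Fintype.card V := by
  have h := Finset.card_eq_sum_card_fiberwise (s := (Finset.univ : Finset V))
    (t := (Finset.univ : Finset (Fin 3))) (f := f) (fun x _ => Finset.mem_coe.2 (Finset.mem_univ _))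
  rw [Fin.sum_univ_three, Finset.card_univ] at h
  exact h.symm

theorem two_EE (G : SimpleGraph V) :
    2 * EE G = (((Finset.univ : Finset (V × V)).filter (fun p => B G p.1 p.2 = true)).card : ℤ) := by
  have h1 : 2 * EE G = ∑ W ∈ (Finset.univ : Finset V).powersetCard (1 + 1), ∑ a ∈ W,
      ∑ b ∈ W.erase a, ((B G a b).toNat : ℤ) := by
    unfold EE
    rw [Finset.mul_sum]
    refine Finset.sum_congr rfl fun W hW => ?_
    obtain ⟨a, b, hab, -, -, rfl⟩ := pair_of hW
    rw [fe_two G hab, Finset.sum_pair hab]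
    have e1 : ({a, b} : Finset V).erase a = {b} := by
      rw [Finset.erase_insert]; simpa using hab
    have e2 : ({a, b} : Finset V).erase b = {a} := by
      rw [Finset.pair_comm, Finset.erase_insert]; simpa using hab.symm
    rw [e1, e2, Finset.sum_singleton, Finset.sum_singleton, B_comm G b a]
    ring
  rw [h1, sum_pc_erase Finset.univ 1 (fun a W => ∑ b ∈ W, ((B G a b).toNat : ℤ)), sum_pc_one,
    ← Finset.sum_boole, ← Finset.univ_product_univ, Finset.sum_product_right]
  refine Finset.sum_congr rfl fun b _ => ?_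
  rw [← Finset.sum_sdiff (Finset.subset_univ {b})]
  rw [Finset.sum_singleton, B_self]
  simp only [Finset.sum_singleton, Bool.false_eq_true, if_false, add_zero]
  refine Finset.sum_congr rfl fun a _ => ?_
  cases B G a b <;> simp

theorem sum_fib (G : SimpleGraph V) (f : V → Fin 3) (hf : ∀ u v, B G u v = true → f u ≠ f v)
    (P : V × V → Prop) [DecidablePred P] :
    ((Finset.univ : Finset (V × V)).filter (fun p => B G p.1 p.2 = true ∧ P p)).card =
      ((Finset.univ : Finset (V × V)).filter
        (fun p => (B G p.1 p.2 = true ∧ P p) ∧ f p.1 = 0 ∧ f p.2 = 1)).card +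
      ((Finset.univ : Finset (V × V)).filter
        (fun p => (B G p.1 p.2 = true ∧ P p) ∧ f p.1 = 1 ∧ f p.2 = 0)).card +
      ((Finset.univ : Finset (V × V)).filter
        (fun p => (B G p.1 p.2 = true ∧ P p) ∧ f p.1 = 0 ∧ f p.2 = 2)).card +
      ((Finset.univ : Finset (V × V)).filter
        (fun p => (B G p.1 p.2 = true ∧ P p) ∧ f p.1 = 2 ∧ f p.2 = 0)).card +
      ((Finset.univ : Finset (V × V)).filter
        (fun p => (B G p.1 p.2 = true ∧ P p) ∧ f p.1 = 1 ∧ f p.2 = 2)).card +
      ((Finset.univ : Finset (V × V)).filter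
        (fun p => (B G p.1 p.2 = true ∧ P p) ∧ f p.1 = 2 ∧ f p.2 = 1)).card := by
  have h := Finset.card_eq_sum_card_fiberwise
    (s := ((Finset.univ : Finset (V × V)).filter (fun p => B G p.1 p.2 = true ∧ P p)))
    (t := (Finset.univ : Finset (Fin 3 × Fin 3))) (f := fun p => (f p.1, f p.2))
    (fun x _ => Finset.mem_coe.2 (Finset.mem_univ _))
  rw [Fintype.sum_prod_type, Fin.sum_univ_three, Fin.sum_univ_three,
    Fin.sum_univ_three, Fin.sum_univ_three] at h
  simp only [Finset.filter_filter, Prod.mk.injEq] at h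
  have z : ∀ i : Fin 3, ((Finset.univ : Finset (V × V)).filter
        (fun p => (B G p.1 p.2 = true ∧ P p) ∧ f p.1 = i ∧ f p.2 = i)).card = 0 := by
    intro i
    rw [Finset.card_eq_zero, Finset.filter_eq_empty_iff]
    rintro p - ⟨⟨h1, -⟩, h2, h3⟩
    exact hf _ _ h1 (h2.trans h3.symm)
  have z0 := z 0
  have z1 := z 1
  have z2 := z 2
  rw [h, z0, z1, z2]
  ring

/-- the special pairs attached to the edge `a b` -/
def sp (G : SimpleGraph V) (a b x y : V) : Prop :=
  x ≠ a ∧ y ≠ b ∧ B G a y = true ∧ B G b x = true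

noncomputable instance (G : SimpleGraph V) (a b : V) :
    DecidablePred (fun p : V × V => sp G a b p.1 p.2) := fun _ => Classical.propDecidable _

theorem null_bound (G : SimpleGraph V) (f : V → Fin 3) (hf : ∀ u v, B G u v = true → f u ≠ f v)
    {i j : Fin 3} (hij : i ≠ j) (hc : (G.induce {v | f v = i ∨ f v = j}).Connected) {a b : V}
    (ha : f a = i) (hb : f b = j) (hab : B G a b = true) :
    ((Finset.univ : Finset (V × V)).filter
        (fun p => (B G p.1 p.2 = true ∧ sp G a b p.1 p.2) ∧ f p.1 = i ∧ f p.2 = j)).card +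
      NN f i + NN f j ≤ MM G f i j + 1 := by
  classical
  -- the bad edges
  set bad : V → V → Prop := fun x y => B G x y = true ∧ sp G a b x y ∧ f x = i ∧ f y = j with hbad
  let H : SimpleGraph {v | f v = i ∨ f v = j} :=
    { Adj := fun x y => B G x y = true ∧ ¬ bad x y ∧ ¬ bad y x
      symm := ⟨fun x y h => ⟨(B_comm G y x).trans h.1, h.2.2, h.2.1⟩⟩
      loopless := ⟨fun x h => by simp [B_self] at h⟩ }
  have hreach : ∀ x y : {v | f v = i ∨ f v = j}, bad x y → H.Reachable x y := by
    rintro ⟨x, hx⟩ ⟨y, hy⟩ ⟨h1, ⟨h2, h3, h4, h5⟩, h6, h7⟩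
    simp only at h1 h2 h3 h4 h5 h6 h7
    have e1 : H.Adj ⟨x, hx⟩ ⟨b, Or.inr hb⟩ := by
      refine ⟨(B_comm G x b).trans h5, ?_, ?_⟩
      · rintro ⟨-, ⟨-, g, -, -⟩, -, -⟩
        exact g rfl
      · rintro ⟨-, -, g, -⟩
        exact hij (g.symm.trans hb)
    have e2 : H.Adj ⟨b, Or.inr hb⟩ ⟨a, Or.inl ha⟩ := by
      refine ⟨(B_comm G b a).trans hab, ?_, ?_⟩
      · rintro ⟨-, -, g, -⟩
        exact hij (g.symm.trans hb)
      · rintro ⟨-, ⟨g, -, -⟩, -, -⟩
        exact g rfl
    have e3 : H.Adj ⟨a, Or.inl ha⟩ ⟨y, hy⟩ := by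
      refine ⟨h4, ?_, ?_⟩
      · rintro ⟨-, ⟨g, -, -⟩, -, -⟩
        exact g rfl
      · rintro ⟨-, -, g, -⟩
        exact hij (g.symm.trans h7)
    exact e1.reachable.trans (e2.reachable.trans e3.reachable)
  have hH : H.Connected := by
    have := hc.nonempty
    refine ⟨fun x y => ?_⟩
    obtain ⟨w⟩ := hc.preconnected x y
    induction w with
    | nil => exact SimpleGraph.Reachable.refl _
    | @cons u v w h _ ih =>
      refine SimpleGraph.Reachable.trans ?_ ih
      by_cases h1 : bad u v
      · exact hreach u v h1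
      · by_cases h2 : bad v u
        · exact (hreach v u h2).symm
        · have h3 : H.Adj u v := ⟨(B_eq_true G _ _).2 h, h1, h2⟩
          exact h3.reachable
  have hcard := hH.card_vert_le_card_edgeSet_add_one
  have hV : Nat.card {v | f v = i ∨ f v = j} = NN f i + NN f j := by
    rw [Nat.card_eq_fintype_card, Fintype.card_subtype]
    unfold NN
    rw [← Finset.card_union_of_disjoint]
    · congr 1
      ext v
      simp
    · rw [Finset.disjoint_left]
      intro v h1 h2
      simp only [Finset.mem_filter, Finset.mem_univ, true_and] at h1 h2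
      exact hij (h1.symm.trans h2)
  set Q : Finset (V × V) := (Finset.univ : Finset (V × V)).filter
    (fun p => (B G p.1 p.2 = true ∧ ¬ bad p.1 p.2) ∧ f p.1 = i ∧ f p.2 = j) with hQ
  have hE : Nat.card H.edgeSet ≤ Q.card := by
    have h1 : H.edgeSet ⊆ Set.range (fun p : {p // p ∈ Q} => (s(⟨p.1.1, Or.inl (by
        have := p.2; simp only [hQ, Finset.mem_filter] at this; exact this.2.2.1)⟩,
        ⟨p.1.2, Or.inr (by
        have := p.2; simp only [hQ, Finset.mem_filter] at this; exact this.2.2.2)⟩) :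
        Sym2 {v | f v = i ∨ f v = j})) := by
      intro e
      induction e using Sym2.ind with
      | _ x y =>
        intro he
        rw [SimpleGraph.mem_edgeSet] at he
        obtain ⟨x, hx⟩ := x
        obtain ⟨y, hy⟩ := y
        obtain ⟨h1, h2, h3⟩ := he
        have h1' : B G x y = true := h1
        have h2' : ¬ bad x y := h2
        have h3' : ¬ bad y x := h3
        have hne := hf x y h1'
        rw [Set.mem_ofPred_eq] at hx hy
        rcases hx with hx1 | hx1
        · rcases hy with hy1 | hy1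
          · exact absurd (hx1.trans hy1.symm) hne
          · refine ⟨⟨(x, y), ?_⟩, rfl⟩
            simp only [hQ, Finset.mem_filter, Finset.mem_univ, true_and]
            exact ⟨⟨h1', h2'⟩, hx1, hy1⟩
        · rcases hy with hy1 | hy1
          · refine ⟨⟨(y, x), ?_⟩, Sym2.eq_swap⟩
            simp only [hQ, Finset.mem_filter, Finset.mem_univ, true_and]
            exact ⟨⟨(B_comm G y x).trans h1', h3'⟩, hy1, hx1⟩
          · exact absurd (hx1.trans hy1.symm) hne
    refine (Nat.card_mono (Set.toFinite _) h1).trans ((Finite.card_range_le _).trans ?_)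
    rw [Nat.card_eq_fintype_card, Fintype.card_coe]
  have hsplit : MM G f i j = Q.card + ((Finset.univ : Finset (V × V)).filter
        (fun p => (B G p.1 p.2 = true ∧ sp G a b p.1 p.2) ∧ f p.1 = i ∧ f p.2 = j)).card := by
    unfold MM
    rw [← Finset.card_union_of_disjoint]
    · congr 1
      ext p
      simp only [hQ, hbad, Finset.mem_union, Finset.mem_filter, Finset.mem_univ, true_and]
      tauto
    · rw [Finset.disjoint_left]
      intro p h1 h2
      simp only [hQ, hbad, Finset.mem_filter, Finset.mem_univ, true_and] at h1 h2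
      tauto
  omega

/-- the special pairs attached to a coloured triangle -/
def SP (G : SimpleGraph V) (f : V → Fin 3) (A : Fin 3 → V) (p : V × V) : Prop :=
  sp G (A (f p.1)) (A (f p.2)) p.1 p.2

noncomputable instance (G : SimpleGraph V) (f : V → Fin 3) (A : Fin 3 → V) :
    DecidablePred (SP G f A) := fun _ => Classical.propDecidable _

theorem tri_bound (G : SimpleGraph V) (f : V → Fin 3) (hf : ∀ u v, B G u v = true → f u ≠ f v)
    (hc : ∀ i j : Fin 3, i ≠ j → (G.induce {v | f v = i ∨ f v = j}).Connected)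
    (A : Fin 3 → V) (hA : ∀ i, f (A i) = i) (hAB : ∀ i j, i ≠ j → B G (A i) (A j) = true) :
    (((Finset.univ : Finset (V × V)).filter
      (fun p => B G p.1 p.2 = true ∧ SP G f A p)).card : ℤ) ≤
      2 * (EE G - 2 * Fintype.card V + 3) := by
  have h1 := sum_fib G f hf (SP G f A)
  have h2 := sum_fib G f hf (fun _ => True)
  have hE := two_EE G
  have hN := sum_NN f
  have key : ∀ i j : Fin 3, i ≠ j → ((Finset.univ : Finset (V × V)).filter
        (fun p => (B G p.1 p.2 = true ∧ SP G f A p) ∧ f p.1 = i ∧ f p.2 = j)).card +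
      NN f i + NN f j ≤ ((Finset.univ : Finset (V × V)).filter
        (fun p => (B G p.1 p.2 = true ∧ True) ∧ f p.1 = i ∧ f p.2 = j)).card + 1 := by
    intro i j hij
    have h3 := null_bound G f hf hij (hc i j hij) (hA i) (hA j) (hAB i j hij)
    have e1 : ((Finset.univ : Finset (V × V)).filter
        (fun p => (B G p.1 p.2 = true ∧ SP G f A p) ∧ f p.1 = i ∧ f p.2 = j)) =
        ((Finset.univ : Finset (V × V)).filter
        (fun p => (B G p.1 p.2 = true ∧ sp G (A i) (A j) p.1 p.2) ∧ f p.1 = i ∧ f p.2 = j)) := by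
      ext p
      simp only [Finset.mem_filter, Finset.mem_univ, true_and, SP]
      constructor
      · rintro ⟨⟨g1, g2⟩, g3, g4⟩
        rw [g3, g4] at g2
        exact ⟨⟨g1, g2⟩, g3, g4⟩
      · rintro ⟨⟨g1, g2⟩, g3, g4⟩
        refine ⟨⟨g1, ?_⟩, g3, g4⟩
        rw [g3, g4]
        exact g2
    have e2 : ((Finset.univ : Finset (V × V)).filter
        (fun p => (B G p.1 p.2 = true ∧ True) ∧ f p.1 = i ∧ f p.2 = j)).card = MM G f i j := by
      unfold MM
      congr 1
      ext p
      simp only [Finset.mem_filter, Finset.mem_univ, true_and, and_true]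
    rw [e1, e2]
    exact h3
  have k1 := key 0 1 (by decide)
  have k2 := key 1 0 (by decide)
  have k3 := key 0 2 (by decide)
  have k4 := key 2 0 (by decide)
  have k5 := key 1 2 (by decide)
  have k6 := key 2 1 (by decide)
  have e3 : ((Finset.univ : Finset (V × V)).filter (fun p => B G p.1 p.2 = true)).card =
      ((Finset.univ : Finset (V × V)).filter (fun p => B G p.1 p.2 = true ∧ True)).card := by
    congr 1
    ext p
    simp
  rw [e3] at hE
  omega

theorem tri_rep (G : SimpleGraph V) (f : V → Fin 3) (hf : ∀ u v, B G u v = true → f u ≠ f v)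
    {W : Finset V} (hW : W ∈ (Finset.univ : Finset V).powersetCard 3) (ht : ft G W ≠ 0) :
    ft G W = 1 ∧ ∃ A : Fin 3 → V, (∀ i, f (A i) = i) ∧ (∀ i j, i ≠ j → B G (A i) (A j) = true) ∧
      ∀ i j k : Fin 3, i ≠ j → i ≠ k → j ≠ k → W = {A i, A j, A k} := by
  obtain ⟨a, b, c, hab, hac, hbc, -, -, -, rfl⟩ := triple_of hW
  have h1 : B G a b = true ∧ B G a c = true ∧ B G b c = true := by
    rw [ft_three G hab hac hbc] at ht
    revert ht
    cases B G a b <;> cases B G a c <;> cases B G b c <;> simp
  obtain ⟨h1, h2, h3⟩ := h1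
  refine ⟨?_, ?_⟩
  · rw [ft_three G hab hac hbc, h1, h2, h3]; simp
  have adj : ∀ u ∈ ({a, b, c} : Finset V), ∀ v ∈ ({a, b, c} : Finset V), u ≠ v →
      B G u v = true := by
    intro u hu v hv huv
    simp only [Finset.mem_insert, Finset.mem_singleton] at hu hv
    rcases hu with rfl | rfl | rfl <;> rcases hv with rfl | rfl | rfl <;>
      first
        | exact absurd rfl huv
        | assumption
        | (rw [B_comm]; assumption)
  have inj : Set.InjOn f (({a, b, c} : Finset V) : Set V) := by
    intro u hu v hv huv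
    by_contra hne
    exact hf u v (adj u hu v hv hne) huv
  have himg : ({a, b, c} : Finset V).image f = Finset.univ := by
    apply Finset.eq_univ_of_card
    rw [Finset.card_image_of_injOn inj, Fintype.card_fin]
    exact (Finset.mem_powersetCard.1 hW).2
  have hex : ∀ i : Fin 3, ∃ v ∈ ({a, b, c} : Finset V), f v = i := by
    intro i
    have : i ∈ ({a, b, c} : Finset V).image f := by rw [himg]; exact Finset.mem_univ i
    exact Finset.mem_image.1 this
  choose A hA hAf using hex
  have hne : ∀ i j : Fin 3, i ≠ j → A i ≠ A j := by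
    intro i j hij h
    exact hij (by rw [← hAf i, ← hAf j, h])
  refine ⟨A, hAf, fun i j hij => adj _ (hA i) _ (hA j) (hne i j hij), ?_⟩
  intro i j k hij hik hjk
  symm
  apply Finset.eq_of_subset_of_card_le
  · intro v hv
    simp only [Finset.mem_insert, Finset.mem_singleton] at hv
    rcases hv with rfl | rfl | rfl
    · exact hA i
    · exact hA j
    · exact hA k
  · rw [(Finset.mem_powersetCard.1 hW).2, Finset.card_eq_three.2
      ⟨A i, A j, A k, hne i j hij, hne i k hik, hne j k hjk, rfl⟩]

theorem bool_sp : ∀ xb xc ya yc : Bool,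
    (s5 true false xb xc ya false yc true true true = 2 ∨
      s5 true false xb xc ya false yc true true true = 3) → ya = true ∧ xb = true := by
  decide +kernel

/-- weight of a pair and a triangle -/
noncomputable def hh (G : SimpleGraph V) (x y : V) (W : Finset V) : ℤ :=
  if B G x y = true ∧ ft G W ≠ 0 ∧
    (fs G (insert x (insert y W)) = 2 ∨ fs G (insert x (insert y W)) = 3) then 1 else 0

theorem bool_kp : ∀ ab ac ad ae bc bd be cd ce de : Bool,
    kp (s5 ab ac ad ae bc bd be cd ce de) =
      if (s5 ab ac ad ae bc bd be cd ce de = 2 ∨ s5 ab ac ad ae bc bd be cd ce de = 3) then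
      2 * (((ab && cd && ce && de).toNat : ℤ) + ((ac && bd && be && de).toNat : ℤ) +
        ((ad && bc && be && ce).toNat : ℤ) + ((ae && bc && bd && cd).toNat : ℤ) +
        ((bc && ad && ae && de).toNat : ℤ) + ((bd && ac && ae && ce).toNat : ℤ) +
        ((be && ac && ad && cd).toNat : ℤ) + ((cd && ab && ae && be).toNat : ℤ) +
        ((ce && ab && ad && bd).toNat : ℤ) + ((de && ab && ac && bc).toNat : ℤ)) else 0 := by
  decide +kernel


theorem sum_er4 {M : Type*} [AddCommMonoid M] (F : V → Finset V → M) {a b c d : V} (ab : a ≠ b)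
    (ac : a ≠ c) (ad : a ≠ d) (bc : b ≠ c) (bd : b ≠ d) (cd : c ≠ d) :
    ∑ x ∈ ({a, b, c, d} : Finset V), F x (({a, b, c, d} : Finset V).erase x) =
      F a {b, c, d} + (F b {a, c, d} + (F c {a, b, d} + F d {a, b, c})) := by
  have e1 : ({a, b, c, d} : Finset V).erase a = {b, c, d} := by
    ext v; simp only [Finset.mem_erase, Finset.mem_insert, Finset.mem_singleton]; grind
  have e2 : ({a, b, c, d} : Finset V).erase b = {a, c, d} := by
    ext v; simp only [Finset.mem_erase, Finset.mem_insert, Finset.mem_singleton]; grind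
  have e3 : ({a, b, c, d} : Finset V).erase c = {a, b, d} := by
    ext v; simp only [Finset.mem_erase, Finset.mem_insert, Finset.mem_singleton]; grind
  have e4 : ({a, b, c, d} : Finset V).erase d = {a, b, c} := by
    ext v; simp only [Finset.mem_erase, Finset.mem_insert, Finset.mem_singleton]; grind
  rw [Finset.sum_insert, Finset.sum_insert, Finset.sum_insert, Finset.sum_singleton, e1, e2, e3, e4]
  · simpa using cd
  · simpa using ⟨bc, bd⟩
  · simpa using ⟨ab, ac, ad⟩

theorem sum_er5 {M : Type*} [AddCommMonoid M] (F : V → Finset V → M) {a b c d e : V} (ab : a ≠ b)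
    (ac : a ≠ c) (ad : a ≠ d) (ae : a ≠ e) (bc : b ≠ c) (bd : b ≠ d) (be : b ≠ e) (cd : c ≠ d)
    (ce : c ≠ e) (de : d ≠ e) :
    ∑ x ∈ ({a, b, c, d, e} : Finset V), F x (({a, b, c, d, e} : Finset V).erase x) =
      F a {b, c, d, e} + (F b {a, c, d, e} + (F c {a, b, d, e} + (F d {a, b, c, e} +
      F e {a, b, c, d}))) := by
  have e1 : ({a, b, c, d, e} : Finset V).erase a = {b, c, d, e} := by
    ext v; simp only [Finset.mem_erase, Finset.mem_insert, Finset.mem_singleton]; grind
  have e2 : ({a, b, c, d, e} : Finset V).erase b = {a, c, d, e} := by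
    ext v; simp only [Finset.mem_erase, Finset.mem_insert, Finset.mem_singleton]; grind
  have e3 : ({a, b, c, d, e} : Finset V).erase c = {a, b, d, e} := by
    ext v; simp only [Finset.mem_erase, Finset.mem_insert, Finset.mem_singleton]; grind
  have e4 : ({a, b, c, d, e} : Finset V).erase d = {a, b, c, e} := by
    ext v; simp only [Finset.mem_erase, Finset.mem_insert, Finset.mem_singleton]; grind
  have e5 : ({a, b, c, d, e} : Finset V).erase e = {a, b, c, d} := by
    ext v; simp only [Finset.mem_erase, Finset.mem_insert, Finset.mem_singleton]; grind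
  rw [Finset.sum_insert, Finset.sum_insert, Finset.sum_insert, Finset.sum_insert,
    Finset.sum_singleton, e1, e2, e3, e4, e5]
  · simpa using de
  · simpa using ⟨cd, ce⟩
  · simpa using ⟨bc, bd, be⟩
  · simpa using ⟨ab, ac, ad, ae⟩

theorem five_of {s W : Finset V} (h : W ∈ s.powersetCard 5) :
    ∃ a b c d e, a ≠ b ∧ a ≠ c ∧ a ≠ d ∧ a ≠ e ∧ b ≠ c ∧ b ≠ d ∧ b ≠ e ∧ c ≠ d ∧ c ≠ e ∧ d ≠ e ∧
      W = {a, b, c, d, e} := by
  obtain ⟨h1, h2⟩ := Finset.mem_powersetCard.1 h
  obtain ⟨a, t, ha, rfl, ht⟩ := Finset.card_eq_succ.1 h2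
  obtain ⟨b, t', hb, rfl, ht'⟩ := Finset.card_eq_succ.1 ht
  obtain ⟨c, d, e, hcd, hce, hde, rfl⟩ := Finset.card_eq_three.1 ht'
  simp only [Finset.mem_insert, Finset.mem_singleton, not_or] at ha hb
  exact ⟨a, b, c, d, e, ha.1, ha.2.1, ha.2.2.1, ha.2.2.2, hb.1, hb.2.1, hb.2.2, hcd, hce, hde, rfl⟩


theorem hh_eval (G : SimpleGraph V) (W : Finset V) (x : V) (hx : x ∈ W) (y : V)
    (hy : y ∈ W.erase x) : hh G x y ((W.erase x).erase y) =
      if (fs G W = 2 ∨ fs G W = 3) then
        (if B G x y = true ∧ ft G ((W.erase x).erase y) ≠ 0 then 1 else 0) else 0 := by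
  unfold hh
  rw [Finset.insert_erase hy, Finset.insert_erase hx]
  by_cases h : fs G W = 2 ∨ fs G W = 3
  · rw [if_pos h]
    simp [h]
  · rw [if_neg h, if_neg]
    rintro ⟨-, -, h'⟩
    exact h h'

theorem g_eval (G : SimpleGraph V) {x y u v w : V} (uv : u ≠ v) (uw : u ≠ w) (vw : v ≠ w) :
    (if B G x y = true ∧ ft G {u, v, w} ≠ 0 then 1 else 0 : ℤ) =
      ((B G x y && B G u v && B G u w && B G v w).toNat : ℤ) := by
  rw [ft_three G uv uw vw]
  cases B G x y <;> cases B G u v <;> cases B G u w <;> cases B G v w <;> simp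

theorem kp_sum (G : SimpleGraph V) {W : Finset V}
    (hW : W ∈ (Finset.univ : Finset V).powersetCard 5) :
    kp (fs G W) = ∑ x ∈ W, ∑ y ∈ W.erase x, hh G x y ((W.erase x).erase y) := by
  have h1 : ∑ x ∈ W, ∑ y ∈ W.erase x, hh G x y ((W.erase x).erase y) =
      if (fs G W = 2 ∨ fs G W = 3) then ∑ x ∈ W, ∑ y ∈ W.erase x,
        (if B G x y = true ∧ ft G ((W.erase x).erase y) ≠ 0 then 1 else 0 : ℤ) else 0 := by
    by_cases h : fs G W = 2 ∨ fs G W = 3
    · rw [if_pos h]
      refine Finset.sum_congr rfl fun x hx => Finset.sum_congr rfl fun y hy => ?_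
      rw [hh_eval G W x hx y hy, if_pos h]
    · rw [if_neg h]
      refine Finset.sum_eq_zero fun x hx => Finset.sum_eq_zero fun y hy => ?_
      rw [hh_eval G W x hx y hy, if_neg h]
  rw [h1]
  obtain ⟨a, b, c, d, e, ab, ac, ad, ae, bc, bd, be, cd, ce, de, rfl⟩ := five_of hW
  rw [sum_er5 (fun x S => ∑ y ∈ S, (if B G x y = true ∧ ft G (S.erase y) ≠ 0 then 1 else 0 : ℤ))
    ab ac ad ae bc bd be cd ce de]
  rw [sum_er4 (fun y S => (if B G a y = true ∧ ft G S ≠ 0 then 1 else 0 : ℤ)) bc bd be cd ce de,
    sum_er4 (fun y S => (if B G b y = true ∧ ft G S ≠ 0 then 1 else 0 : ℤ)) ac ad ae cd ce de,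
    sum_er4 (fun y S => (if B G c y = true ∧ ft G S ≠ 0 then 1 else 0 : ℤ)) ab ad ae bd be de,
    sum_er4 (fun y S => (if B G d y = true ∧ ft G S ≠ 0 then 1 else 0 : ℤ)) ab ac ae bc be ce,
    sum_er4 (fun y S => (if B G e y = true ∧ ft G S ≠ 0 then 1 else 0 : ℤ)) ab ac ad bc bd cd]
  rw [g_eval G ab ac bc, g_eval G ab ac bc, g_eval G ab ad bd, g_eval G ab ad bd,
    g_eval G ab ae be, g_eval G ab ae be, g_eval G ac ad cd, g_eval G ac ad cd,
    g_eval G ac ae ce, g_eval G ac ae ce, g_eval G ad ae de, g_eval G ad ae de,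
    g_eval G bc bd cd, g_eval G bc bd cd, g_eval G bc be ce, g_eval G bc be ce,
    g_eval G bd be de, g_eval G bd be de, g_eval G cd ce de, g_eval G cd ce de]
  rw [fs_five G ab ac ad ae bc bd be cd ce de, bool_kp]
  rw [B_comm G b a, B_comm G c a, B_comm G c b, B_comm G d a, B_comm G d b, B_comm G d c,
    B_comm G e a, B_comm G e b, B_comm G e c, B_comm G e d]
  congr 1
  ring

theorem hh_le (G : SimpleGraph V) (f : V → Fin 3) (hf : ∀ u v, B G u v = true → f u ≠ f v)
    (A : Fin 3 → V) (hA : ∀ i, f (A i) = i) (hAB : ∀ i j, i ≠ j → B G (A i) (A j) = true)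
    {W : Finset V} (hW : ∀ i j k : Fin 3, i ≠ j → i ≠ k → j ≠ k → W = {A i, A j, A k})
    (x y : V) (hx : x ∉ W) (hy : y ∉ W) (hxy : x ≠ y) (h : hh G x y W ≠ 0) :
    B G x y = true ∧ SP G f A (x, y) := by
  unfold hh at h
  split_ifs at h with h1
  · obtain ⟨h1, -, h2⟩ := h1
    refine ⟨h1, ?_⟩
    have hne : f x ≠ f y := hf x y h1
    obtain ⟨k, hik, hjk⟩ : ∃ k : Fin 3, f x ≠ k ∧ f y ≠ k := by
      generalize f x = i
      generalize f y = j
      revert i j
      decide
    have hWe := hW (f x) (f y) k hne hik hjk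
    set a := A (f x) with ha
    set b := A (f y) with hb
    set c := A k with hc
    have hnA : ∀ i j : Fin 3, i ≠ j → A i ≠ A j := by
      intro i j hij h
      exact hij (by rw [← hA i, ← hA j, h])
    have xa : x ≠ a := fun h => hx (by rw [hWe, h]; simp)
    have xb : x ≠ b := fun h => hx (by rw [hWe, h]; simp)
    have xc : x ≠ c := fun h => hx (by rw [hWe, h]; simp)
    have ya : y ≠ a := fun h => hy (by rw [hWe, h]; simp)
    have yb : y ≠ b := fun h => hy (by rw [hWe, h]; simp)
    have yc : y ≠ c := fun h => hy (by rw [hWe, h]; simp)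
    have ab : a ≠ b := hnA _ _ hne
    have ac : a ≠ c := hnA _ _ hik
    have bc : b ≠ c := hnA _ _ hjk
    rw [hWe, fs_five G hxy xa xb xc ya yb yc ab ac bc, h1, hAB _ _ hne, hAB _ _ hik,
      hAB _ _ hjk] at h2
    have e1 : B G x a = false := by
      rw [← Bool.not_eq_true]
      intro h3
      exact hf x a h3 (hA _).symm
    have e2 : B G y b = false := by
      rw [← Bool.not_eq_true]
      intro h3
      exact hf y b h3 (hA _).symm
    rw [e1, e2] at h2
    obtain ⟨g1, g2⟩ := bool_sp _ _ _ _ h2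
    exact ⟨xa, yb, (B_comm G a y).trans g1, (B_comm G b x).trans g2⟩
  · exact absurd rfl h

theorem sum_kp (G : SimpleGraph V) (f : V → Fin 3) (hf : ∀ u v, B G u v = true → f u ≠ f v)
    (hc : ∀ i j : Fin 3, i ≠ j → (G.induce {v | f v = i ∨ f v = j}).Connected) :
    ∑ W ∈ (Finset.univ : Finset V).powersetCard 5, kp (fs G W) ≤
      TT G * (2 * (EE G - 2 * Fintype.card V + 3)) := by
  have h1 : ∑ W ∈ (Finset.univ : Finset V).powersetCard 5, kp (fs G W) =
      ∑ W ∈ (Finset.univ : Finset V).powersetCard (4 + 1), ∑ x ∈ W, ∑ y ∈ W.erase x,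
        hh G x y ((W.erase x).erase y) :=
    Finset.sum_congr rfl fun W hW => kp_sum G hW
  rw [h1, sum_pc_erase Finset.univ 4 (fun x S => ∑ y ∈ S, hh G x y (S.erase y))]
  have h2 : ∑ S ∈ (Finset.univ : Finset V).powersetCard 4, ∑ x ∈ Finset.univ \ S,
      ∑ y ∈ S, hh G x y (S.erase y) = ∑ S ∈ (Finset.univ : Finset V).powersetCard (3 + 1),
      ∑ y ∈ S, ∑ x ∈ Finset.univ \ (insert y (S.erase y)), hh G x y (S.erase y) := by
    refine Finset.sum_congr rfl fun S _ => ?_
    rw [Finset.sum_comm]
    refine Finset.sum_congr rfl fun y hy => ?_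
    rw [Finset.insert_erase hy]
  rw [h2, sum_pc_erase Finset.univ 3 (fun y T => ∑ x ∈ Finset.univ \ (insert y T), hh G x y T)]
  unfold TT
  rw [Finset.sum_mul]
  refine Finset.sum_le_sum fun T hT => ?_
  by_cases ht : ft G T = 0
  · rw [ht, zero_mul]
    refine le_of_eq (Finset.sum_eq_zero fun y _ => Finset.sum_eq_zero fun x _ => ?_)
    unfold hh
    rw [if_neg]
    rintro ⟨-, h, -⟩
    exact h ht
  · obtain ⟨h3, A, hA, hAB, hW⟩ := tri_rep G f hf hT ht
    rw [h3, one_mul]
    refine le_trans ?_ (tri_bound G f hf hc A hA hAB)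
    rw [← Finset.sum_boole, ← Finset.univ_product_univ, Finset.sum_product_right]
    refine le_trans ?_ (Finset.sum_le_sum_of_subset_of_nonneg (s := Finset.univ \ T) (by simp) ?_)
    · refine Finset.sum_le_sum fun y hy => ?_
      refine le_trans ?_ (Finset.sum_le_sum_of_subset_of_nonneg
        (s := Finset.univ \ (insert y T)) (by simp) ?_)
      · refine Finset.sum_le_sum fun x hx => ?_
        simp only [Finset.mem_sdiff, Finset.mem_univ, true_and, Finset.mem_insert, not_or] at hx hy
        by_cases h4 : hh G x y T = 0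
        · rw [h4]
          split_ifs <;> norm_num
        · have h5 := hh_le G f hf A hA hAB hW x y hx.2 hy hx.1 h4
          rw [if_pos h5]
          unfold hh
          split_ifs <;> norm_num
      · intro x _ _
        split_ifs <;> norm_num
    · intro y _ _
      exact Finset.sum_nonneg fun x _ => by split_ifs <;> norm_num

/-- the defect of a 5-set -/
noncomputable def BB (G : SimpleGraph V) (W : Finset V) : ℤ :=
  ∑ a ∈ W, fj G (W.erase a) + kp (fs G W) - 3 * fs G W

theorem BB_five (G : SimpleGraph V) {a b c d e : V} (ab : a ≠ b) (ac : a ≠ c) (ad : a ≠ d)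
    (ae : a ≠ e) (bc : b ≠ c) (bd : b ≠ d) (be : b ≠ e) (cd : c ≠ d) (ce : c ≠ e) (de : d ≠ e) :
    BB G {a, b, c, d, e} = bad5 (B G a b) (B G a c) (B G a d) (B G a e) (B G b c) (B G b d)
      (B G b e) (B G c d) (B G c e) (B G d e) := by
  unfold BB bad5
  rw [sum_er5 (fun _ S => fj G S) ab ac ad ae bc bd be cd ce de,
    fj_four G bc bd be cd ce de, fj_four G ac ad ae cd ce de, fj_four G ab ad ae bd be de,
    fj_four G ab ac ae bc be ce, fj_four G ab ac ad bc bd cd,
    fs_five G ab ac ad ae bc bd be cd ce de]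
  ring

theorem BB_nonneg (G : SimpleGraph V) (hK : KF G) {W : Finset V}
    (hW : W ∈ (Finset.univ : Finset V).powersetCard 5) : 0 ≤ BB G W := by
  obtain ⟨a, b, c, d, e, ab, ac, ad, ae, bc, bd, be, cd, ce, de, rfl⟩ := five_of hW
  rw [BB_five G ab ac ad ae bc bd be cd ce de]
  exact bool_bad _ _ _ _ _ _ _ _ _ _ (hK a b c d) (hK a b c e) (hK a b d e) (hK a c d e)
    (hK b c d e)

theorem sum_BB (G : SimpleGraph V) :
    ∑ W ∈ (Finset.univ : Finset V).powersetCard 5, BB G W =
      ((Fintype.card V : ℤ) - 4) * JJ G +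
      ∑ W ∈ (Finset.univ : Finset V).powersetCard 5, kp (fs G W) - 3 * SS G := by
  unfold BB
  rw [Finset.sum_sub_distrib, Finset.sum_add_distrib, ← Finset.mul_sum]
  have h := sum_pc_erase_const (Finset.univ : Finset V) 4 (fj G)
  rw [Finset.card_univ] at h
  have h' : ∑ W ∈ (Finset.univ : Finset V).powersetCard 5, ∑ a ∈ W, fj G (W.erase a) =
      ((Fintype.card V : ℤ) - 4) * JJ G := by
    unfold JJ
    exact_mod_cast h
  rw [h']
  rfl

/-- The local conclusion. -/
theorem diag_of (G : SimpleGraph V) (f : V → Fin 3) (hf : ∀ u v, B G u v = true → f u ≠ f v)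
    (hc : ∀ i j : Fin 3, i ≠ j → (G.induce {v | f v = i ∨ f v = j}).Connected)
    (h4 : 4 * JJ G = TT G * (EE G - 2 * Fintype.card V + 3))
    (h5 : 3 * SS G = ((Fintype.card V : ℤ) + 4) * JJ G)
    {a b c d e : V} (ab : B G a b = true) (bc : B G b c = true) (cd : B G c d = true)
    (ad : B G a d = true) (ac : B G a c = false) (bd : B G b d = false)
    (nac : a ≠ c) (nbd : b ≠ d) (nae : a ≠ e) (nbe : b ≠ e) (nce : c ≠ e) (nde : d ≠ e) :
    (B G a e = true ∧ B G c e = true) ∨ (B G b e = true ∧ B G d e = true) := by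
  have hK : KF G := kf_of_three f hf
  have h1 := sum_BB G
  have h2 := sum_kp G f hf hc
  have h3 : ∑ W ∈ (Finset.univ : Finset V).powersetCard 5, BB G W ≤ 0 := by
    rw [h1]
    linarith
  have h6 : ∑ W ∈ (Finset.univ : Finset V).powersetCard 5, BB G W = 0 :=
    le_antisymm h3 (Finset.sum_nonneg fun W hW => BB_nonneg G hK hW)
  rw [Finset.sum_eq_zero_iff_of_nonneg (fun W hW => BB_nonneg G hK hW)] at h6
  have ne : ∀ {u v : V}, B G u v = true → u ≠ v := by
    rintro u v h rfl
    rw [B_self] at h
    exact absurd h (by simp)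
  have h7 := h6 {a, b, c, d, e} (by
    rw [Finset.mem_powersetCard]
    refine ⟨Finset.subset_univ _, ?_⟩
    rw [Finset.card_insert_of_notMem, Finset.card_insert_of_notMem, Finset.card_eq_three.2
      ⟨c, d, e, ne cd, nce, nde, rfl⟩]
    · simpa using ⟨ne bc, nbd, nbe⟩
    · simpa using ⟨ne ab, nac, ne ad, nae⟩)
  rw [BB_five G (ne ab) nac (ne ad) nae (ne bc) nbd nbe (ne cd) nce nde, ab, ac, ad, bc, bd,
    cd] at h7
  have h8 := bool_diag _ _ _ _ h7
  simpa using h8

end Pool.Agent.Lib.MP_61e017_co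
end

section

set_option autoImplicit false
set_option linter.unusedSectionVars false

/-!
# The first five coefficients of the chromatic polynomial
-/

namespace Pool.Agent.Lib.MP_61e017_co

open Polynomial

variable {V : Type*} [Fintype V] [DecidableEq V]

/-- the proper colourings with `q` colours -/
noncomputable def col (G : SimpleGraph V) (q : ℕ) : Finset (V → Fin q) :=
  Finset.univ.filter (fun f => ∀ u v, B G u v = true → f u ≠ f v)

theorem mem_col {G : SimpleGraph V} {q : ℕ} {f : V → Fin q} :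
    f ∈ col G q ↔ ∀ u v, B G u v = true → f u ≠ f v := by
  unfold col
  simp

section tri

variable {H G m : SimpleGraph V} {x y : V}

theorem B_of (t : Tri H G m x y) (u v : V) (h : B G u v = true) : B H u v = true := by
  by_cases h1 : u = x ∧ v = y
  · rw [h1.1, h1.2]; exact t.Hxy
  · by_cases h2 : u = y ∧ v = x
    · rw [h2.1, h2.2, B_comm]; exact t.Hxy
    · rw [t.HG u v h1 h2]; exact h

theorem col_H (t : Tri H G m x y) (q : ℕ) :
    col H q = (col G q).filter (fun f => ¬ f x = f y) := by
  ext f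
  rw [Finset.mem_filter, mem_col, mem_col]
  constructor
  · intro h
    exact ⟨fun u v huv => h u v (B_of t u v huv), h x y t.Hxy⟩
  · rintro ⟨h1, h2⟩ u v huv
    by_cases h3 : u = x ∧ v = y
    · rw [h3.1, h3.2]; exact h2
    · by_cases h4 : u = y ∧ v = x
      · rw [h4.1, h4.2]; exact fun h => h2 h.symm
      · rw [t.HG u v h3 h4] at huv
        exact h1 u v huv

theorem col_m (t : Tri H G m x y) (q : ℕ) :
    (col m q).card = ((col G q).filter (fun f => f x = f y)).card * q := by
  have h0 : ((col G q).filter (fun f => f x = f y)).card * q =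
      (((col G q).filter (fun f => f x = f y)) ×ˢ (Finset.univ : Finset (Fin q))).card := by
    rw [Finset.card_product, Finset.card_univ, Fintype.card_fin]
  rw [h0]
  refine Finset.card_nbij' (fun f => (Function.update f y (f x), f y))
    (fun p => Function.update p.1 y p.2) ?_ ?_ ?_ ?_
  · intro f hf
    have hf' := mem_col.1 (Finset.mem_coe.1 hf)
    simp only [Finset.coe_product, Set.mem_prod, Finset.mem_coe, Finset.mem_filter,
      Finset.mem_univ, and_true, mem_col]
    refine ⟨?_, ?_⟩
    · intro u v huv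
      have hne : u ≠ v := by
        rintro rfl
        rw [B_self] at huv
        exact absurd huv (by simp)
      by_cases hu : u = y
      · subst hu
        have hvx : v ≠ x := by
          rintro rfl
          rw [B_comm, t.Gxy] at huv
          exact absurd huv (by simp)
        rw [Function.update_self, Function.update_of_ne hne.symm]
        apply hf'
        rw [t.mx v hne.symm, huv]
        simp
      · by_cases hv : v = y
        · subst hv
          have hux : u ≠ x := by
            rintro rfl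
            rw [t.Gxy] at huv
            exact absurd huv (by simp)
          rw [Function.update_self, Function.update_of_ne hne]
          apply Ne.symm
          apply hf'
          rw [t.mx u hne, B_comm G v u, huv]
          simp
        · rw [Function.update_of_ne hu, Function.update_of_ne hv]
          apply hf'
          by_cases hux : u = x
          · subst hux
            rw [t.mx v hv, huv]
            simp
          · by_cases hvx : v = x
            · subst hvx
              rw [B_comm, t.mx u hu, B_comm G v u, huv]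
              simp
            · rw [t.mG u v hux hu hvx hv]
              exact huv
    · rw [Function.update_self, Function.update_of_ne t.ne]
  · rintro ⟨g, c⟩ hg
    simp only [Finset.coe_product, Set.mem_prod, Finset.mem_coe, Finset.mem_filter,
      Finset.mem_univ, and_true, mem_col] at hg ⊢
    obtain ⟨hg1, hg2⟩ := hg
    intro u v huv
    have hu : u ≠ y := by
      rintro rfl
      rw [t.my] at huv
      exact absurd huv (by simp)
    have hv : v ≠ y := by
      rintro rfl
      rw [B_comm, t.my] at huv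
      exact absurd huv (by simp)
    rw [Function.update_of_ne hu, Function.update_of_ne hv]
    by_cases hux : u = x
    · subst hux
      rw [t.mx v hv, Bool.or_eq_true] at huv
      rcases huv with h | h
      · exact hg1 _ _ h
      · rw [hg2]; exact hg1 _ _ h
    · by_cases hvx : v = x
      · subst hvx
        rw [B_comm, t.mx u hu, Bool.or_eq_true] at huv
        rcases huv with h | h
        · exact (hg1 _ _ h).symm
        · rw [hg2]; exact (hg1 _ _ h).symm
      · rw [t.mG u v hux hu hvx hv] at huv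
        exact hg1 _ _ huv
  · intro f _
    simp
  · rintro ⟨g, c⟩ hg
    simp only [Finset.coe_product, Set.mem_prod, Finset.mem_coe, Finset.mem_filter,
      Finset.mem_univ, and_true] at hg
    obtain ⟨-, hg2⟩ := hg
    simp only [Function.update_idem, Function.update_self, Function.update_of_ne t.ne, hg2,
      Function.update_eq_self]

theorem col_rec (t : Tri H G m x y) (q : ℕ) :
    (col H q).card * q + (col m q).card = (col G q).card * q := by
  rw [col_m t q, col_H t q, ← add_mul]
  congr 1
  rw [add_comm]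
  exact Finset.card_filter_add_card_filter_not (s := col G q) (fun f => f x = f y)

theorem KF_G (t : Tri H G m x y) (h : KF H) : KF G := by
  intro a b c d
  by_contra hh
  rw [Bool.not_eq_false] at hh
  simp only [Bool.and_eq_true] at hh
  obtain ⟨⟨⟨⟨⟨h1, h2⟩, h3⟩, h4⟩, h5⟩, h6⟩ := hh
  have := h a b c d
  rw [B_of t _ _ h1, B_of t _ _ h2, B_of t _ _ h3, B_of t _ _ h4, B_of t _ _ h5,
    B_of t _ _ h6] at this
  exact absurd this (by simp)

end tri

/-- every edge gives a triple -/
theorem exists_tri (H : SimpleGraph V) (x y : V) (h : B H x y = true) :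
    ∃ G m : SimpleGraph V, Tri H G m x y := by
  have hxy : x ≠ y := by
    rintro rfl
    rw [B_self] at h
    exact absurd h (by simp)
  let G : SimpleGraph V :=
    { Adj := fun u v => H.Adj u v ∧ ¬ (u = x ∧ v = y) ∧ ¬ (u = y ∧ v = x)
      symm := ⟨fun u v h => ⟨h.1.symm, fun h' => h.2.2 ⟨h'.2, h'.1⟩,
        fun h' => h.2.1 ⟨h'.2, h'.1⟩⟩⟩
      loopless := ⟨fun u h => H.loopless.irrefl u h.1⟩ }
  let m : SimpleGraph V :=
    { Adj := fun u v => u ≠ v ∧ u ≠ y ∧ v ≠ y ∧
        (G.Adj u v ∨ (u = x ∧ G.Adj y v) ∨ (v = x ∧ G.Adj u y))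
      symm := ⟨fun u v h => ⟨h.1.symm, h.2.2.1, h.2.1, by
        rcases h.2.2.2 with h' | h' | h'
        · exact Or.inl h'.symm
        · exact Or.inr (Or.inr ⟨h'.1, h'.2.symm⟩)
        · exact Or.inr (Or.inl ⟨h'.1, h'.2.symm⟩)⟩⟩
      loopless := ⟨fun u h => h.1 rfl⟩ }
  refine ⟨G, m, hxy, h, ?_, ?_, ?_, ?_, ?_⟩
  · rw [B_eq_false]
    exact fun h' => h'.2.1 ⟨rfl, rfl⟩
  · intro u v h1 h2
    rw [Bool.eq_iff_iff, B_eq_true, B_eq_true]
    exact ⟨fun h' => ⟨h', h1, h2⟩, fun h' => h'.1⟩
  · intro v
    rw [B_eq_false]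
    exact fun h' => h'.2.1 rfl
  · intro v hv
    rw [Bool.eq_iff_iff, Bool.or_eq_true, B_eq_true, B_eq_true, B_eq_true]
    constructor
    · rintro ⟨h1, h2, h3, h4⟩
      rcases h4 with h4 | h4 | h4
      · exact Or.inl h4
      · exact Or.inr h4.2
      · exact absurd h4.1.symm h1
    · rintro (h4 | h4)
      · exact ⟨h4.ne, hxy, hv, Or.inl h4⟩
      · refine ⟨?_, hxy, hv, Or.inr (Or.inl ⟨rfl, h4⟩)⟩
        rintro rfl
        exact h4.2.2 ⟨rfl, rfl⟩
  · intro u v h1 h2 h3 h4
    rw [Bool.eq_iff_iff, B_eq_true, B_eq_true]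
    constructor
    · rintro ⟨-, -, -, h5⟩
      rcases h5 with h5 | h5 | h5
      · exact h5
      · exact absurd h5.1 h1
      · exact absurd h5.1 h3
    · intro h5
      exact ⟨h5.ne, h2, h4, Or.inl h5⟩

theorem fe_nonneg (G : SimpleGraph V) (W : Finset V) : 0 ≤ fe G W := by
  unfold fe; split_ifs <;> simp

theorem EE_nonneg (G : SimpleGraph V) : 0 ≤ EE G := Finset.sum_nonneg fun W _ => fe_nonneg G W

/-- second coefficient -/
def c2 (E T : ℚ) : ℚ := E * (E - 1) / 2 - T

/-- third coefficient -/
def c3 (E T J : ℚ) : ℚ := E * (E - 1) * (E - 2) / 6 - (E - 2) * T - J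

/-- fourth coefficient -/
def c4 (E T J S : ℚ) : ℚ := E * (E - 1) * (E - 2) * (E - 3) / 24 - (E - 2) * (E - 3) / 2 * T +
  T * (T - 1) / 2 - (E - 3) * J + S

/-- the chromatic polynomial, normalised and in the variable `1 / q` -/
theorem jets : ∀ (n : ℕ) (G : SimpleGraph V), EE G ≤ n → ∃ p : ℚ[X],
    (∀ q : ℕ, 1 ≤ q → ((col G q).card : ℚ) = (q : ℚ) ^ (Fintype.card V) * p.eval (1 / (q : ℚ))) ∧
    p.coeff 0 = 1 ∧ p.coeff 1 = - (EE G : ℚ) ∧ p.coeff 2 = c2 (EE G) (TT G) ∧
    p.coeff 3 = - c3 (EE G) (TT G) (JJ G) ∧ (KF G → p.coeff 4 = c4 (EE G) (TT G) (JJ G) (SS G)) := by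
  intro n
  induction n with
  | zero =>
    intro G hG
    have hE : EE G = 0 := le_antisymm (by exact_mod_cast hG) (EE_nonneg G)
    have hB : ∀ u v, B G u v = false := by
      intro u v
      by_cases huv : u = v
      · rw [huv]; exact B_self G v
      · have h1 : fe G {u, v} = 0 := by
          have := (Finset.sum_eq_zero_iff_of_nonneg (fun W _ => fe_nonneg G W)).1 hE {u, v} (by
            rw [Finset.mem_powersetCard]
            exact ⟨Finset.subset_univ _, Finset.card_pair huv⟩)
          exact this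
        rw [fe_two G huv] at h1
        cases h : B G u v
        · rfl
        · rw [h] at h1
          simp at h1
    have hp1 : ∀ W, p1 G W = 0 := by
      intro W
      unfold p1 dg
      simp [hB]
    refine ⟨1, ?_, ?_, ?_, ?_, ?_, ?_⟩
    · intro q _
      have : col G q = Finset.univ := by
        ext f
        rw [mem_col]
        simp [hB]
      rw [this, Finset.card_univ, Fintype.card_fun, Fintype.card_fin]
      simp
    · simp
    · rw [hE]
      simp [Polynomial.coeff_one]
    · have hT : TT G = 0 := Finset.sum_eq_zero fun W _ => by unfold ft; rw [hp1]; simp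
      rw [hE, hT]
      simp [Polynomial.coeff_one, c2]
    · have hT : TT G = 0 := Finset.sum_eq_zero fun W _ => by unfold ft; rw [hp1]; simp
      have hJ : JJ G = 0 := Finset.sum_eq_zero fun W _ => by unfold fj; rw [hp1]; simp
      rw [hE, hT, hJ]
      simp [Polynomial.coeff_one, c3]
    · intro _
      have hT : TT G = 0 := Finset.sum_eq_zero fun W _ => by unfold ft; rw [hp1]; simp
      have hJ : JJ G = 0 := Finset.sum_eq_zero fun W _ => by unfold fj; rw [hp1]; simp
      have hS : SS G = 0 := Finset.sum_eq_zero fun W _ => by unfold fs; rw [hp1]; simp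
      rw [hE, hT, hJ, hS]
      simp [Polynomial.coeff_one, c4]
  | succ n ih =>
    intro H hH
    by_cases hE : EE H ≤ n
    · exact ih H hE
    · have hpos : ∃ x y, B H x y = true := by
        by_contra hcon
        push Not at hcon
        apply hE
        have : EE H = 0 := by
          apply Finset.sum_eq_zero
          intro W hW
          obtain ⟨a, b, hab, -, -, rfl⟩ := pair_of hW
          rw [fe_two H hab]
          rw [Bool.eq_false_iff.2 (hcon a b)]
          rfl
        rw [this]
        exact_mod_cast Nat.zero_le n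
      obtain ⟨x, y, hxy⟩ := hpos
      obtain ⟨G, m, t⟩ := exists_tri H x y hxy
      have e1 := EE_H t
      have e2 := EE_m t
      have e3 := TT_H t
      have e4 := TT_m t
      have e5 := JJ_H t
      push_cast at hH
      have hG : EE G ≤ n := by linarith
      have hm : EE m ≤ n := by
        have : (0 : ℤ) ≤ CC G x y := by positivity
        linarith
      obtain ⟨p, hp, p0, p1', p2', p3', p4'⟩ := ih G hG
      obtain ⟨r, hr, r0, r1', r2', r3', -⟩ := ih m hm
      have E1 : (EE H : ℚ) = EE G + 1 := by rw [e1]; push_cast; ring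
      have E2 : (EE m : ℚ) = EE G - CC G x y := by rw [e2]; push_cast; ring
      have E3 : (TT H : ℚ) = TT G + CC G x y := by rw [e3]; push_cast; ring
      have E4 : (TT m : ℚ) = TT G + TA G m x y := by rw [e4]; push_cast; ring
      have E5 : (JJ H : ℚ) = JJ G + TA G m x y - (CC G x y : ℚ) * (CC G x y - 1) / 2 := by
        rw [e5]; push_cast; rw [choose_two_cast]
      refine ⟨p - X * r, ?_, ?_, ?_, ?_, ?_, ?_⟩
      · intro q hq
        have hq' : (q : ℚ) ≠ 0 := by
          have : 0 < q := hq
          positivity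
        have h1 := col_rec t q
        have h2 : ((col H q).card : ℚ) * q + (col m q).card = (col G q).card * q := by
          exact_mod_cast h1
        rw [hp q hq, hr q hq] at h2
        have h3 : ((col H q).card : ℚ) * q =
            (q : ℚ) ^ (Fintype.card V) * (p - X * r).eval (1 / (q : ℚ)) * q := by
          rw [Polynomial.eval_sub, Polynomial.eval_mul, Polynomial.eval_X]
          field_simp
          linarith
        exact mul_right_cancel₀ hq' h3
      · rw [Polynomial.coeff_sub, Polynomial.coeff_X_mul_zero, p0]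
        ring
      · rw [Polynomial.coeff_sub, Polynomial.coeff_X_mul, p1', r0, E1]
        ring
      · rw [Polynomial.coeff_sub, Polynomial.coeff_X_mul, p2', r1', E1, E2, E3]
        unfold c2
        ring
      · rw [Polynomial.coeff_sub, Polynomial.coeff_X_mul, p3', r2', E1, E2, E3, E4, E5]
        unfold c2 c3
        ring
      · intro hK
        have e6 := JJ_m_SS_H t hK
        have E6 : (SS H : ℚ) - SS G + JJ m - JJ G + (CC G x y : ℚ) * (CC G x y - 1) *
            (CC G x y - 2) / 6 + (CC G x y : ℚ) * (CC G x y - 1) / 2 -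
            (CC G x y : ℚ) * TA G m x y = 0 := by
          have h7 : (((SS H - SS G + JJ m - JJ G + (((CC G x y).choose 3 : ℕ) : ℤ) +
            (((CC G x y).choose 2 : ℕ) : ℤ) - (CC G x y : ℤ) * TA G m x y : ℤ)) : ℚ) = 0 := by
            rw [e6]; simp
          push_cast at h7
          rw [choose_two_cast, choose_three_cast] at h7
          exact h7
        rw [Polynomial.coeff_sub, Polynomial.coeff_X_mul, p4' (KF_G t hK), r3', E1, E2, E3, E4, E5]
        unfold c3 c4
        linear_combination -E6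

end Pool.Agent.Lib.MP_61e017_co
end
end
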