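import Pool.Agent.Lib.MP_61e017_co.Chrom

section

set_option autoImplicit false
set_option linter.unusedSectionVars false

/-!
# Graphs with equal chromatic polynomials have equal counts
-/

namespace Pool.Agent.Lib.MP_61e017_co

open Polynomial

variable {V V' : Type*} [Fintype V] [DecidableEq V] [Fintype V'] [DecidableEq V']

theorem card_eq_aux {a b : ℕ} {p r : ℚ[X]} (hab : a ≤ b) (p0 : p.coeff 0 = 1)
    (r0 : r.coeff 0 = 1)
    (h : ∀ q : ℕ, 1 ≤ q → (q : ℚ) ^ a * p.eval (1 / (q : ℚ)) = (q : ℚ) ^ b * r.eval (1 / (q : ℚ))) :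
    a = b ∧ p = r := by
  obtain ⟨k, rfl⟩ := Nat.exists_eq_add_of_le hab
  have key : X ^ k * p = r := by
    apply Polynomial.eq_of_infinite_eval_eq
    apply Set.infinite_of_injective_forall_mem (f := fun n : ℕ => 1 / ((n : ℚ) + 1))
    · intro m n hmn
      simp only [one_div, inv_inj, add_left_inj, Nat.cast_inj] at hmn
      exact hmn
    · intro n
      have h1 := h (n + 1) (by omega)
      push_cast at h1
      have hne : ((n : ℚ) + 1) ≠ 0 := by positivity
      rw [Set.mem_setOf_eq, Polynomial.eval_mul, Polynomial.eval_pow, Polynomial.eval_X]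
      rw [pow_add, mul_assoc] at h1
      have h2 := mul_left_cancel₀ (pow_ne_zero a hne) h1
      rw [h2, ← mul_assoc, ← mul_pow, one_div_mul_cancel hne, one_pow, one_mul]
  have hk : k = 0 := by
    by_contra hk
    have : r.coeff 0 = 0 := by
      rw [← key, Polynomial.coeff_X_pow_mul', if_neg (by omega)]
    rw [r0] at this
    exact one_ne_zero this
  subst hk
  simpa using key

theorem same_counts (G : SimpleGraph V) (G' : SimpleGraph V')
    (h : ∀ q : ℕ, 1 ≤ q → (col G q).card = (col G' q).card) :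
    Fintype.card V = Fintype.card V' ∧ EE G = EE G' ∧ TT G = TT G' ∧ JJ G = JJ G' ∧
      (KF G → KF G' → SS G = SS G') := by
  obtain ⟨p, hp, p0, p1, p2, p3, p4⟩ := jets (EE G).toNat G (Int.self_le_toNat _)
  obtain ⟨r, hr, r0, r1, r2, r3, r4⟩ := jets (EE G').toNat G' (Int.self_le_toNat _)
  have h1 : ∀ q : ℕ, 1 ≤ q → (q : ℚ) ^ (Fintype.card V) * p.eval (1 / (q : ℚ)) =
      (q : ℚ) ^ (Fintype.card V') * r.eval (1 / (q : ℚ)) := by
    intro q hq
    rw [← hp q hq, ← hr q hq, h q hq]
  have h2 : Fintype.card V = Fintype.card V' ∧ p = r := by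
    rcases le_total (Fintype.card V) (Fintype.card V') with hle | hle
    · exact card_eq_aux hle p0 r0 h1
    · obtain ⟨h3, h4⟩ := card_eq_aux hle r0 p0 (fun q hq => (h1 q hq).symm)
      exact ⟨h3.symm, h4.symm⟩
  obtain ⟨h3, rfl⟩ := h2
  have hE : (EE G : ℚ) = EE G' := by
    have := p1.symm.trans r1
    linarith
  have hT : (TT G : ℚ) = TT G' := by
    have := p2.symm.trans r2
    rw [hE] at this
    unfold c2 at this
    linarith
  have hJ : (JJ G : ℚ) = JJ G' := by
    have := p3.symm.trans r3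
    rw [hE, hT] at this
    unfold c3 at this
    linarith
  refine ⟨h3, by exact_mod_cast hE, by exact_mod_cast hT, by exact_mod_cast hJ, ?_⟩
  intro k1 k2
  have := (p4 k1).symm.trans (r4 k2)
  rw [hE, hT, hJ] at this
  unfold c4 at this
  have hS : (SS G : ℚ) = SS G' := by linarith
  exact_mod_cast hS

end Pool.Agent.Lib.MP_61e017_co
end

section

set_option autoImplicit false
set_option linter.unusedSectionVars false

/-!
# Uniquely 3-colourable graphs
-/

namespace Pool.Agent.Lib.MP_61e017_co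

variable {V : Type*} [Fintype V] [DecidableEq V]

theorem card_coloring (G : SimpleGraph V) (q : ℕ) : Nat.card (G.Coloring (Fin q)) = (col G q).card := by
  rw [← Fintype.card_coe, ← Nat.card_eq_fintype_card]
  refine Nat.card_congr
    { toFun := fun c => ⟨fun v => c v, mem_col.2 fun u v h => c.valid ((B_eq_true G u v).1 h)⟩
      invFun := fun f => SimpleGraph.Coloring.mk f.1
        (fun {u v} h => mem_col.1 f.2 u v ((B_eq_true G u v).2 h))
      left_inv := fun c => by ext v; rfl
      right_inv := fun f => by ext v; rfl }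

theorem comp_mem {G : SimpleGraph V} {q : ℕ} {f : V → Fin q} (hf : f ∈ col G q)
    (s : Equiv.Perm (Fin q)) : (fun v => s (f v)) ∈ col G q := by
  rw [mem_col] at hf ⊢
  intro u v h h'
  exact hf u v h (s.injective h')

theorem surj_of {G : SimpleGraph V} (h2 : (col G 2).card = 0) {f : V → Fin 3}
    (hf : f ∈ col G 3) : Function.Surjective f := by
  rw [mem_col] at hf
  intro k
  by_contra h
  push Not at h
  rw [Finset.card_eq_zero] at h2
  have hg : (fun v => (finSuccAboveEquiv k).symm ⟨f v, h v⟩ : V → Fin 2) ∈ col G 2 := by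
    rw [mem_col]
    intro u v huv h'
    have := (finSuccAboveEquiv k).symm.injective h'
    exact hf u v huv (Subtype.ext_iff.1 this)
  rw [h2] at hg
  exact absurd hg (Finset.notMem_empty _)

theorem unique_of {G : SimpleGraph V} (h2 : (col G 2).card = 0) (h3 : (col G 3).card = 6)
    {f : V → Fin 3} (hf : f ∈ col G 3) {g : V → Fin 3} (hg : g ∈ col G 3) :
    ∃ s : Equiv.Perm (Fin 3), ∀ v, g v = s (f v) := by
  classical
  have hsurj := surj_of h2 hf
  set T : Finset (V → Fin 3) :=
    (Finset.univ : Finset (Equiv.Perm (Fin 3))).image (fun s v => s (f v)) with hT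
  have hTc : T.card = 6 := by
    rw [hT, Finset.card_image_of_injective, Finset.card_univ, Fintype.card_perm, Fintype.card_fin]
    · rfl
    · intro s t hst
      ext k
      obtain ⟨v, rfl⟩ := hsurj k
      have := congrFun hst v
      simp only at this
      rw [this]
  have hTs : T ⊆ col G 3 := by
    intro g hg
    obtain ⟨s, -, rfl⟩ := Finset.mem_image.1 hg
    exact comp_mem hf s
  have hTe : T = col G 3 := Finset.eq_of_subset_of_card_le hTs (by rw [hTc, h3])
  rw [← hTe] at hg
  obtain ⟨s, -, rfl⟩ := Finset.mem_image.1 hg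
  exact ⟨s, fun v => rfl⟩

theorem perm_fix (s : Equiv.Perm (Fin 3)) (i j k : Fin 3) (hij : i ≠ j) (hik : i ≠ k) (hjk : j ≠ k)
    (hk : s k = k) (hj : s j = j) : s i = i := by
  by_contra h
  have h1 : s i ≠ j := fun h' => hij (s.injective (h'.trans hj.symm))
  have h2 : s i ≠ k := fun h' => hik (s.injective (h'.trans hk.symm))
  omega

theorem connected_of {G : SimpleGraph V} (h2 : (col G 2).card = 0) (h3 : (col G 3).card = 6)
    {f : V → Fin 3} (hf : f ∈ col G 3) (i j : Fin 3) (hij : i ≠ j) :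
    (G.induce {v | f v = i ∨ f v = j}).Connected := by
  classical
  have hsurj := surj_of h2 hf
  obtain ⟨k, hik, hjk⟩ : ∃ k : Fin 3, i ≠ k ∧ j ≠ k := by
    revert i j
    decide
  obtain ⟨vi, hvi⟩ := hsurj i
  have hne : Nonempty {v | f v = i ∨ f v = j} := ⟨⟨vi, Or.inl hvi⟩⟩
  refine ⟨fun u w => ?_⟩
  by_contra hnr
  set R : V → Prop := fun v => ∃ h : v ∈ {v | f v = i ∨ f v = j},
    (G.induce {v | f v = i ∨ f v = j}).Reachable u ⟨v, h⟩ with hR
  set g : V → Fin 3 := fun v => if R v then Equiv.swap i j (f v) else f v with hg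
  have hfm := mem_col.1 hf
  have step : ∀ x y, B G x y = true → R x → ¬ R y → f y = k := by
    intro x y hxy hx hy
    by_contra h
    have hmem : y ∈ {v | f v = i ∨ f v = j} := by
      have h1 : f y = i ∨ f y = j := by omega
      exact h1
    obtain ⟨hx1, hx2⟩ := hx
    apply hy
    refine ⟨hmem, hx2.trans ?_⟩
    have : (G.induce {v | f v = i ∨ f v = j}).Adj ⟨x, hx1⟩ ⟨y, hmem⟩ := (B_eq_true G x y).1 hxy
    exact this.reachable
  have hsw : ∀ x, R x → Equiv.swap i j (f x) ≠ k := by
    rintro x ⟨hx, -⟩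
    have hx' : f x = i ∨ f x = j := hx
    rcases hx' with h | h
    · rw [h, Equiv.swap_apply_left]; exact hjk
    · rw [h, Equiv.swap_apply_right]; exact hik
  have hgm : g ∈ col G 3 := by
    rw [mem_col]
    intro x y hxy
    simp only [hg]
    by_cases hx : R x
    · by_cases hy : R y
      · rw [if_pos hx, if_pos hy]
        exact fun h => hfm x y hxy ((Equiv.swap i j).injective h)
      · rw [if_pos hx, if_neg hy, step x y hxy hx hy]
        exact hsw x hx
    · by_cases hy : R y
      · rw [if_neg hx, if_pos hy, step y x ((B_comm G y x).trans hxy) hy hx]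
        exact (hsw y hy).symm
      · rw [if_neg hx, if_neg hy]
        exact hfm x y hxy
  obtain ⟨s, hs⟩ := unique_of h2 h3 hf hgm
  obtain ⟨vk, hvk⟩ := hsurj k
  have e1 : s k = k := by
    have h1 := hs vk
    simp only [hg] at h1
    rw [if_neg, hvk] at h1
    · exact h1.symm
    · rintro ⟨h, -⟩
      have h' : f vk = i ∨ f vk = j := h
      rw [hvk] at h'
      rcases h' with h' | h'
      · exact hik h'.symm
      · exact hjk h'.symm
  have e2 : s (f w.1) = f w.1 := by
    have h1 := hs w.1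
    simp only [hg] at h1
    rw [if_neg] at h1
    · exact h1.symm
    · rintro ⟨_, h⟩
      exact hnr h
  have e3 : s (f u.1) = Equiv.swap i j (f u.1) := by
    have h1 := hs u.1
    simp only [hg] at h1
    rw [if_pos] at h1
    · exact h1.symm
    · exact ⟨u.2, SimpleGraph.Reachable.refl _⟩
  have hu : f u.1 = i ∨ f u.1 = j := u.2
  have hw : f w.1 = i ∨ f w.1 = j := w.2
  rcases hu with hu | hu <;> rcases hw with hw | hw <;> rw [hu] at e3 <;> rw [hw] at e2
  · rw [Equiv.swap_apply_left, e2] at e3; exact hij e3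
  · rw [Equiv.swap_apply_left, perm_fix s i j k hij hik hjk e1 e2] at e3; exact hij e3
  · rw [Equiv.swap_apply_right, perm_fix s j i k hij.symm hjk hik e1 e2] at e3; exact hij e3.symm
  · rw [Equiv.swap_apply_right, e2] at e3; exact hij e3.symm

end Pool.Agent.Lib.MP_61e017_co
end

section

set_option autoImplicit false
set_option linter.unusedSectionVars false

/-!
# Counts in complete tripartite graphs with one part of size one
-/

namespace Pool.Agent.Lib.MP_61e017_co

variable {V : Type*} [Fintype V] [DecidableEq V]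

/-- number of vertices of colour `i` in `W` -/
def cn (c : V → Fin 3) (i : Fin 3) (W : Finset V) : ℕ := (W.filter (fun v => c v = i)).card

theorem sum_cn_col (c : V → Fin 3) (W : Finset V) (F : Fin 3 → ℕ) :
    ∑ v ∈ W, F (c v) = cn c 0 W * F 0 + cn c 1 W * F 1 + cn c 2 W * F 2 := by
  rw [← Finset.sum_fiberwise_of_maps_to (g := c) (t := Finset.univ)
    (fun _ _ => Finset.mem_univ _), Fin.sum_univ_three]
  have h : ∀ i : Fin 3, ∑ v ∈ W.filter (fun v => c v = i), F (c v) = cn c i W * F i := by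
    intro i
    unfold cn
    rw [← smul_eq_mul, ← Finset.sum_const]
    refine Finset.sum_congr rfl fun v hv => ?_
    rw [(Finset.mem_filter.1 hv).2]
  rw [h, h, h]

theorem cn_add (c : V → Fin 3) (W : Finset V) : cn c 0 W + cn c 1 W + cn c 2 W = W.card := by
  have h := sum_cn_col c W (fun _ => 1)
  simp only [mul_one, Finset.sum_const, smul_eq_mul] at h
  exact h.symm

section multi

variable {G : SimpleGraph V} {c : V → Fin 3} (hG : ∀ u v, B G u v = true ↔ c u ≠ c v)
include hG

theorem B_c (u v : V) : B G u v = decide (c u ≠ c v) := by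
  rw [Bool.eq_iff_iff, hG, decide_eq_true_iff]

theorem dg_c (W : Finset V) (v : V) : dg G W v = cn c 0 W * (decide (c v ≠ 0)).toNat +
    cn c 1 W * (decide (c v ≠ 1)).toNat + cn c 2 W * (decide (c v ≠ 2)).toNat := by
  unfold dg
  rw [← sum_cn_col c W (fun i => (decide (c v ≠ i)).toNat)]
  exact Finset.sum_congr rfl fun u _ => by rw [B_c hG]

theorem p1_c (W : Finset V) : p1 G W = cn c 0 W * (cn c 1 W + cn c 2 W) +
    cn c 1 W * (cn c 0 W + cn c 2 W) + cn c 2 W * (cn c 0 W + cn c 1 W) := by
  unfold p1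
  rw [Finset.sum_congr rfl fun v _ => dg_c hG W v]
  refine (sum_cn_col c W (fun i : Fin 3 => cn c 0 W * (decide (i ≠ 0)).toNat +
    cn c 1 W * (decide (i ≠ 1)).toNat + cn c 2 W * (decide (i ≠ 2)).toNat)).trans ?_
  simp

theorem p2_c (W : Finset V) : p2 G W = cn c 0 W * (cn c 1 W + cn c 2 W) ^ 2 +
    cn c 1 W * (cn c 0 W + cn c 2 W) ^ 2 + cn c 2 W * (cn c 0 W + cn c 1 W) ^ 2 := by
  unfold p2
  simp only [dg_c hG]
  refine (sum_cn_col c W (fun i : Fin 3 => (cn c 0 W * (decide (i ≠ 0)).toNat +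
    cn c 1 W * (decide (i ≠ 1)).toNat + cn c 2 W * (decide (i ≠ 2)).toNat) ^ 2)).trans ?_
  simp

theorem tr_c (W : Finset V) : tr G W = 6 * (cn c 0 W * cn c 1 W * cn c 2 W) := by
  unfold tr
  have h : ∑ u ∈ W, ∑ v ∈ W, ∑ w ∈ W, (B G u v && B G v w && B G u w).toNat =
    ∑ u ∈ W, ∑ v ∈ W, ∑ w ∈ W,
      (decide (c u ≠ c v) && decide (c v ≠ c w) && decide (c u ≠ c w)).toNat :=
    Finset.sum_congr rfl fun u _ => Finset.sum_congr rfl fun v _ => Finset.sum_congr rfl
      fun w _ => by rw [B_c hG, B_c hG, B_c hG]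
  have h1 : ∀ i j : Fin 3, ∑ w ∈ W, (decide (i ≠ j) && decide (j ≠ c w) && decide (i ≠ c w)).toNat =
      cn c 0 W * (decide (i ≠ j) && decide (j ≠ 0) && decide (i ≠ 0)).toNat +
      cn c 1 W * (decide (i ≠ j) && decide (j ≠ 1) && decide (i ≠ 1)).toNat +
      cn c 2 W * (decide (i ≠ j) && decide (j ≠ 2) && decide (i ≠ 2)).toNat :=
    fun i j => sum_cn_col c W
      (fun k => (decide (i ≠ j) && decide (j ≠ k) && decide (i ≠ k)).toNat)
  rw [h]
  simp only [h1]
  have h2 : ∀ i : Fin 3, ∑ v ∈ W,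
      (cn c 0 W * (decide (i ≠ c v) && decide (c v ≠ 0) && decide (i ≠ 0)).toNat +
      cn c 1 W * (decide (i ≠ c v) && decide (c v ≠ 1) && decide (i ≠ 1)).toNat +
      cn c 2 W * (decide (i ≠ c v) && decide (c v ≠ 2) && decide (i ≠ 2)).toNat) = _ :=
    fun i => sum_cn_col c W
      (fun k => (cn c 0 W * (decide (i ≠ k) && decide (k ≠ 0) && decide (i ≠ 0)).toNat +
      cn c 1 W * (decide (i ≠ k) && decide (k ≠ 1) && decide (i ≠ 1)).toNat +
      cn c 2 W * (decide (i ≠ k) && decide (k ≠ 2) && decide (i ≠ 2)).toNat))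
  simp only [h2]
  refine (sum_cn_col c W (fun i =>
        (cn c 0 W *
            (cn c 0 W * (decide (i ≠ 0) && decide ((0 : Fin 3) ≠ 0) && decide (i ≠ 0)).toNat +
                cn c 1 W * (decide (i ≠ 0) && decide ((0 : Fin 3) ≠ 1) && decide (i ≠ 1)).toNat +
              cn c 2 W * (decide (i ≠ 0) && decide ((0 : Fin 3) ≠ 2) && decide (i ≠ 2)).toNat) +
          cn c 1 W *
            (cn c 0 W * (decide (i ≠ 1) && decide ((1 : Fin 3) ≠ 0) && decide (i ≠ 0)).toNat +
                cn c 1 W * (decide (i ≠ 1) && decide ((1 : Fin 3) ≠ 1) && decide (i ≠ 1)).toNat +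
              cn c 2 W * (decide (i ≠ 1) && decide ((1 : Fin 3) ≠ 2) && decide (i ≠ 2)).toNat) +
        cn c 2 W *
          (cn c 0 W * (decide (i ≠ 2) && decide ((2 : Fin 3) ≠ 0) && decide (i ≠ 0)).toNat +
              cn c 1 W * (decide (i ≠ 2) && decide ((2 : Fin 3) ≠ 1) && decide (i ≠ 1)).toNat +
            cn c 2 W * (decide (i ≠ 2) && decide ((2 : Fin 3) ≠ 2) && decide (i ≠ 2)).toNat)))).trans ?_
  simp
  ring

end multi

theorem card_cn (c : V → Fin 3) (k : ℕ) (a b d : ℕ) (h : a + b + d = k) :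
    (((Finset.univ : Finset V).powersetCard k).filter
      (fun W => (cn c 0 W, cn c 1 W, cn c 2 W) = (a, b, d))).card =
      (cn c 0 Finset.univ).choose a * (cn c 1 Finset.univ).choose b *
        (cn c 2 Finset.univ).choose d := by
  have hR : (cn c 0 Finset.univ).choose a * (cn c 1 Finset.univ).choose b *
        (cn c 2 Finset.univ).choose d =
      ((((Finset.univ : Finset V).filter (fun v => c v = 0)).powersetCard a) ×ˢ
        ((((Finset.univ : Finset V).filter (fun v => c v = 1)).powersetCard b) ×ˢ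
        (((Finset.univ : Finset V).filter (fun v => c v = 2)).powersetCard d))).card := by
    rw [Finset.card_product, Finset.card_product, Finset.card_powersetCard,
      Finset.card_powersetCard, Finset.card_powersetCard, mul_assoc]
    rfl
  rw [hR]
  refine Finset.card_nbij'
    (fun W => (W.filter (fun v => c v = 0), W.filter (fun v => c v = 1), W.filter (fun v => c v = 2)))
    (fun p => p.1 ∪ p.2.1 ∪ p.2.2) ?_ ?_ ?_ ?_
  · intro W hW
    simp only [Finset.coe_filter, Set.mem_ofPred_eq, Prod.mk.injEq, Finset.mem_powersetCard] at hW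
    obtain ⟨-, h1, h2, h3⟩ := hW
    simp only [Finset.coe_product, Set.mem_prod, Finset.mem_coe, Finset.mem_powersetCard]
    exact ⟨⟨Finset.filter_subset_filter _ (Finset.subset_univ _), h1⟩,
      ⟨Finset.filter_subset_filter _ (Finset.subset_univ _), h2⟩,
      ⟨Finset.filter_subset_filter _ (Finset.subset_univ _), h3⟩⟩
  · rintro ⟨X, Y, Z⟩ hp
    simp only [Finset.coe_product, Set.mem_prod, Finset.mem_coe, Finset.mem_powersetCard,
      Finset.subset_iff, Finset.mem_filter, Finset.mem_univ, true_and] at hp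
    obtain ⟨⟨h1, h1'⟩, ⟨h2, h2'⟩, ⟨h3, h3'⟩⟩ := hp
    have eX : (X ∪ Y ∪ Z).filter (fun v => c v = 0) = X := by
      ext v
      simp only [Finset.mem_filter, Finset.mem_union]
      constructor
      · rintro ⟨(h | h) | h, h4⟩
        · exact h
        · rw [h2 h] at h4; exact absurd h4 (by decide)
        · rw [h3 h] at h4; exact absurd h4 (by decide)
      · exact fun h => ⟨Or.inl (Or.inl h), h1 h⟩
    have eY : (X ∪ Y ∪ Z).filter (fun v => c v = 1) = Y := by
      ext v
      simp only [Finset.mem_filter, Finset.mem_union]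
      constructor
      · rintro ⟨(h | h) | h, h4⟩
        · rw [h1 h] at h4; exact absurd h4 (by decide)
        · exact h
        · rw [h3 h] at h4; exact absurd h4 (by decide)
      · exact fun h => ⟨Or.inl (Or.inr h), h2 h⟩
    have eZ : (X ∪ Y ∪ Z).filter (fun v => c v = 2) = Z := by
      ext v
      simp only [Finset.mem_filter, Finset.mem_union]
      constructor
      · rintro ⟨(h | h) | h, h4⟩
        · rw [h1 h] at h4; exact absurd h4 (by decide)
        · rw [h2 h] at h4; exact absurd h4 (by decide)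
        · exact h
      · exact fun h => ⟨Or.inr h, h3 h⟩
    have hcn : cn c 0 (X ∪ Y ∪ Z) = a ∧ cn c 1 (X ∪ Y ∪ Z) = b ∧ cn c 2 (X ∪ Y ∪ Z) = d := by
      unfold cn
      rw [eX, eY, eZ]
      exact ⟨h1', h2', h3'⟩
    simp only [Finset.coe_filter, Set.mem_ofPred_eq, Prod.mk.injEq, Finset.mem_powersetCard]
    refine ⟨⟨Finset.subset_univ _, ?_⟩, hcn⟩
    rw [← cn_add c, hcn.1, hcn.2.1, hcn.2.2, h]
  · intro W _
    ext v
    simp only [Finset.mem_union, Finset.mem_filter]
    have : c v = 0 ∨ c v = 1 ∨ c v = 2 := by omega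
    tauto
  · rintro ⟨X, Y, Z⟩ hp
    simp only [Finset.coe_product, Set.mem_prod, Finset.mem_coe, Finset.mem_powersetCard,
      Finset.subset_iff, Finset.mem_filter, Finset.mem_univ, true_and] at hp
    obtain ⟨⟨h1, h1'⟩, ⟨h2, h2'⟩, ⟨h3, h3'⟩⟩ := hp
    simp only [Prod.mk.injEq]
    refine ⟨?_, ?_, ?_⟩
    · ext v
      simp only [Finset.mem_filter, Finset.mem_union]
      constructor
      · rintro ⟨(h | h) | h, h4⟩
        · exact h
        · rw [h2 h] at h4; exact absurd h4 (by decide)
        · rw [h3 h] at h4; exact absurd h4 (by decide)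
      · exact fun h => ⟨Or.inl (Or.inl h), h1 h⟩
    · ext v
      simp only [Finset.mem_filter, Finset.mem_union]
      constructor
      · rintro ⟨(h | h) | h, h4⟩
        · rw [h1 h] at h4; exact absurd h4 (by decide)
        · exact h
        · rw [h3 h] at h4; exact absurd h4 (by decide)
      · exact fun h => ⟨Or.inl (Or.inr h), h2 h⟩
    · ext v
      simp only [Finset.mem_filter, Finset.mem_union]
      constructor
      · rintro ⟨(h | h) | h, h4⟩
        · rw [h1 h] at h4; exact absurd h4 (by decide)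
        · rw [h2 h] at h4; exact absurd h4 (by decide)
        · exact h
      · exact fun h => ⟨Or.inr h, h3 h⟩

theorem sum_by_cn (c : V → Fin 3) (k : ℕ) (F : Finset V → ℤ) (g : ℕ → ℕ → ℕ → ℤ)
    (hF : ∀ W ∈ (Finset.univ : Finset V).powersetCard k, F W = g (cn c 0 W) (cn c 1 W) (cn c 2 W)) :
    ∑ W ∈ (Finset.univ : Finset V).powersetCard k, F W =
      ∑ a ∈ Finset.range (k + 1), ∑ b ∈ Finset.range (k + 1), ∑ d ∈ Finset.range (k + 1),
        if a + b + d = k then ((((cn c 0 Finset.univ).choose a * (cn c 1 Finset.univ).choose b *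
          (cn c 2 Finset.univ).choose d : ℕ) : ℤ)) * g a b d else 0 := by
  rw [← Finset.sum_fiberwise_of_maps_to (g := fun W => (cn c 0 W, cn c 1 W, cn c 2 W))
    (t := Finset.range (k + 1) ×ˢ (Finset.range (k + 1) ×ˢ Finset.range (k + 1)))]
  · rw [Finset.sum_product]
    refine Finset.sum_congr rfl fun a _ => ?_
    rw [Finset.sum_product]
    refine Finset.sum_congr rfl fun b _ => Finset.sum_congr rfl fun d _ => ?_
    have h1 : ∑ W ∈ ((Finset.univ : Finset V).powersetCard k).filter
        (fun W => (cn c 0 W, cn c 1 W, cn c 2 W) = (a, b, d)), F W =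
        ∑ W ∈ ((Finset.univ : Finset V).powersetCard k).filter
        (fun W => (cn c 0 W, cn c 1 W, cn c 2 W) = (a, b, d)), g a b d := by
      refine Finset.sum_congr rfl fun W hW => ?_
      obtain ⟨h1, h2⟩ := Finset.mem_filter.1 hW
      simp only [Prod.mk.injEq] at h2
      rw [hF W h1, h2.1, h2.2.1, h2.2.2]
    rw [h1, Finset.sum_const, nsmul_eq_mul]
    split_ifs with h
    · rw [card_cn c k a b d h]
    · have h2 : ((Finset.univ : Finset V).powersetCard k).filter
        (fun W => (cn c 0 W, cn c 1 W, cn c 2 W) = (a, b, d)) = ∅ := by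
        rw [Finset.filter_eq_empty_iff]
        intro W hW h3
        simp only [Prod.mk.injEq] at h3
        apply h
        rw [← h3.1, ← h3.2.1, ← h3.2.2, cn_add, (Finset.mem_powersetCard.1 hW).2]
      rw [h2]
      simp
  · intro W hW
    have := cn_add c W
    rw [(Finset.mem_powersetCard.1 hW).2] at this
    simp only [Finset.mem_range, Finset.mem_product]
    omega

section base

variable {G : SimpleGraph V} {c : V → Fin 3} (hG : ∀ u v, B G u v = true ↔ c u ≠ c v)
  (h0 : cn c 0 Finset.univ = 1)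
include hG h0

theorem EE_base : EE G = (cn c 1 Finset.univ : ℤ) + cn c 2 Finset.univ +
    cn c 1 Finset.univ * cn c 2 Finset.univ := by
  unfold EE
  rw [sum_by_cn c 2 (fe G) (fun x y z => if x * (y + z) + y * (x + z) + z * (x + y) = 2 then 1 else 0)
    (fun W _ => by unfold fe; rw [p1_c hG]), h0]
  simp [Finset.sum_range_succ]
  ring

theorem TT_base : TT G = (cn c 1 Finset.univ : ℤ) * cn c 2 Finset.univ := by
  unfold TT
  rw [sum_by_cn c 3 (ft G) (fun x y z => if x * (y + z) + y * (x + z) + z * (x + y) = 6 then 1 else 0)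
    (fun W _ => by unfold ft; rw [p1_c hG]), h0]
  simp [Finset.sum_range_succ]

theorem JJ_base : JJ G = ((cn c 1 Finset.univ).choose 2 : ℤ) * (cn c 2 Finset.univ).choose 2 := by
  unfold JJ
  rw [sum_by_cn c 4 (fj G) (fun x y z => if x * (y + z) + y * (x + z) + z * (x + y) = 8 ∧
      x * (y + z) ^ 2 + y * (x + z) ^ 2 + z * (x + y) ^ 2 = 16 then 1 else
      if x * (y + z) + y * (x + z) + z * (x + y) = 12 then -2 else 0)
    (fun W _ => by unfold fj; rw [p1_c hG, p2_c hG]), h0]
  simp [Finset.sum_range_succ]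

theorem SS_base : SS G = 3 * (((cn c 1 Finset.univ).choose 2 : ℤ) * (cn c 2 Finset.univ).choose 2) +
    ((cn c 1 Finset.univ).choose 2 : ℤ) * (cn c 2 Finset.univ).choose 3 +
    ((cn c 1 Finset.univ).choose 3 : ℤ) * (cn c 2 Finset.univ).choose 2 := by
  unfold SS
  rw [sum_by_cn c 5 (fs G) (fun x y z =>
      if x * (y + z) + y * (x + z) + z * (x + y) = 16 ∧
        x * (y + z) ^ 2 + y * (x + z) ^ 2 + z * (x + y) ^ 2 = 52 then 3 else
      if x * (y + z) + y * (x + z) + z * (x + y) = 14 ∧
        x * (y + z) ^ 2 + y * (x + z) ^ 2 + z * (x + y) ^ 2 = 40 then 2 else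
      if x * (y + z) + y * (x + z) + z * (x + y) = 12 ∧
        x * (y + z) ^ 2 + y * (x + z) ^ 2 + z * (x + y) ^ 2 = 30 ∧ 6 * (x * y * z) = 0 then 1 else
      if x * (y + z) + y * (x + z) + z * (x + y) = 10 ∧
        x * (y + z) ^ 2 + y * (x + z) ^ 2 + z * (x + y) ^ 2 = 20 then -1 else 0)
    (fun W _ => by unfold fs; rw [p1_c hG, p2_c hG, tr_c hG]), h0]
  simp [Finset.sum_range_succ]
  ring

theorem base_rel :
    4 * JJ G = TT G * (EE G - 2 * (Fintype.card V : ℤ) + 3) ∧
    3 * SS G = ((Fintype.card V : ℤ) + 4) * JJ G := by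
  have hN := cn_add c (Finset.univ : Finset V)
  rw [h0, Finset.card_univ] at hN
  rw [EE_base hG h0, TT_base hG h0, JJ_base hG h0, SS_base hG h0, ← hN]
  set n := cn c 1 Finset.univ with hn
  set m := cn c 2 Finset.univ with hm
  constructor
  · have h : (4 * (((n.choose 2 : ℕ) : ℚ) * ((m.choose 2 : ℕ) : ℚ)) : ℚ) =
        (n : ℚ) * m * ((n : ℚ) + m + n * m - 2 * (1 + n + m) + 3) := by
      rw [choose_two_cast, choose_two_cast]
      ring
    exact_mod_cast h
  · have h : (3 * (3 * (((n.choose 2 : ℕ) : ℚ) * ((m.choose 2 : ℕ) : ℚ)) +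
        ((n.choose 2 : ℕ) : ℚ) * ((m.choose 3 : ℕ) : ℚ) +
        ((n.choose 3 : ℕ) : ℚ) * ((m.choose 2 : ℕ) : ℚ)) : ℚ) =
        ((1 + n + m : ℚ) + 4) * (((n.choose 2 : ℕ) : ℚ) * ((m.choose 2 : ℕ) : ℚ)) := by
      rw [choose_two_cast, choose_two_cast, choose_three_cast, choose_three_cast]
      ring
    exact_mod_cast h

end base

theorem col2_base {G : SimpleGraph V} {c : V → Fin 3} (hG : ∀ u v, B G u v = true ↔ c u ≠ c v)
    (hs : Function.Surjective c) : (col G 2).card = 0 := by
  rw [Finset.card_eq_zero, Finset.eq_empty_iff_forall_notMem]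
  intro f hf
  rw [mem_col] at hf
  obtain ⟨v0, h0⟩ := hs 0
  obtain ⟨v1, h1⟩ := hs 1
  obtain ⟨v2, h2⟩ := hs 2
  have e1 := hf v0 v1 ((hG _ _).2 (by rw [h0, h1]; decide))
  have e2 := hf v0 v2 ((hG _ _).2 (by rw [h0, h2]; decide))
  have e3 := hf v1 v2 ((hG _ _).2 (by rw [h1, h2]; decide))
  omega

theorem col3_base {G : SimpleGraph V} {c : V → Fin 3} (hG : ∀ u v, B G u v = true ↔ c u ≠ c v)
    (hs : Function.Surjective c) : (col G 3).card = 6 := by
  classical
  have h1 : col G 3 =
      (Finset.univ : Finset (Equiv.Perm (Fin 3))).image (fun s v => s (c v)) := by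
    ext f
    rw [mem_col, Finset.mem_image]
    constructor
    · intro hf
      choose r hr using hs
      have hinj : Function.Injective (fun i => f (r i)) := by
        intro i j hij
        by_contra hne
        exact hf (r i) (r j) ((hG _ _).2 (by rw [hr, hr]; exact hne)) hij
      have hbij : Function.Bijective (fun i => f (r i)) :=
        Finite.injective_iff_bijective.1 hinj
      refine ⟨Equiv.ofBijective _ hbij, Finset.mem_univ _, ?_⟩
      funext v
      rw [Equiv.ofBijective_apply]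
      obtain ⟨i, hi⟩ := hbij.2 (f v)
      simp only at hi
      by_cases h : i = c v
      · rw [← h]; exact hi
      · exact absurd hi (hf (r i) v ((hG _ _).2 (by rw [hr]; exact h)))
    · rintro ⟨s, -, rfl⟩ u v huv h
      exact (hG u v).1 huv (s.injective h)
  rw [h1, Finset.card_image_of_injective, Finset.card_univ, Fintype.card_perm, Fintype.card_fin]
  · rfl
  · intro s t hst
    ext k
    obtain ⟨v, rfl⟩ := hs k
    have := congrFun hst v
    simp only at this
    rw [this]

/-- the complete tripartite graph -/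
def K3 (n m : ℕ) : SimpleGraph (Σ i : Fin 3, Fin ((![1, n, m] : Fin 3 → ℕ) i)) :=
  SimpleGraph.completeMultipartiteGraph (fun i : Fin 3 => Fin ((![1, n, m] : Fin 3 → ℕ) i))

theorem K3_B (n m : ℕ) (u v : Σ i : Fin 3, Fin ((![1, n, m] : Fin 3 → ℕ) i)) :
    B (K3 n m) u v = true ↔ u.1 ≠ v.1 := by
  rw [B_eq_true]
  rfl

theorem K3_cn (n m : ℕ) (i : Fin 3) :
    cn (fun v : Σ i : Fin 3, Fin ((![1, n, m] : Fin 3 → ℕ) i) => v.1) i Finset.univ =
      (![1, n, m] : Fin 3 → ℕ) i := by
  unfold cn
  rw [← Fintype.card_subtype]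
  have e : {v : Σ i : Fin 3, Fin ((![1, n, m] : Fin 3 → ℕ) i) // v.1 = i} ≃
      Fin ((![1, n, m] : Fin 3 → ℕ) i) :=
    { toFun := fun v => Fin.cast (by rw [v.2]) v.1.2
      invFun := fun x => ⟨⟨i, x⟩, rfl⟩
      left_inv := by
        rintro ⟨⟨j, x⟩, rfl⟩
        rfl
      right_inv := fun x => rfl }
  rw [Fintype.card_congr e, Fintype.card_fin]

theorem K3_surj (n m : ℕ) (hn : 1 ≤ n) (hm : 1 ≤ m) :
    Function.Surjective (fun v : Σ i : Fin 3, Fin ((![1, n, m] : Fin 3 → ℕ) i) => v.1) := by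
  intro i
  have h : 0 < (![1, n, m] : Fin 3 → ℕ) i := by
    fin_cases i
    · simp
    · exact hn
    · exact hm
  exact ⟨⟨i, ⟨0, h⟩⟩, rfl⟩

/-- the facts about a graph with the chromatic polynomial of the complete tripartite graph -/
theorem facts (n m : ℕ) (hn : 1 ≤ n) (hm : 1 ≤ m) (G : SimpleGraph V)
    (h : ∀ q : ℕ, 1 ≤ q → (col G q).card = (col (K3 n m) q).card) :
    Fintype.card V = 1 + n + m ∧ EE G = (n : ℤ) + m + n * m ∧ TT G = (n : ℤ) * m ∧
    JJ G = (n.choose 2 : ℤ) * m.choose 2 ∧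
    (∃ f : V → Fin 3, (∀ u v, B G u v = true → f u ≠ f v) ∧ Function.Surjective f ∧
      (∀ i j : Fin 3, i ≠ j → (G.induce {v | f v = i ∨ f v = j}).Connected)) ∧
    4 * JJ G = TT G * (EE G - 2 * Fintype.card V + 3) ∧
    3 * SS G = ((Fintype.card V : ℤ) + 4) * JJ G := by
  have hG := K3_B n m
  have h0 := K3_cn n m 0
  have h1 := K3_cn n m 1
  have h2 := K3_cn n m 2
  have e0 : (![1, n, m] : Fin 3 → ℕ) 0 = 1 := rfl
  have e1 : (![1, n, m] : Fin 3 → ℕ) 1 = n := rfl
  have e2 : (![1, n, m] : Fin 3 → ℕ) 2 = m := rfl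
  rw [e0] at h0
  rw [e1] at h1
  rw [e2] at h2
  obtain ⟨s1, s2, s3, s4, s5⟩ := same_counts G (K3 n m) h
  have hN := cn_add (fun v : Σ i : Fin 3, Fin ((![1, n, m] : Fin 3 → ℕ) i) => v.1) Finset.univ
  rw [h0, h1, h2, Finset.card_univ] at hN
  have hs := K3_surj n m hn hm
  have c2 : (col G 2).card = 0 := by rw [h 2 (by norm_num), col2_base hG hs]
  have c3 : (col G 3).card = 6 := by rw [h 3 (by norm_num), col3_base hG hs]
  obtain ⟨f, hf⟩ : (col G 3).Nonempty := by rw [← Finset.card_pos, c3]; norm_num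
  have hfm := mem_col.1 hf
  have hK : KF G := kf_of_three f hfm
  have hK' : KF (K3 n m) := kf_of_three _ (fun u v => (hG u v).1)
  have s6 := s5 hK hK'
  obtain ⟨b1, b2⟩ := base_rel hG h0
  refine ⟨s1.trans hN.symm, ?_, ?_, ?_, ⟨f, hfm, surj_of c2 hf, fun i j hij => connected_of c2 c3 hf i j hij⟩, ?_, ?_⟩
  · rw [s2, EE_base hG h0, h1, h2]
  · rw [s3, TT_base hG h0, h1, h2]
  · rw [s4, JJ_base hG h0, h1, h2]
  · rw [s4, s3, s2, s1]; exact b1
  · rw [s6, s4, s1]; exact b2

end Pool.Agent.Lib.MP_61e017_co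
end

section

set_option autoImplicit false
set_option linter.unusedSectionVars false

/-!
# The structure of the graphs in the equivalence class
-/

namespace Pool.Agent.Lib.MP_61e017_co

variable {V : Type*} [Fintype V] [DecidableEq V]

theorem bool_c4' : ∀ ab ac ad bc bd cd : Bool, 0 < j4 ab ac ad bc bd cd →
    ((ab && bc && cd && ad && !ac && !bd) || (ab && bd && cd && ac && !ad && !bc) ||
    (ac && bc && bd && ad && !ab && !cd)) = true := by
  decide +kernel

theorem bool_c4 (ab ac ad bc bd cd : Bool) (h : 0 < j4 ab ac ad bc bd cd) :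
    (ab = true ∧ bc = true ∧ cd = true ∧ ad = true ∧ ac = false ∧ bd = false) ∨
    (ab = true ∧ bd = true ∧ cd = true ∧ ac = true ∧ ad = false ∧ bc = false) ∨
    (ac = true ∧ bc = true ∧ bd = true ∧ ad = true ∧ ab = false ∧ cd = false) := by
  have h1 := bool_c4' ab ac ad bc bd cd h
  simp only [Bool.or_eq_true, Bool.and_eq_true, Bool.not_eq_true'] at h1
  tauto

theorem exists_c4 {G : SimpleGraph V} (hJ : 0 < JJ G) : ∃ a b c d : V, a ≠ c ∧ b ≠ d ∧
    B G a b = true ∧ B G b c = true ∧ B G c d = true ∧ B G a d = true ∧ B G a c = false ∧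
    B G b d = false := by
  obtain ⟨W, hW, hlt⟩ : ∃ W ∈ (Finset.univ : Finset V).powersetCard 4, 0 < fj G W := by
    by_contra h
    push Not at h
    exact absurd hJ (not_lt.2 (Finset.sum_nonpos h))
  obtain ⟨h1, h2⟩ := Finset.mem_powersetCard.1 hW
  obtain ⟨a, t, ha, rfl, ht⟩ := Finset.card_eq_succ.1 h2
  obtain ⟨b, c, d, hbc, hbd, hcd, rfl⟩ := Finset.card_eq_three.1 ht
  simp only [Finset.mem_insert, Finset.mem_singleton, not_or] at ha
  obtain ⟨hab, hac, had⟩ := ha
  rw [fj_four G hab hac had hbc hbd hcd] at hlt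
  rcases bool_c4 _ _ _ _ _ _ hlt with h | h | h
  · obtain ⟨g1, g2, g3, g4, g5, g6⟩ := h
    exact ⟨a, b, c, d, hac, hbd, g1, g2, g3, g4, g5, g6⟩
  · obtain ⟨g1, g2, g3, g4, g5, g6⟩ := h
    exact ⟨a, b, d, c, had, hbc, g1, g2, (B_comm G d c).trans g3, g4, g5, g6⟩
  · obtain ⟨g1, g2, g3, g4, g5, g6⟩ := h
    exact ⟨a, c, b, d, hab, hcd, g1, (B_comm G c b).trans g2, g3, g4, g5, g6⟩

/-- the local condition -/
def DD (G : SimpleGraph V) : Prop := ∀ a b c d e : V, B G a b = true → B G b c = true →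
  B G c d = true → B G a d = true → B G a c = false → B G b d = false → a ≠ c → b ≠ d →
  a ≠ e → b ≠ e → c ≠ e → d ≠ e →
  (B G a e = true ∧ B G c e = true) ∨ (B G b e = true ∧ B G d e = true)

theorem reach_adj {G : SimpleGraph V} (hD : DD G) {a b c d : V} (hac : a ≠ c) (hbd : b ≠ d)
    (ab : B G a b = true) (bc : B G b c = true) (cd : B G c d = true) (ad : B G a d = true)
    (ac : B G a c = false) (bd : B G b d = false) {z : V} (hz : Gᶜ.Reachable b z) :
    B G a z = true ∧ B G c z = true := by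
  have key : ∀ (u w : V), Gᶜ.Walk u w → (B G a u = true ∧ B G c u = true ∧
      ∃ u', u ≠ u' ∧ B G u u' = false ∧ B G a u' = true ∧ B G c u' = true) →
      (B G a w = true ∧ B G c w = true ∧
      ∃ u', w ≠ u' ∧ B G w u' = false ∧ B G a u' = true ∧ B G c u' = true) := by
    intro u w p
    induction p with
    | nil => exact id
    | @cons u v w h p ih =>
      rintro ⟨h1, h2, u', h3, h4, h5, h6⟩
      apply ih
      rw [SimpleGraph.compl_adj, ← B_eq_false] at h
      obtain ⟨huv, h⟩ := h
      by_cases hv : v = u'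
      · subst hv
        exact ⟨h5, h6, u, huv.symm, (B_comm G v u).trans h, h1, h2⟩
      · have hva : a ≠ v := by
          rintro rfl
          rw [B_comm, h1] at h
          exact absurd h (by simp)
        have hvc : c ≠ v := by
          rintro rfl
          rw [B_comm, h2] at h
          exact absurd h (by simp)
        have h7 := hD a u c u' v h1 ((B_comm G u c).trans h2) h6 h5 ac h4 hac h3 hva huv hvc
          (Ne.symm hv)
        rcases h7 with h7 | h7
        · exact ⟨h7.1, h7.2, u, huv.symm, (B_comm G v u).trans h, h1, h2⟩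
        · rw [h] at h7
          exact absurd h7.1 (by simp)
  obtain ⟨p⟩ := hz
  have h := key b z p ⟨ab, (B_comm G c b).trans bc, d, hbd, bd, ad, cd⟩
  exact ⟨h.1, h.2.1⟩

theorem join_color {G : SimpleGraph V} (hD : DD G) (hJ : 0 < JJ G) {f : V → Fin 3}
    (hf : ∀ u v, B G u v = true → f u ≠ f v) :
    ∃ i, (∀ u v, f u = i → f v ≠ i → B G u v = true) ∧ 2 ≤ NN f i := by
  obtain ⟨a, b, c, d, hac, hbd, ab, bc, cd, ad, ac, bd⟩ := exists_c4 hJ
  have hR := fun z (hz : Gᶜ.Reachable b z) => reach_adj hD hac hbd ab bc cd ad ac bd hz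
  -- the two sides are completely joined
  have hjoin : ∀ u v, Gᶜ.Reachable b u → ¬ Gᶜ.Reachable b v → B G u v = true := by
    intro u v hu hv
    by_contra h
    rw [Bool.not_eq_true, B_eq_false] at h
    apply hv
    by_cases huv : u = v
    · rw [← huv]; exact hu
    · have : Gᶜ.Adj u v := (SimpleGraph.compl_adj G u v).2 ⟨huv, h⟩
      exact hu.trans this.reachable
  have ha : ¬ Gᶜ.Reachable b a := by
    intro h
    have := (hR a h).1
    rw [B_self] at this
    exact absurd this (by simp)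
  have hc : ¬ Gᶜ.Reachable b c := by
    intro h
    have := (hR c h).2
    rw [B_self] at this
    exact absurd this (by simp)
  have hb : Gᶜ.Reachable b b := SimpleGraph.Reachable.refl _
  have hd : Gᶜ.Reachable b d := by
    have : Gᶜ.Adj b d := (SimpleGraph.compl_adj G b d).2 ⟨hbd, (B_eq_false G b d).1 bd⟩
    exact this.reachable
  have hne : ∀ u v, Gᶜ.Reachable b u → ¬ Gᶜ.Reachable b v → f u ≠ f v :=
    fun u v hu hv => hf u v (hjoin u v hu hv)
  -- one side is monochromatic
  by_cases hmono : ∀ u, Gᶜ.Reachable b u → f u = f b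
  · refine ⟨f b, ?_, ?_⟩
    · intro u v hu hv
      have h1 : Gᶜ.Reachable b u := by
        by_contra h
        exact hne b u hb h hu.symm
      have h2 : ¬ Gᶜ.Reachable b v := fun h => hv (hmono v h)
      exact hjoin u v h1 h2
    · unfold NN
      refine Nat.succ_le_iff.2 (Finset.one_lt_card.2 ⟨b, ?_, d, ?_, hbd⟩)
      · simp
      · simp only [Finset.mem_filter, Finset.mem_univ, true_and]
        exact hmono d hd
  · push Not at hmono
    obtain ⟨w, hw1, hw2⟩ := hmono
    have hS : ∀ v, ¬ Gᶜ.Reachable b v → f v = f a := by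
      intro v hv
      have h1 := hne w v hw1 hv
      have h2 := hne b v hb hv
      have h3 := hne w a hw1 ha
      have h4 := hne b a hb ha
      omega
    refine ⟨f a, ?_, ?_⟩
    · intro u v hu hv
      have h1 : ¬ Gᶜ.Reachable b u := fun h => hne u a h ha hu
      have h2 : Gᶜ.Reachable b v := by
        by_contra h
        exact hv (hS v h)
      rw [B_comm]
      exact hjoin v u h2 h1
    · unfold NN
      refine Nat.succ_le_iff.2 (Finset.one_lt_card.2 ⟨a, ?_, c, ?_, hac⟩)
      · simp
      · simp only [Finset.mem_filter, Finset.mem_univ, true_and]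
        exact hS c hc

theorem MM_symm (G : SimpleGraph V) (f : V → Fin 3) (i j : Fin 3) : MM G f i j = MM G f j i := by
  unfold MM
  refine Finset.card_nbij' (fun p => (p.2, p.1)) (fun p => (p.2, p.1)) ?_ ?_ ?_ ?_
  · rintro ⟨u, v⟩ h
    simp only [Finset.coe_filter, Set.mem_ofPred_eq, Finset.mem_univ, true_and] at h ⊢
    exact ⟨(B_comm G v u).trans h.1, h.2.2, h.2.1⟩
  · rintro ⟨u, v⟩ h
    simp only [Finset.coe_filter, Set.mem_ofPred_eq, Finset.mem_univ, true_and] at h ⊢
    exact ⟨(B_comm G v u).trans h.1, h.2.2, h.2.1⟩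
  · rintro ⟨u, v⟩ _
    rfl
  · rintro ⟨u, v⟩ _
    rfl

theorem EE_MM (G : SimpleGraph V) (f : V → Fin 3) (hf : ∀ u v, B G u v = true → f u ≠ f v)
    (i j k : Fin 3) (hij : i ≠ j) (hik : i ≠ k) (hjk : j ≠ k) :
    EE G = MM G f i j + MM G f i k + MM G f j k := by
  have h1 := sum_fib G f hf (fun _ => True)
  have hE := two_EE G
  have e2 : ∀ i j : Fin 3, ((Finset.univ : Finset (V × V)).filter
        (fun p => (B G p.1 p.2 = true ∧ True) ∧ f p.1 = i ∧ f p.2 = j)).card = MM G f i j := by
    intro i j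
    unfold MM
    congr 1
    ext p
    simp only [Finset.mem_filter, Finset.mem_univ, true_and, and_true]
  have e3 : ((Finset.univ : Finset (V × V)).filter (fun p => B G p.1 p.2 = true)).card =
      ((Finset.univ : Finset (V × V)).filter (fun p => B G p.1 p.2 = true ∧ True)).card := by
    congr 1
    ext p
    simp
  rw [e3, h1, e2, e2, e2, e2, e2, e2, MM_symm G f 1 0, MM_symm G f 2 0, MM_symm G f 2 1] at hE
  have h : EE G = MM G f 0 1 + MM G f 0 2 + MM G f 1 2 := by
    push_cast at hE
    linarith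
  have s1 := MM_symm G f 1 0
  have s2 := MM_symm G f 2 0
  have s3 := MM_symm G f 2 1
  rw [h]
  fin_cases i <;> fin_cases j <;> fin_cases k <;>
    simp only [Fin.zero_eta, Fin.mk_one, Fin.reduceFinMk, ne_eq,
      not_true_eq_false] at hij hik hjk ⊢ <;>
    (try rw [s1]) <;> (try rw [s2]) <;> (try rw [s3]) <;> ring

theorem NN_sum (f : V → Fin 3) (i j k : Fin 3) (hij : i ≠ j) (hik : i ≠ k) (hjk : j ≠ k) :
    NN f i + NN f j + NN f k = Fintype.card V := by
  have h := sum_NN f
  rw [← h]
  fin_cases i <;> fin_cases j <;> fin_cases k <;>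
    simp only [Fin.zero_eta, Fin.mk_one, Fin.reduceFinMk, ne_eq,
      not_true_eq_false] at hij hik hjk ⊢ <;>
    ring

theorem MM_join (G : SimpleGraph V) (f : V → Fin 3) (i j : Fin 3) (hij : i ≠ j)
    (hi : ∀ u v, f u = i → f v ≠ i → B G u v = true) : MM G f i j = NN f i * NN f j := by
  unfold MM NN
  rw [← Finset.card_product]
  congr 1
  ext ⟨u, v⟩
  simp only [Finset.mem_filter, Finset.mem_univ, true_and, Finset.mem_product]
  constructor
  · exact fun h => h.2
  · rintro ⟨h1, h2⟩
    exact ⟨hi u v h1 (fun h => hij (h.symm.trans h2)), h1, h2⟩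

theorem TT_ge (G : SimpleGraph V) (f : V → Fin 3) (i j k : Fin 3) (hij : i ≠ j) (hik : i ≠ k)
    (hjk : j ≠ k) (hi : ∀ u v, f u = i → f v ≠ i → B G u v = true) :
    ((NN f i * MM G f j k : ℕ) : ℤ) ≤ TT G := by
  set Q : Finset (V × (V × V)) := (Finset.univ.filter (fun v => f v = i)) ×ˢ
    ((Finset.univ : Finset (V × V)).filter (fun p => B G p.1 p.2 = true ∧ f p.1 = j ∧ f p.2 = k))
    with hQ
  have hQc : Q.card = NN f i * MM G f j k := by
    rw [hQ, Finset.card_product]
    rfl
  have hinj : Set.InjOn (fun p : V × (V × V) => ({p.1, p.2.1, p.2.2} : Finset V)) (Q : Set (V × (V × V))) := by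
    rintro ⟨u, v, w⟩ h ⟨u', v', w'⟩ h' he
    simp only [hQ, Finset.coe_product, Set.mem_prod, Finset.coe_filter, Set.mem_ofPred_eq,
      Finset.mem_univ, true_and] at h h'
    obtain ⟨h1, -, h2, h3⟩ := h
    obtain ⟨h1', -, h2', h3'⟩ := h'
    simp only at he
    have a1 : u' ∈ ({u, v, w} : Finset V) := by rw [he]; simp
    have a2 : v' ∈ ({u, v, w} : Finset V) := by rw [he]; simp
    have a3 : w' ∈ ({u, v, w} : Finset V) := by rw [he]; simp
    simp only [Finset.mem_insert, Finset.mem_singleton] at a1 a2 a3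
    have e1 : u = u' := by
      rcases a1 with a | a | a
      · exact a.symm
      · rw [a, h2] at h1'; exact absurd h1'.symm hij
      · rw [a, h3] at h1'; exact absurd h1'.symm hik
    have e2 : v = v' := by
      rcases a2 with a | a | a
      · rw [a, h1] at h2'; exact absurd h2' hij
      · exact a.symm
      · rw [a, h3] at h2'; exact absurd h2'.symm hjk
    have e3 : w = w' := by
      rcases a3 with a | a | a
      · rw [a, h1] at h3'; exact absurd h3' hik
      · rw [a, h2] at h3'; exact absurd h3' hjk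
      · exact a.symm
    rw [e1, e2, e3]
  have hne : ∀ {u v : V}, f u ≠ f v → u ≠ v := fun h h' => h (by rw [h'])
  have hmem : ∀ p ∈ Q, ({p.1, p.2.1, p.2.2} : Finset V) ∈ (Finset.univ : Finset V).powersetCard 3 ∧
      ft G {p.1, p.2.1, p.2.2} = 1 := by
    rintro ⟨u, v, w⟩ h
    simp only [hQ, Finset.mem_product, Finset.mem_filter, Finset.mem_univ, true_and] at h
    obtain ⟨h1, h0, h2, h3⟩ := h
    have uv : u ≠ v := hne (by rw [h1, h2]; exact hij)
    have uw : u ≠ w := hne (by rw [h1, h3]; exact hik)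
    have vw : v ≠ w := hne (by rw [h2, h3]; exact hjk)
    refine ⟨?_, ?_⟩
    · rw [Finset.mem_powersetCard]
      exact ⟨Finset.subset_univ _, Finset.card_eq_three.2 ⟨u, v, w, uv, uw, vw, rfl⟩⟩
    · simp only
      rw [ft_three G uv uw vw, hi u v h1 (by rw [h2]; exact hij.symm),
        hi u w h1 (by rw [h3]; exact hik.symm), h0]
      rfl
  rw [← hQc, ← Finset.card_image_of_injOn hinj]
  unfold TT
  have h1 : ((Q.image (fun p : V × (V × V) => ({p.1, p.2.1, p.2.2} : Finset V))).card : ℤ) =
      ∑ W ∈ Q.image (fun p : V × (V × V) => ({p.1, p.2.1, p.2.2} : Finset V)), ft G W := by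
    rw [Finset.card_eq_sum_ones]
    push_cast
    refine Finset.sum_congr rfl fun W hW => ?_
    obtain ⟨p, hp, rfl⟩ := Finset.mem_image.1 hW
    exact (hmem p hp).2.symm
  rw [h1]
  refine Finset.sum_le_sum_of_subset_of_nonneg ?_ ?_
  · intro W hW
    obtain ⟨p, hp, rfl⟩ := Finset.mem_image.1 hW
    exact (hmem p hp).1
  · intro W _ _
    unfold ft
    split_ifs <;> norm_num

theorem card_edge_le (G : SimpleGraph V) (f : V → Fin 3) (hf : ∀ u v, B G u v = true → f u ≠ f v)
    (i j : Fin 3) :
    Nat.card (G.induce {v | f v = i ∨ f v = j}).edgeSet ≤ MM G f i j := by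
  classical
  set Q : Finset (V × V) := (Finset.univ : Finset (V × V)).filter
    (fun p => B G p.1 p.2 = true ∧ f p.1 = i ∧ f p.2 = j) with hQ
  have h1 : (G.induce {v | f v = i ∨ f v = j}).edgeSet ⊆
      Set.range (fun p : {p // p ∈ Q} => (s(⟨p.1.1, Or.inl (by
        have := p.2; simp only [hQ, Finset.mem_filter] at this; exact this.2.2.1)⟩,
        ⟨p.1.2, Or.inr (by
        have := p.2; simp only [hQ, Finset.mem_filter] at this; exact this.2.2.2)⟩) :
        Sym2 {v | f v = i ∨ f v = j})) := by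
    intro e
    induction e using Sym2.ind with
    | _ x y =>
      intro he
      rw [SimpleGraph.mem_edgeSet] at he
      obtain ⟨x, hx⟩ := x
      obtain ⟨y, hy⟩ := y
      have h1' : B G x y = true := (B_eq_true G x y).2 he
      have hne := hf x y h1'
      rw [Set.mem_ofPred_eq] at hx hy
      rcases hx with hx1 | hx1
      · rcases hy with hy1 | hy1
        · exact absurd (hx1.trans hy1.symm) hne
        · refine ⟨⟨(x, y), ?_⟩, rfl⟩
          simp only [hQ, Finset.mem_filter, Finset.mem_univ, true_and]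
          exact ⟨h1', hx1, hy1⟩
      · rcases hy with hy1 | hy1
        · refine ⟨⟨(y, x), ?_⟩, Sym2.eq_swap⟩
          simp only [hQ, Finset.mem_filter, Finset.mem_univ, true_and]
          exact ⟨(B_comm G y x).trans h1', hy1, hx1⟩
        · exact absurd (hx1.trans hy1.symm) hne
  refine (Nat.card_mono (Set.toFinite _) h1).trans ((Finite.card_range_le _).trans ?_)
  rw [Nat.card_eq_fintype_card, Fintype.card_coe]
  rfl

theorem struct_main (n m : ℕ) (hn : 2 ≤ n) (hm : 2 ≤ m) (G : SimpleGraph V)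
    (h : ∀ q : ℕ, 1 ≤ q → (col G q).card = (col (K3 n m) q).card) :
    ∃ p : V → Prop, (∀ u v, p u → ¬ p v → G.Adj u v) ∧ (∀ u v, p u → p v → ¬ G.Adj u v) ∧
      (G.induce {v | ¬ p v}).IsTree ∧
      ((Nat.card {v // p v} = n ∧ Nat.card {v // ¬ p v} = m + 1) ∨
       (Nat.card {v // p v} = m ∧ Nat.card {v // ¬ p v} = n + 1)) := by
  obtain ⟨hN, hE, hT, hJ, ⟨f, hf, hs, hc⟩, h4, h5⟩ := facts n m (by omega) (by omega) G h
  have hJ' : 0 < JJ G := by
    rw [hJ]
    have h1 : 0 < n.choose 2 := Nat.choose_pos hn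
    have h2 : 0 < m.choose 2 := Nat.choose_pos hm
    positivity
  have hD : DD G := by
    intro a b c d e ab bc cd ad ac bd nac nbd nae nbe nce nde
    exact diag_of G f hf hc h4 h5 ab bc cd ad ac bd nac nbd nae nbe nce nde
  obtain ⟨i, hi, hi2⟩ := join_color hD hJ' hf
  obtain ⟨j, k, hij, hik, hjk⟩ : ∃ j k : Fin 3, i ≠ j ∧ i ≠ k ∧ j ≠ k := by
    clear hi hi2
    revert i
    decide
  have e1 := EE_MM G f hf i j k hij hik hjk
  have e2 := NN_sum f i j k hij hik hjk
  have e3 := MM_join G f i j hij hi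
  have e4 := MM_join G f i k hik hi
  have e5 := TT_ge G f i j k hij hik hjk hi
  have e6 := card_edge_le G f hf j k
  have e7 := (hc j k hjk).card_vert_le_card_edgeSet_add_one
  have hV : Nat.card {v | f v = j ∨ f v = k} = NN f j + NN f k := by
    rw [Nat.card_eq_fintype_card, Fintype.card_subtype]
    unfold NN
    rw [← Finset.card_union_of_disjoint]
    · congr 1
      ext v
      simp
    · rw [Finset.disjoint_left]
      intro v h1 h2
      simp only [Finset.mem_filter, Finset.mem_univ, true_and] at h1 h2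
      exact hjk (h1.symm.trans h2)
  rw [hV] at e7
  rw [e3, e4] at e1
  rw [hE] at e1
  rw [hT] at e5
  rw [hN] at e2
  set s := NN f i
  set r := NN f j + NN f k with hr
  set M := MM G f j k
  set E' := Nat.card (G.induce {v | f v = j ∨ f v = k}).edgeSet
  have hset : {v | f v = j ∨ f v = k} = {v | ¬ f v = i} := by
    ext v
    simp only [Set.mem_ofPred_eq]
    omega
  have z1 : (n : ℤ) + m + n * m = s * r + M := by
    rw [e1, hr]
    push_cast
    ring
  have z2 : (s : ℤ) + r = 1 + n + m := by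
    have : s + r = 1 + n + m := by omega
    exact_mod_cast this
  have z3 : (s : ℤ) * M ≤ n * m := by exact_mod_cast e5
  have z4 : (r : ℤ) ≤ M + 1 := by
    have : r ≤ M + 1 := by omega
    exact_mod_cast this
  have z5 : (2 : ℤ) ≤ s := by exact_mod_cast hi2
  have z6 : (M : ℤ) = r - 1 := by
    have y1 : ((s : ℤ) - 1) * (M - (r - 1)) ≤ 0 := by
      have : (s : ℤ) * M ≤ s * r + M - (s + r - 1) := by linarith
      linarith
    have y2 : (0 : ℤ) < (s : ℤ) - 1 := by linarith
    have y3 : (M : ℤ) - (r - 1) ≤ 0 := by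
      by_contra hcon
      push Not at hcon
      have := mul_pos y2 hcon
      linarith
    linarith
  have z7 : (s : ℤ) * (r - 1) = n * m := by rw [z6] at z1; linarith
  have z8 : ((s : ℤ) - n) * (s - m) = 0 := by
    have : (r : ℤ) = 1 + n + m - s := by linarith
    rw [this] at z7
    linarith
  have hE' : E' + 1 = r := by
    have : (M : ℤ) + 1 = r := by linarith
    have : M + 1 = r := by exact_mod_cast this
    omega
  refine ⟨fun v => f v = i, fun u v hu hv => (B_eq_true G u v).1 (hi u v hu hv),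
    fun u v hu hv h => hf u v ((B_eq_true G u v).2 h) (hu.trans hv.symm), ?_, ?_⟩
  · rw [← hset, SimpleGraph.isTree_iff_connected_and_card]
    exact ⟨hc j k hjk, by rw [hV]; exact hE'⟩
  · have c1 : Nat.card {v // f v = i} = s := by
      rw [Nat.card_eq_fintype_card, Fintype.card_subtype]
      rfl
    have c2 : Nat.card {v // ¬ f v = i} = r := by
      rw [← hV, hset]
      rfl
    rw [c1, c2]
    rcases mul_eq_zero.1 z8 with h1 | h1
    · left
      have : (s : ℤ) = n := by linarith
      have : s = n := by exact_mod_cast this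
      omega
    · right
      have : (s : ℤ) = m := by linarith
      have : s = m := by exact_mod_cast this
      omega

end Pool.Agent.Lib.MP_61e017_co
end

section

set_option autoImplicit false
set_option linter.unusedSectionVars false

/-!
# The join of an edgeless graph and a tree
-/

namespace Pool.Agent.Lib.MP_61e017_co

/-- the join of the edgeless graph on `s` vertices and `T` -/
def JG (s r : ℕ) (T : SimpleGraph (Fin r)) : SimpleGraph (Fin s ⊕ Fin r) :=
  SimpleGraph.fromRel
    (fun a b : Fin s ⊕ Fin r =>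
      (∃ x y, a = Sum.inr x ∧ b = Sum.inr y ∧ T.Adj x y) ∨
      ∃ x y, a = Sum.inl x ∧ b = Sum.inr y)

variable {s r : ℕ} (T : SimpleGraph (Fin r))

theorem JG_ll (x y : Fin s) : ¬ (JG s r T).Adj (Sum.inl x) (Sum.inl y) := by
  simp [JG]

theorem JG_lr (x : Fin s) (y : Fin r) : (JG s r T).Adj (Sum.inl x) (Sum.inr y) := by
  simp [JG]

theorem JG_rr (x y : Fin r) : (JG s r T).Adj (Sum.inr x) (Sum.inr y) ↔ T.Adj x y := by
  simp only [JG, SimpleGraph.fromRel_adj]
  constructor
  · rintro ⟨_, h | h⟩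
    · rcases h with ⟨a, b, h1, h2, h3⟩ | ⟨a, b, h1, h2⟩
      · rw [Sum.inr.inj h1, Sum.inr.inj h2]; exact h3
      · exact absurd h1 (by simp)
    · rcases h with ⟨a, b, h1, h2, h3⟩ | ⟨a, b, h1, h2⟩
      · rw [Sum.inr.inj h1, Sum.inr.inj h2]; exact h3.symm
      · exact absurd h1 (by simp)
  · intro h
    refine ⟨fun h' => h.ne (Sum.inr.inj h'), Or.inl (Or.inl ⟨x, y, rfl, rfl, h⟩)⟩

theorem iso_of {V : Type*} [Fintype V] (G : SimpleGraph V) (p : V → Prop)
    (h1 : ∀ u v, p u → ¬ p v → G.Adj u v) (h2 : ∀ u v, p u → p v → ¬ G.Adj u v)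
    (h3 : (G.induce {v | ¬ p v}).IsTree) (hs : Nat.card {v // p v} = s)
    (hr : Nat.card {v // ¬ p v} = r) :
    ∃ T : SimpleGraph (Fin r), T.IsTree ∧ Nonempty (G ≃g JG s r T) := by
  classical
  have eS : {v // p v} ≃ Fin s := Finite.equivFinOfCardEq hs
  have eR : {v // ¬ p v} ≃ Fin r := Finite.equivFinOfCardEq hr
  let T : SimpleGraph (Fin r) := (G.induce {v | ¬ p v}).comap eR.symm
  have hT : T.IsTree := (SimpleGraph.Iso.comap eR.symm (G.induce {v | ¬ p v})).isTree_iff.2 h3
  refine ⟨T, hT, ⟨?_⟩⟩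
  let e : Fin s ⊕ Fin r ≃ V := (Equiv.sumCongr eS.symm eR.symm).trans (Equiv.sumCompl p)
  have el : ∀ x, e (Sum.inl x) = (eS.symm x).1 := fun x => rfl
  have er : ∀ y, e (Sum.inr y) = (eR.symm y).1 := fun y => rfl
  refine SimpleGraph.Iso.symm { toEquiv := e, map_rel_iff' := ?_ }
  rintro (x | x) (y | y)
  · rw [el, el]
    constructor
    · exact fun h => absurd h (h2 _ _ (eS.symm x).2 (eS.symm y).2)
    · exact fun h => absurd h (JG_ll T x y)
  · rw [el, er]
    exact ⟨fun _ => JG_lr T x y, fun _ => h1 _ _ (eS.symm x).2 (eR.symm y).2⟩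
  · rw [el, er]
    exact ⟨fun _ => (JG_lr T y x).symm, fun _ => (h1 _ _ (eS.symm y).2 (eR.symm x).2).symm⟩
  · rw [er, er, JG_rr]
    rfl

end Pool.Agent.Lib.MP_61e017_co
end

section

set_option autoImplicit false
set_option linter.unusedSectionVars false

/-!
# All joins with trees have the same number of colourings
-/

namespace Pool.Agent.Lib.MP_61e017_co

theorem col_iso {V W : Type*} [Fintype V] [DecidableEq V] [Fintype W] [DecidableEq W]
    {G : SimpleGraph V} {H : SimpleGraph W} (e : G ≃g H) (q : ℕ) :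
    (col G q).card = (col H q).card := by
  refine Finset.card_nbij' (fun f w => f (e.symm w)) (fun f v => f (e v)) ?_ ?_ ?_ ?_
  · intro f hf
    have hf' := mem_col.1 (Finset.mem_coe.1 hf)
    refine Finset.mem_coe.2 (mem_col.2 fun u v h => hf' _ _ ?_)
    rw [B_eq_true] at h ⊢
    exact e.symm.map_adj_iff.2 h
  · intro f hf
    have hf' := mem_col.1 (Finset.mem_coe.1 hf)
    refine Finset.mem_coe.2 (mem_col.2 fun u v h => hf' _ _ ?_)
    rw [B_eq_true] at h ⊢
    exact e.map_adj_iff.2 h
  · intro f _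
    funext v
    simp
  · intro f _
    funext v
    simp

theorem card_restrict {W : Type*} [Fintype W] [DecidableEq W] (T : SimpleGraph W) {q : ℕ}
    (C : Finset (Fin q)) :
    ((Finset.univ : Finset (W → Fin q)).filter
      (fun h => (∀ u v, B T u v = true → h u ≠ h v) ∧ ∀ v, h v ∈ C)).card = (col T C.card).card := by
  classical
  let e : C ≃ Fin C.card := C.equivFin
  refine Finset.card_bij (fun h hh v => e ⟨h v, (Finset.mem_filter.1 hh).2.2 v⟩) ?_ ?_ ?_
  · intro h hh
    refine mem_col.2 fun u v huv h' => ?_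
    have := e.injective h'
    exact (Finset.mem_filter.1 hh).2.1 u v huv (Subtype.ext_iff.1 this)
  · intro h hh h' hh' he
    funext v
    have := congrFun he v
    exact Subtype.ext_iff.1 (e.injective this)
  · intro k hk
    refine ⟨fun v => (e.symm (k v)).1, ?_, ?_⟩
    · rw [Finset.mem_filter]
      refine ⟨Finset.mem_univ _, fun u v huv h => ?_, fun v => (e.symm (k v)).2⟩
      exact mem_col.1 hk u v huv (e.symm.injective (Subtype.ext h))
    · funext v
      simp

theorem col_JG (s r : ℕ) (T : SimpleGraph (Fin r)) (q : ℕ) :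
    (col (JG s r T) q).card = ∑ g : Fin s → Fin q,
      (col T ((Finset.univ : Finset (Fin q)) \ (Finset.univ.image g)).card).card := by
  classical
  have h := Finset.card_eq_sum_card_fiberwise (s := col (JG s r T) q)
    (t := (Finset.univ : Finset (Fin s → Fin q))) (f := fun F x => F (Sum.inl x))
    (fun x _ => Finset.mem_coe.2 (Finset.mem_univ _))
  rw [h]
  refine Finset.sum_congr rfl fun g _ => ?_
  rw [← card_restrict]
  refine Finset.card_nbij' (fun F y => F (Sum.inr y)) (fun k => Sum.elim g k) ?_ ?_ ?_ ?_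
  · intro F hF
    simp only [Finset.coe_filter, Set.mem_ofPred_eq, Finset.mem_univ, true_and] at hF ⊢
    obtain ⟨h1, h2⟩ := hF
    rw [mem_col] at h1
    refine ⟨fun u v huv => h1 _ _ ?_, fun v => ?_⟩
    · rw [B_eq_true] at huv ⊢
      exact (JG_rr T u v).2 huv
    · rw [Finset.mem_sdiff, Finset.mem_image]
      refine ⟨Finset.mem_univ _, ?_⟩
      rintro ⟨x, -, hx⟩
      rw [← h2] at hx
      exact h1 _ _ ((B_eq_true _ _ _).2 (JG_lr T x v)) hx
  · intro k hk
    simp only [Finset.coe_filter, Set.mem_ofPred_eq, Finset.mem_univ, true_and] at hk ⊢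
    obtain ⟨h1, h2⟩ := hk
    refine ⟨?_, rfl⟩
    rw [mem_col]
    have h3 : ∀ x y, g x ≠ k y := by
      intro x y hxy
      have := h2 y
      rw [Finset.mem_sdiff, Finset.mem_image] at this
      exact this.2 ⟨x, Finset.mem_univ _, hxy⟩
    rintro (x | x) (y | y) hxy
    · exact absurd ((B_eq_true _ _ _).1 hxy) (JG_ll T x y)
    · exact h3 x y
    · exact (h3 y x).symm
    · rw [B_eq_true, JG_rr, ← B_eq_true] at hxy
      exact h1 x y hxy
  · intro F hF
    simp only [Finset.coe_filter, Set.mem_ofPred_eq] at hF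
    funext x
    rcases x with x | x
    · simp only [Sum.elim_inl]
      rw [← hF.2]
    · rfl
  · intro k _
    rfl

theorem col_tree (c : ℕ) : ∀ (k : ℕ) (W : Type) [Fintype W] [DecidableEq W] (T : SimpleGraph W),
    T.IsTree → Fintype.card W = k + 1 → (col T c).card = c * (c - 1) ^ k := by
  intro k
  induction k with
  | zero =>
    intro W _ _ T hT hW
    have : Subsingleton W := Fintype.card_le_one_iff_subsingleton.1 (by omega)
    have h1 : col T c = Finset.univ := by
      ext f
      simp only [mem_col, Finset.mem_univ, iff_true]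
      intro u v huv
      rw [Subsingleton.elim u v, B_self] at huv
      exact absurd huv (by simp)
    rw [h1, Finset.card_univ, Fintype.card_fun, hW, Fintype.card_fin]
    simp
  | succ k ih =>
    intro W _ _ T hT hW
    classical
    have : Nontrivial W := Fintype.one_lt_card_iff_nontrivial.1 (by omega)
    obtain ⟨v, hv⟩ := hT.exists_vert_degree_one_of_nontrivial
    have hT' : (T.induce ({v}ᶜ : Set W)).IsTree :=
      ⟨hT.connected.induce_compl_singleton_of_degree_eq_one hv, hT.isAcyclic.induce _⟩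
    have hW' : Fintype.card ({v}ᶜ : Set W) = k + 1 := by
      rw [Fintype.card_compl_set]
      simp [hW]
    have h1 := ih ({v}ᶜ : Set W) (T.induce ({v}ᶜ : Set W)) hT' hW'
    obtain ⟨u, hu, huniq⟩ := SimpleGraph.degree_eq_one_iff_existsUnique_adj.1 hv
    have huv : u ∈ ({v}ᶜ : Set W) := by
      simp only [Set.mem_compl_iff, Set.mem_singleton_iff]
      exact hu.ne.symm
    have h2 := Finset.card_eq_sum_card_fiberwise (s := col T c)
      (t := col (T.induce ({v}ᶜ : Set W)) c) (f := fun F (w : ({v}ᶜ : Set W)) => F w.1)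
      (by
        intro F hF
        have hF' := mem_col.1 (Finset.mem_coe.1 hF)
        refine Finset.mem_coe.2 (mem_col.2 fun a b hab => hF' _ _ ?_)
        rw [B_eq_true] at hab ⊢
        exact hab)
    have h3 : ∀ g ∈ col (T.induce ({v}ᶜ : Set W)) c,
        ((col T c).filter (fun F => (fun (w : ({v}ᶜ : Set W)) => F w.1) = g)).card = c - 1 := by
      intro g hg
      have h4 : c - 1 = ((Finset.univ : Finset (Fin c)).erase (g ⟨u, huv⟩)).card := by
        rw [Finset.card_erase_of_mem (Finset.mem_univ _), Finset.card_univ, Fintype.card_fin]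
      rw [h4]
      refine Finset.card_nbij' (fun F => F v)
        (fun x w => if h : w = v then x else g ⟨w, Set.mem_compl_singleton_iff.2 h⟩) ?_ ?_ ?_ ?_
      · intro F hF
        simp only [Finset.coe_filter, Set.mem_ofPred_eq] at hF
        rw [Finset.mem_coe, Finset.mem_erase]
        refine ⟨?_, Finset.mem_univ _⟩
        rw [← hF.2]
        exact mem_col.1 hF.1 v u ((B_eq_true T v u).2 hu)
      · intro x hx
        rw [Finset.mem_coe, Finset.mem_erase] at hx
        simp only [Finset.coe_filter, Set.mem_ofPred_eq]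
        refine ⟨?_, ?_⟩
        · rw [mem_col]
          intro a b hab
          by_cases ha : a = v
          · by_cases hb : b = v
            · rw [ha, hb, B_self] at hab
              exact absurd hab (by simp)
            · rw [dif_pos ha, dif_neg hb]
              have : b = u := huniq b (by rw [← ha]; exact (B_eq_true T a b).1 hab)
              subst this
              exact hx.1
          · by_cases hb : b = v
            · rw [dif_neg ha, dif_pos hb]
              have : a = u := huniq a (by rw [← hb]; exact ((B_eq_true T a b).1 hab).symm)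
              subst this
              exact hx.1.symm
            · rw [dif_neg ha, dif_neg hb]
              refine mem_col.1 hg _ _ ?_
              rw [B_eq_true] at hab ⊢
              exact hab
        · funext w
          have : ¬ w.1 = v := w.2
          rw [dif_neg this]
      · intro F hF
        simp only [Finset.coe_filter, Set.mem_ofPred_eq] at hF
        funext w
        by_cases hw : w = v
        · simp only
          rw [dif_pos hw, hw]
        · simp only
          rw [dif_neg hw, ← hF.2]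
      · intro x _
        simp
    rw [h2, Finset.sum_congr rfl h3, Finset.sum_const, h1, smul_eq_mul, pow_succ, mul_assoc]

theorem K3_zero (n m : ℕ) (x y : Σ i : Fin 3, Fin ((![1, n, m] : Fin 3 → ℕ) i))
    (hx : x.1 = 0) (hy : y.1 = 0) : x = y := by
  obtain ⟨i, x⟩ := x
  obtain ⟨j, y⟩ := y
  simp only at hx hy
  subst hx
  subst hy
  have : x = y := Subsingleton.elim (α := Fin 1) x y
  rw [this]

theorem K3_tree (n m : ℕ) (i : Fin 3) (hi : i ≠ 0) :
    ((K3 n m).induce {v | ¬ v.1 = i}).IsTree := by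
  have h0 : (⟨0, (0 : Fin 1)⟩ : Σ i : Fin 3, Fin ((![1, n, m] : Fin 3 → ℕ) i)) ∈
      {v : Σ i : Fin 3, Fin ((![1, n, m] : Fin 3 → ℕ) i) | ¬ v.1 = i} := fun h => hi h.symm
  have h : (K3 n m).induce {v | ¬ v.1 = i} = SimpleGraph.starGraph ⟨_, h0⟩ := by
    ext x y
    rw [SimpleGraph.starGraph_adj]
    have h1 : ((K3 n m).induce {v | ¬ v.1 = i}).Adj x y ↔ x.1.1 ≠ y.1.1 := Iff.rfl
    rw [h1]
    have hx : ¬ x.1.1 = i := x.2
    have hy : ¬ y.1.1 = i := y.2
    constructor
    · intro h
      refine ⟨fun h' => h (by rw [h']), ?_⟩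
      have h2 : x.1.1 = 0 ∨ y.1.1 = 0 := by omega
      rcases h2 with h2 | h2
      · exact Or.inl (Subtype.ext (K3_zero n m _ _ h2 rfl))
      · exact Or.inr (Subtype.ext (K3_zero n m _ _ h2 rfl))
    · rintro ⟨h2, h3⟩ h4
      apply h2
      rcases h3 with h3 | h3
      · have h5 : x.1.1 = 0 := by rw [h3]
        exact Subtype.ext (K3_zero n m _ _ h5 (h4.symm.trans h5))
      · have h5 : y.1.1 = 0 := by rw [h3]
        exact Subtype.ext (K3_zero n m _ _ (h4.trans h5) h5)
  rw [h]
  exact SimpleGraph.isTree_starGraph _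

theorem K3_card (n m : ℕ) :
    Fintype.card (Σ i : Fin 3, Fin ((![1, n, m] : Fin 3 → ℕ) i)) = 1 + n + m := by
  rw [Fintype.card_sigma, Fin.sum_univ_three, Fintype.card_fin, Fintype.card_fin,
    Fintype.card_fin]
  rfl

theorem K3_iso (n m : ℕ) (i : Fin 3) (hi : i ≠ 0) (s r : ℕ) (hs : (![1, n, m] : Fin 3 → ℕ) i = s)
    (hr : 1 + n + m = s + r) :
    ∃ T : SimpleGraph (Fin r), T.IsTree ∧ Nonempty (K3 n m ≃g JG s r T) := by
  have h1 : Nat.card {v : Σ i : Fin 3, Fin ((![1, n, m] : Fin 3 → ℕ) i) // v.1 = i} = s := by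
    rw [← hs, ← K3_cn, Nat.card_eq_fintype_card, Fintype.card_subtype]
    rfl
  have h2 : Nat.card {v : Σ i : Fin 3, Fin ((![1, n, m] : Fin 3 → ℕ) i) // ¬ v.1 = i} = r := by
    have h3 := Fintype.card_subtype_compl
      (fun v : Σ i : Fin 3, Fin ((![1, n, m] : Fin 3 → ℕ) i) => v.1 = i)
    rw [Nat.card_eq_fintype_card, h3, K3_card, ← Nat.card_eq_fintype_card, h1, hr]
    omega
  exact iso_of (K3 n m) (fun v => v.1 = i) (fun u v hu hv h => hv (h.symm.trans hu))
    (fun u v hu hv h => h (hu.trans hv.symm)) (K3_tree n m i hi) h1 h2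

theorem col_JG_eq (s r : ℕ) (hr : 1 ≤ r) (T T' : SimpleGraph (Fin r)) (hT : T.IsTree)
    (hT' : T'.IsTree) (q : ℕ) : (col (JG s r T) q).card = (col (JG s r T') q).card := by
  rw [col_JG, col_JG]
  refine Finset.sum_congr rfl fun g _ => ?_
  obtain ⟨k, rfl⟩ := Nat.exists_eq_add_of_le' hr
  rw [col_tree _ k _ T hT (Fintype.card_fin _), col_tree _ k _ T' hT' (Fintype.card_fin _)]

theorem converse1 (n m : ℕ) {V : Type*} [Fintype V] [DecidableEq V] (G : SimpleGraph V)
    (T : SimpleGraph (Fin (m + 1))) (hT : T.IsTree) (e : G ≃g JG n (m + 1) T) (q : ℕ) :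
    (col G q).card = (col (K3 n m) q).card := by
  obtain ⟨T', hT', ⟨e'⟩⟩ := K3_iso n m 1 (by decide) n (m + 1) rfl (by omega)
  rw [col_iso e, col_iso e', col_JG_eq n (m + 1) (by omega) T T' hT hT']

theorem converse2 (n m : ℕ) {V : Type*} [Fintype V] [DecidableEq V] (G : SimpleGraph V)
    (T : SimpleGraph (Fin (n + 1))) (hT : T.IsTree) (e : G ≃g JG m (n + 1) T) (q : ℕ) :
    (col G q).card = (col (K3 n m) q).card := by
  obtain ⟨T', hT', ⟨e'⟩⟩ := K3_iso n m 2 (by decide) m (n + 1) rfl (by omega)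
  rw [col_iso e, col_iso e', col_JG_eq m (n + 1) (by omega) T T' hT hT']

/-- The classification. -/
theorem classification (n m : ℕ) (hn : 2 ≤ n) (hm : 2 ≤ m) {V : Type*} [Fintype V]
    (G : SimpleGraph V) :
    (∀ q : ℕ, Nat.card (G.Coloring (Fin q)) = Nat.card ((K3 n m).Coloring (Fin q))) ↔
      ((∃ T : SimpleGraph (Fin (m + 1)), T.IsTree ∧ Nonempty (G ≃g JG n (m + 1) T)) ∨
       (∃ T : SimpleGraph (Fin (n + 1)), T.IsTree ∧ Nonempty (G ≃g JG m (n + 1) T))) := by
  classical
  constructor
  · intro h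
    obtain ⟨p, h1, h2, h3, h4⟩ := struct_main n m hn hm G
      (fun q _ => by rw [← card_coloring, ← card_coloring]; exact h q)
    rcases h4 with ⟨h5, h6⟩ | ⟨h5, h6⟩
    · exact Or.inl (iso_of G p h1 h2 h3 h5 h6)
    · exact Or.inr (iso_of G p h1 h2 h3 h5 h6)
  · rintro (⟨T, hT, ⟨e⟩⟩ | ⟨T, hT, ⟨e⟩⟩) q
    · rw [card_coloring, card_coloring]
      exact converse1 n m G T hT e q
    · rw [card_coloring, card_coloring]
      exact converse2 n m G T hT e q

end Pool.Agent.Lib.MP_61e017_co
end
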